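import Pool.Agent.H11.W.ONet1

/-!
# The link pattern of an open network depends on a zone only through the link pattern of the zone

`Emb M N j`: the open network `M` sits in `N` with the tiles `j`. `Emb.rel_eq`: if two states of `N` agree off
the zone and have the same link pattern in `M`, then they have the same link pattern in `N`. `Emb.Z_eq`: hence
means with fixed states of the zone are equal. `rel_symm`: the link pattern is symmetric.
-/

set_option autoImplicit false

namespace Pool.Agent.H11.W

open Pool.Agent.H64.Q1 Pool.Agent.H81.G1 Finset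

variable {ι κ Ω Ξ : Type*}

/-- **The link pattern is symmetric.** -/
theorem ONet.rel_symm (N : ONet ι Ω) {s : ι → Bool} {o o' : Ω} (h : N.rel s o o') :
    N.rel s o' o := by
  have key : ∀ x, N.Arr s o x → N.Arr s o' (N.π x) → N.Arr s o' (.inr o) := by
    intro x hx
    induction hx with
    | start => intro h1; rwa [N.inv] at h1
    | @step i d _ ih =>
      intro h1
      rw [N.inv] at h1
      have h2 := ONet.Arr.step h1
      rw [ONet.mate_mate] at h2
      exact ih h2
  exact key _ h ONet.Arr.start

/-- the network `M` sits in the network `N` -/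
structure Emb (M : ONet κ Ξ) (N : ONet ι Ω) (j : κ → ι) : Prop where
  inj : Function.Injective j
  wire : ∀ k d k' d', M.π (.inl (k, d)) = .inl (k', d') → N.π (.inl (j k, d)) = .inl (j k', d')

namespace Emb

variable {M : ONet κ Ξ} {N : ONet ι Ω} {j : κ → ι} (H : Emb M N j)
include H

/-- the partner of an end of the zone which is not wired inside `M` -/
theorem out {k : κ} {d : Dir} {x : (ι × Dir) ⊕ Ω} (hx : N.π x = .inl (j k, d))
    (h : ∀ k' d', x ≠ .inl (j k', d')) : ∃ ξ, M.π (.inl (k, d)) = .inr ξ := by
  rcases h1 : M.π (.inl (k, d)) with ⟨k', d'⟩ | ξ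
  · have h2 := H.wire _ _ _ _ h1
    rw [← hx, N.inv] at h2
    exact absurd h2 (h k' d')
  · exact ⟨ξ, rfl⟩

theorem arr {s s' : ι → Bool} (hs : ∀ i, i ∉ Set.range j → s i = s' i)
    (hM : M.rel (s ∘ j) = M.rel (s' ∘ j)) {o : Ω} {x : (ι × Dir) ⊕ Ω} (h : N.Arr s o x) :
    ((∀ k d, x ≠ .inl (j k, d)) → N.Arr s' o x) ∧
    ∀ k d, x = .inl (j k, d) → ∃ ξ k0 d0, M.π (.inr ξ) = .inl (k0, d0) ∧
      N.Arr s' o (.inl (j k0, d0)) ∧ M.Arr (s ∘ j) ξ (.inl (k, d)) := by
  -- arriving from outside
  have enter : ∀ y, N.Arr s' o (N.π y) → (∀ k d, y ≠ .inl (j k, d)) →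
      ∀ k d, N.π y = .inl (j k, d) → ∃ ξ k0 d0, M.π (.inr ξ) = .inl (k0, d0) ∧
      N.Arr s' o (.inl (j k0, d0)) ∧ M.Arr (s ∘ j) ξ (.inl (k, d)) := by
    intro y hy hout k d hk
    obtain ⟨ξ, hξ⟩ := H.out hk hout
    have h1 : M.π (.inr ξ) = .inl (k, d) := by rw [← hξ, M.inv]
    refine ⟨ξ, k, d, h1, hk ▸ hy, ?_⟩
    rw [← h1]
    exact ONet.Arr.start
  induction h with
  | start =>
    have h1 : N.Arr s' o (N.π (.inr o)) := ONet.Arr.start
    exact ⟨fun _ => h1, fun k d hk => enter _ h1 (fun _ _ => by simp) k d hk⟩
  | @step i d h ih =>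
    obtain ⟨ih1, ih2⟩ := ih
    by_cases hi : ∃ k, j k = i
    · obtain ⟨k, rfl⟩ := hi
      obtain ⟨ξ, k0, d0, e1, e2, e3⟩ := ih2 k d rfl
      have e4 := ONet.Arr.step e3
      change M.Arr (s ∘ j) ξ (M.π (.inl (k, d.mate (s (j k))))) at e4
      rcases h1 : M.π (.inl (k, d.mate (s (j k)))) with ⟨k', d'⟩ | ξ'
      · have h2 := H.wire _ _ _ _ h1
        rw [h1] at e4
        refine ⟨fun h3 => absurd h2 (h3 k' d'), fun k'' d'' h3 => ?_⟩
        rw [h2] at h3
        simp only [Sum.inl.injEq, Prod.mk.injEq] at h3
        obtain ⟨h4, rfl⟩ := h3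
        have h5 := H.inj h4
        subst h5
        exact ⟨ξ, k0, d0, e1, e2, e4⟩
      · rw [h1] at e4
        -- the strand leaves the zone
        have e5 : M.rel (s' ∘ j) ξ ξ' := by rw [← hM]; exact e4
        have walk : ∀ y, M.Arr (s' ∘ j) ξ y → ∀ k1 d1, y = .inl (k1, d1) →
            N.Arr s' o (.inl (j k1, d1)) := by
          intro y hy
          induction hy with
          | start =>
            intro k1 d1 h3
            rw [e1] at h3
            simp only [Sum.inl.injEq, Prod.mk.injEq] at h3
            obtain ⟨rfl, rfl⟩ := h3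
            exact e2
          | @step k2 d2 h3 ih3 =>
            intro k1 d1 h4
            have h5 := ONet.Arr.step (ih3 k2 d2 rfl)
            rw [← H.wire _ _ _ _ h4]
            exact h5
        -- the last step
        have last : ∀ y, M.Arr (s' ∘ j) ξ y → y = .inr ξ' →
            N.Arr s' o (N.π (.inl (j k, d.mate (s (j k))))) := by
          intro y hy
          cases hy with
          | start =>
            intro h3
            rw [e1] at h3
            simp at h3
          | @step k2 d2 h3 =>
            intro h4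
            have h5 := walk _ h3 k2 d2 rfl
            have h6 := ONet.Arr.step h5
            have h7 := M.π_inj (h4.trans h1.symm)
            simp only [Sum.inl.injEq, Prod.mk.injEq, Function.comp_apply] at h7
            obtain ⟨rfl, h8⟩ := h7
            rw [h8] at h6
            exact h6
        have e6 := last _ e5 rfl
        refine ⟨fun _ => e6, fun k'' d'' h3 => ?_⟩
        -- reentering
        have h9 : ∃ ξ'', M.π (.inl (k'', d'')) = .inr ξ'' := by
          rcases h10 : M.π (.inl (k'', d'')) with ⟨k3, d3⟩ | ξ''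
          · have h11 := H.wire _ _ _ _ h10
            rw [← h3, N.inv] at h11
            simp only [Sum.inl.injEq, Prod.mk.injEq] at h11
            obtain ⟨h12, h13⟩ := h11
            have h14 := H.inj h12
            subst h14
            rw [← h13] at h10
            rw [← h10, M.inv] at h1
            simp at h1
          · exact ⟨ξ'', rfl⟩
        obtain ⟨ξ'', hξ⟩ := h9
        have h10 : M.π (.inr ξ'') = .inl (k'', d'') := by rw [← hξ, M.inv]
        refine ⟨ξ'', k'', d'', h10, h3 ▸ e6, ?_⟩
        rw [← h10]
        exact ONet.Arr.start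
    · push Not at hi
      have h1 := ih1 fun k d' h2 => by
        simp only [Sum.inl.injEq, Prod.mk.injEq] at h2
        exact hi k h2.1.symm
      have h2 := ONet.Arr.step h1
      rw [← hs i (by rintro ⟨k, hk⟩; exact hi k hk)] at h2
      refine ⟨fun _ => h2, fun k d' h3 => enter _ h2 (fun k' d'' h4 => ?_) k d' h3⟩
      simp only [Sum.inl.injEq, Prod.mk.injEq] at h4
      exact hi k' h4.1.symm

/-- **The link pattern depends on the zone only through the link pattern of the zone.** -/
theorem rel_eq {s s' : ι → Bool} (hs : ∀ i, i ∉ Set.range j → s i = s' i)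
    (hM : M.rel (s ∘ j) = M.rel (s' ∘ j)) : N.rel s = N.rel s' := by
  funext o o'
  apply propext
  constructor
  · intro h
    exact (H.arr hs hM h).1 (by simp)
  · intro h
    exact (H.arr (fun i hi => (hs i hi).symm) hM.symm h).1 (by simp)

end Emb

end Pool.Agent.H11.W
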