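import Pool.Agent.H11.W.RectR
import Pool.Agent.H11.W.ZoneN

/-!
# The frozen row can be removed: the pattern theorem, states

`P` : a finite set of tiles which contains the rectangle with the columns `a .. a + m` and the rows
`y0 .. r + 1 + n`; its row `r` is frozen. The removed rectangle `KR` has the rows `y0 .. r + n`; `ups` is the
position of its tiles in `P`. `PN.removed`: if the tiles of the rectangle off the row `r` have fixed states, the
mean of every function of the link pattern of `P` depends on these states only through the link pattern of the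
removed rectangle.
-/

set_option autoImplicit false

namespace Pool.Agent.H11.W

open Pool.Agent.H64.Q1 Pool.Agent.H64.Q1.LP Pool.Agent.H81.G1 Pool.Agent.H13.Q1 Finset
open Pool.Agent.H93.W

/-! ### Fixed states of a zone -/

section flip

variable {ι κ Ω Ξ : Type*} [Fintype ι] [DecidableEq ι]

/-- **Means with fixed states of a zone depend only on the link pattern of the zone.** -/
theorem Emb.Z_eq {M : ONet κ Ξ} {N : ONet ι Ω} {j : κ → ι} (H : Emb M N j) {σ σ' : κ → Bool}
    (hM : M.rel σ = M.rel σ') {b b' : ι → ℂ} (hb : ∀ k, b (j k) = if σ k then 1 else 0)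
    (hb' : ∀ k, b' (j k) = if σ' k then 1 else 0) (hbb : ∀ i, i ∉ Set.range j → b i = b' i)
    (Φ : (Ω → Ω → Prop) → ℂ) :
    N.Z (fun i => 1 - b i) b Φ = N.Z (fun i => 1 - b' i) b' Φ := by
  classical
  set δ : ι → Bool := fun i => decide (∃ k, j k = i ∧ σ k ≠ σ' k) with hδ
  have hδj : ∀ k, δ (j k) = xor (σ k) (σ' k) := by
    intro k
    rw [hδ]
    simp only
    by_cases h : σ k = σ' k
    · rw [h, Bool.xor_self, decide_eq_false_iff_not]
      rintro ⟨k', h1, h2⟩
      exact h2 (H.inj h1 ▸ h)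
    · have h3 : (∃ k', j k' = j k ∧ σ k' ≠ σ' k') := ⟨k, rfl, h⟩
      rw [decide_eq_true h3]
      cases h4 : σ k <;> cases h5 : σ' k <;> simp_all
  have hδo : ∀ i, i ∉ Set.range j → δ i = false := by
    intro i hi
    rw [hδ]
    simp only
    rw [decide_eq_false_iff_not]
    rintro ⟨k, rfl, -⟩
    exact hi ⟨k, rfl⟩
  let fl : (ι → Bool) ≃ (ι → Bool) :=
    ⟨fun s i => xor (s i) (δ i), fun s i => xor (s i) (δ i), fun s => by funext i; simp,
      fun s => by funext i; simp⟩
  unfold ONet.Z
  rw [← fl.sum_comp (fun s => (∏ i, if s i then b' i else 1 - b' i) * Φ (N.rel s))]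
  refine Finset.sum_congr rfl fun s _ => ?_
  have hw : (∏ i, if (fl s) i then b' i else 1 - b' i) = ∏ i, if s i then b i else 1 - b i := by
    refine Finset.prod_congr rfl fun i _ => ?_
    change (if xor (s i) (δ i) then b' i else 1 - b' i) = _
    by_cases hi : i ∈ Set.range j
    · obtain ⟨k, rfl⟩ := hi
      rw [hδj, hb, hb']
      cases s (j k) <;> cases σ k <;> cases σ' k <;> simp
    · rw [hδo i hi, hbb i hi, Bool.xor_false]
  rw [hw]
  by_cases h0 : (∏ i, if s i then b i else 1 - b i) = 0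
  · rw [h0, zero_mul, zero_mul]
  · have h1 : s ∘ j = σ := by
      funext k
      by_contra hne
      apply h0
      apply Finset.prod_eq_zero (mem_univ (j k))
      rw [hb]
      simp only [Function.comp_apply] at hne
      cases h2 : s (j k) <;> cases h3 : σ k <;> simp_all
    have h2 : (fl s) ∘ j = σ' := by
      funext k
      have h3 : s (j k) = σ k := congrFun h1 k
      change xor (s (j k)) (δ (j k)) = σ' k
      rw [hδj, h3]
      cases σ k <;> cases σ' k <;> rfl
    have h3 : N.rel s = N.rel (fl s) := by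
      refine H.rel_eq (fun i hi => ?_) (by rw [h1, h2]; exact hM)
      change s i = xor (s i) (δ i)
      rw [hδo i hi, Bool.xor_false]
    rw [h3]

end flip

/-! ### The geometry -/

section geo

variable (P : Finset (ℤ × ℤ)) (a r y0 : ℤ) (m n : ℕ)

/-- the rectangle and the string below it -/
def inK (q : ℤ × ℤ) : Prop := a ≤ q.1 ∧ q.1 ≤ a + m ∧ r ≤ q.2 ∧ q.2 ≤ r + 1 + n

instance (q : ℤ × ℤ) : Decidable (inK a r m n q) := by unfold inK; infer_instance

/-- the other tiles -/
abbrev OT : Type := {q : Tz P // ¬ inK a r m n q.1}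

variable {P a r y0 m n} (hK : ∀ q, inK a r m n q → q ∈ P)

/-- the tiles of `P` -/
def jP : RT m n ⊕ OT P a r m n ⊕ Fin (m + 1) → Tz P
  | .inl z => ⟨rpos a r z, hK _ (by
      unfold inK rpos
      have := z.1.2; have := z.2.2
      simp only
      omega)⟩
  | .inr (.inl o) => o.1
  | .inr (.inr i) => ⟨(a + (i : ℕ), r), hK _ (by
      unfold inK
      have := i.2
      simp only
      omega)⟩

theorem jP_bij : Function.Bijective (jP hK) := by
  constructor
  · rintro (z | o | i) (z' | o' | i') h <;> have h := congrArg Subtype.val h <;>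
      simp only [jP] at h
    · have h1 := rer_inj a r (m := m) (n := n) (a₁ := (z, .W)) (a₂ := (z', .W)) (by
        unfold rer; simp only; rw [h])
      rw [(Prod.mk.inj h1).1]
    · exfalso
      apply o'.2
      rw [← h]
      unfold inK rpos
      have := z.1.2; have := z.2.2
      simp only
      omega
    · exfalso
      simp only [rpos, Prod.mk.injEq] at h
      omega
    · exfalso
      apply o.2
      rw [h]
      unfold inK rpos
      have := z'.1.2; have := z'.2.2
      simp only
      omega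
    · rw [Subtype.ext (Subtype.ext h)]
    · exfalso
      apply o.2
      rw [h]
      unfold inK
      have := i'.2
      simp only
      omega
    · exfalso
      simp only [rpos, Prod.mk.injEq] at h
      omega
    · exfalso
      apply o'.2
      rw [← h]
      unfold inK
      have := i.2
      simp only
      omega
    · simp only [Prod.mk.injEq] at h
      have : i = i' := Fin.ext (by omega)
      rw [this]
  · intro q
    by_cases h : inK a r m n q.1
    · obtain ⟨⟨x, y⟩, hq⟩ := q
      unfold inK at h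
      simp only at h
      by_cases h1 : y = r
      · refine ⟨.inr (.inr ⟨(x - a).toNat, by omega⟩), ?_⟩
        apply Subtype.ext
        simp only [jP, Prod.mk.injEq]
        omega
      · refine ⟨.inl (⟨(y - r - 1).toNat, by omega⟩, ⟨(x - a).toNat, by omega⟩), ?_⟩
        apply Subtype.ext
        simp only [jP, rpos, Prod.mk.injEq]
        omega
    · exact ⟨.inr (.inl ⟨q, h⟩), rfl⟩

/-- the tiles of `P`: the rectangle, the other ones, the string -/
noncomputable def JP : RT m n ⊕ OT P a r m n ⊕ Fin (m + 1) ≃ Tz P :=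
  Equiv.ofBijective (jP hK) (jP_bij hK)

theorem JP_apply (x : RT m n ⊕ OT P a r m n ⊕ Fin (m + 1)) : JP hK x = jP hK x := rfl

theorem PN_π_eq {i i' : Tz P} {d : Dir} (h : nb i.1 d = i'.1) :
    (PN P).π (.inl (i, d)) = .inl (i', op d) := by
  have h1 : nb i.1 d ∈ P := by rw [h]; exact i'.2
  have e : (PN P).π (.inl (i, d)) = .inl (⟨nb i.1 d, h1⟩, op d) := pnw_in h1
  rw [e]
  congr 2
  exact Subtype.ext h

theorem PN_π_inv {i i' : Tz P} {d d' : Dir} (h : (PN P).π (.inl (i, d)) = .inl (i', d')) :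
    nb i.1 d = i'.1 ∧ d' = op d := by
  by_cases h1 : nb i.1 d ∈ P
  · have e : (PN P).π (.inl (i, d)) = .inl (⟨nb i.1 d, h1⟩, op d) := pnw_in h1
    rw [e] at h
    simp only [Sum.inl.injEq, Prod.mk.injEq] at h
    exact ⟨congrArg Subtype.val h.1, h.2.symm⟩
  · have e : (PN P).π (.inl (i, d)) = .inr ⟨(i, d), h1⟩ := pnw_out h1
    rw [e] at h
    exact absurd h (by simp)

/-- the string is a line over the lower side of the rectangle -/
theorem oline_PN {ζ : ℂ} (hζ : Fz ζ) (wt : RT m n → ℂ) :
    OLine (rectW a r hζ wt).g (rectW a r hζ wt).er (rectW a r hζ wt).p1 (JP hK) (fun _ => .W)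
      (PN P) where
  rr := by
    rintro ⟨z, d⟩ ⟨z', d'⟩ h
    have h' : pg (rer a r (z, d)) = rer a r (z', d') := h
    simp only [rer, pg_inl, Sum.inl.injEq, Prod.mk.injEq] at h'
    obtain ⟨h1, rfl⟩ := h'
    exact PN_π_eq (i := JP hK (.inl z)) (i' := JP hK (.inl z')) h1
  rl := by
    intro i
    refine PN_π_eq (i := JP hK (.inl (0, i))) (i' := JP hK (.inr (.inr i))) ?_
    show ((a + ((i : ℕ) : ℤ), r + 1 + (((0 : Fin (n + 1)) : ℕ) : ℤ) - 1) : ℤ × ℤ) =
      (a + ((i : ℕ) : ℤ), r)
    rw [Prod.mk.injEq, Fin.val_zero]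
    omega
  ll := by
    intro i j h
    refine PN_π_eq (i := JP hK (.inr (.inr i))) (i' := JP hK (.inr (.inr j))) ?_
    show ((a + ((i : ℕ) : ℤ) + 1 : ℤ), r) = (a + ((j : ℕ) : ℤ), r)
    rw [Prod.mk.injEq]
    omega

/-! ### The removed rectangle -/

variable (a r y0 m n)

/-- the removed rectangle: columns `a .. a + m`, rows `y0 .. r + n` -/
noncomputable def KR : Finset (ℤ × ℤ) := Icc a (a + m) ×ˢ Icc y0 (r + n)

theorem mem_KR {q : ℤ × ℤ} : q ∈ KR a r y0 m n ↔ (a ≤ q.1 ∧ q.1 ≤ a + m) ∧ y0 ≤ q.2 ∧ q.2 ≤ r + n := by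
  unfold KR
  rw [mem_product, mem_Icc, mem_Icc]

/-- the position of a tile of the removed rectangle -/
def ups (q : ℤ × ℤ) : ℤ × ℤ := if q.2 < r then q else (q.1, q.2 + 1)

variable {a r y0 m n} (hL : ∀ q, q ∈ KR a r y0 m n → q.2 < r → q ∈ P)

include hK hL in
theorem ups_mem {q : ℤ × ℤ} (hq : q ∈ KR a r y0 m n) : ups r q ∈ P := by
  unfold ups
  split_ifs with h
  · exact hL q hq h
  · apply hK
    rw [mem_KR] at hq
    unfold inK
    simp only
    omega

/-- the tile of the second network -/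
def jR (q : Tz (KR a r y0 m n)) : RT m n ⊕ OT P a r m n ⊕ Fin (Lp2 m n).length :=
  if h : q.1.2 < r then .inr (.inl ⟨⟨q.1, hL _ q.2 h⟩, by
    unfold inK
    simp only
    omega⟩)
  else .inl (⟨(q.1.2 - r).toNat, by
    have := (mem_KR a r y0 m n).1 q.2
    omega⟩, ⟨(q.1.1 - a).toNat, by
    have := (mem_KR a r y0 m n).1 q.2
    omega⟩)

theorem jR_lo {q : Tz (KR a r y0 m n)} (h : q.1.2 < r) :
    ∃ o : OT P a r m n, jR (P := P) hL q = .inr (.inl o) ∧ o.1.1 = q.1 := by
  unfold jR
  rw [dif_pos h]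
  exact ⟨_, rfl, rfl⟩

theorem jR_up {q : Tz (KR a r y0 m n)} (h : ¬ q.1.2 < r) :
    ∃ z : RT m n, jR (P := P) hL q = .inl z ∧ rpos a r z = ups r q.1 := by
  have := (mem_KR a r y0 m n).1 q.2
  unfold jR
  rw [dif_neg h]
  refine ⟨_, rfl, ?_⟩
  unfold rpos ups
  rw [if_neg h]
  simp only [Prod.mk.injEq]
  omega

theorem ups_inj {q q' : ℤ × ℤ} (h : ups r q = ups r q') : q = q' := by
  unfold ups at h
  obtain ⟨x, y⟩ := q
  obtain ⟨x', y'⟩ := q'
  split_ifs at h <;> simp only [Prod.mk.injEq] at h ⊢ <;> simp only at * <;> omega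

theorem jR_inj : Function.Injective (jR (P := P) (a := a) (y0 := y0) (m := m) (n := n) hL) := by
  intro q q' h
  apply Subtype.ext
  by_cases h1 : q.1.2 < r <;> by_cases h2 : q'.1.2 < r
  · obtain ⟨o, h3, h4⟩ := jR_lo hL h1
    obtain ⟨o', h5, h6⟩ := jR_lo hL h2
    rw [h3, h5] at h
    rw [← h4, ← h6, Sum.inl.inj (Sum.inr.inj h)]
  · obtain ⟨o, h3, h4⟩ := jR_lo hL h1
    obtain ⟨o', h5, h6⟩ := jR_up hL h2
    rw [h3, h5] at h
    exact absurd h (by simp)
  · obtain ⟨o, h3, h4⟩ := jR_up hL h1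
    obtain ⟨o', h5, h6⟩ := jR_lo hL h2
    rw [h3, h5] at h
    exact absurd h (by simp)
  · obtain ⟨o, h3, h4⟩ := jR_up hL h1
    obtain ⟨o', h5, h6⟩ := jR_up hL h2
    rw [h3, h5] at h
    have h7 := Sum.inl.inj h
    apply ups_inj (r := r)
    rw [← h4, ← h6, h7]

end geo

end Pool.Agent.H11.W
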