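import Pool.Agent.H11.W.BD1

/-!
# The frozen row can be removed: the pattern theorem
-/

set_option autoImplicit false

namespace Pool.Agent.H11.W

open Pool.Agent.H64.Q1 Pool.Agent.H64.Q1.LP Pool.Agent.H81.G1 Pool.Agent.H13.Q1 Finset
open Pool.Agent.H93.W

section geo

variable {P : Finset (ℤ × ℤ)} {a r y0 : ℤ} {m n : ℕ} (hK : ∀ q, inK a r m n q → q ∈ P)
  (hL : ∀ q, q ∈ KR a r y0 m n → q.2 < r → q ∈ P)

theorem nb_up (q : ℤ × ℤ) (d : Dir) : nb (q.1, q.2 + 1) d = ((nb q d).1, (nb q d).2 + 1) := by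
  cases d <;> simp [nb]

theorem Lp2_pos : 0 < (Lp2 m n).length := by
  unfold Lp2 LpE
  simp

/-- the wires of the tiles of the removed rectangle below the row `r` -/
theorem wire_lo {ζ : ℂ} {hζ : Fz ζ}
    {N2 : ONet (RT m n ⊕ OT P a r m n ⊕ Fin (Lp2 m n).length) (Bd P)}
    {ρ : LP (Ex (OT P a r m n) (m + 1) (Lp2 m n).length ⊕ Bd P)}
    (hρ1 : ∀ x, (PN P).π (Sum.map ((rectW a r hζ (fun _ => 0)).E1 (Nat.succ_pos m) (JP hK)
      (fun _ => .W)) id x) = Sum.map ((rectW a r hζ (fun _ => 0)).E1 (Nat.succ_pos m) (JP hK)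
      (fun _ => .W)) id (ρ x))
    (hρ2 : ∀ x, N2.π (Sum.map ((rectW a r hζ (fun _ => 0)).E2 Lp2_pos (Equiv.refl _)
      (fun _ => .W)) id x) = Sum.map ((rectW a r hζ (fun _ => 0)).E2 Lp2_pos (Equiv.refl _)
      (fun _ => .W)) id (ρ x))
    {k k' : Tz (KR a r y0 m n)} {d : Dir} (hk : k.1.2 < r) (h : nb k.1 d = k'.1) :
    N2.π (.inl (jR (P := P) hL k, d)) = .inl (jR (P := P) hL k', op d) := by
  set E1 := (rectW a r hζ (fun _ => 0)).E1 (O := OT P a r m n) (Nat.succ_pos m) (JP hK)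
    (fun _ => .W) with hE1
  set E2 := (rectW a r hζ (fun _ => 0)).E2 (O := OT P a r m n) Lp2_pos (Equiv.refl _)
    (fun _ => .W) with hE2
  have hinj : Function.Injective (Sum.map E1 id : _ ⊕ Bd P → _) :=
    Function.Injective.sumMap (Rgw.E1_inj _ _ _ _) Function.injective_id
  obtain ⟨o, ho, ho'⟩ := jR_lo hL hk
  rw [ho]
  have r1 := hρ1 (.inl (.o (o, d)))
  have r2 := hρ2 (.inl (.o (o, d)))
  have e1 : (Sum.map E1 id (.inl (.o (o, d))) : _ ⊕ Bd P) = .inl (o.1, d) := rfl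
  have e2 : (Sum.map E2 id (.inl (.o (o, d))) : _ ⊕ Bd P) = .inl (.inr (.inl o), d) := rfl
  rw [e1] at r1
  rw [e2] at r2
  rw [r2]
  by_cases hk' : k'.1.2 < r
  · obtain ⟨o', h1, h2⟩ := jR_lo hL hk'
    have r3 : (PN P).π (.inl (o.1, d)) = .inl (o'.1, op d) :=
      PN_π_eq (by rw [ho', h2]; exact h)
    rw [r3] at r1
    have e3 : (.inl (o'.1, op d) : _ ⊕ Bd P) = Sum.map E1 id (.inl (.o (o', op d))) := rfl
    rw [e3] at r1
    rw [← hinj r1, h1]
    rfl
  · obtain ⟨z, h1, h2⟩ := jR_up hL hk'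
    have hd : d = .N := by
      have := congrArg Prod.snd h
      cases d <;> simp only [nb] at this <;> first | rfl | (exfalso; omega)
    subst hd
    have hz : z.1 = 0 := by
      have h3 := congrArg Prod.snd h2
      have h4 := congrArg Prod.snd h
      unfold ups rpos at h3
      rw [if_neg hk'] at h3
      simp only [nb] at h3 h4
      apply Fin.ext
      rw [Fin.val_zero]
      omega
    have r3 : (PN P).π (.inl (o.1, .N)) = .inl (JP hK (.inr (.inr z.2)), .S) := by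
      refine PN_π_eq (i' := JP hK (.inr (.inr z.2))) ?_
      rw [ho', h]
      show k'.1 = (a + ((z.2 : ℕ) : ℤ), r)
      have h3 := congrArg Prod.fst h2
      have h4 := congrArg Prod.snd h2
      unfold ups rpos at h3 h4
      rw [if_neg hk'] at h3 h4
      rw [hz, Fin.val_zero] at h4
      refine Prod.ext ?_ ?_
      · exact h3.symm
      · simp only at h4 ⊢
        omega
    rw [r3] at r1
    have e3 : (.inl (JP hK (.inr (.inr z.2)), .S) : _ ⊕ Bd P) =
      Sum.map E1 id (.inl (.f1 z.2)) := rfl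
    rw [e3] at r1
    rw [← hinj r1, h1]
    have e4 : z = (0, z.2) := Prod.ext hz rfl
    rw [e4]
    rfl

/-- **The second network**: the frozen line goes round the rectangle, the rows below and above it are
neighbours. -/
theorem exists_N2 {ζ : ℂ} (hζ : Fz ζ) :
    ∃ N2 : ONet (RT m n ⊕ OT P a r m n ⊕ Fin (Lp2 m n).length) (Bd P),
      Emb (PN (KR a r y0 m n)) N2 (jR hL) ∧
      ∀ (b : Tz P → ℂ), (∀ i, b (JP hK (.inr (.inr i))) = ζ) → ∀ Φ : (Bd P → Bd P → Prop) → ℂ,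
        (PN P).Z (fun i => 1 - b i) b Φ =
          N2.Z (fun i => 1 - Sum.elim (fun z => b (JP hK (.inl z)))
              (Sum.elim (fun o => b o.1) (fun _ => ζ)) i)
            (Sum.elim (fun z => b (JP hK (.inl z))) (Sum.elim (fun o => b o.1) (fun _ => ζ))) Φ := by
  obtain ⟨N2, ρ, H2, hρ1, hρ2⟩ := ONet.exists_second (rectW a r hζ (fun _ => 0)) (Nat.succ_pos m)
    Lp2_pos (JP hK) (Equiv.refl _) (fun _ => .W) (fun _ => .W) (oline_PN hK hζ _)
  refine ⟨N2, ⟨jR_inj hL, ?_⟩, ?_⟩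
  · intro k d k' d' h
    obtain ⟨h1, rfl⟩ := PN_π_inv h
    by_cases hk : k.1.2 < r
    · exact wire_lo hK hL hρ1 hρ2 hk h1
    · by_cases hk' : k'.1.2 < r
      · have h2 : nb k'.1 (op d) = k.1 := by rw [← h1, nb_nb]
        have h3 := wire_lo hK hL hρ1 hρ2 hk' h2
        rw [op_op] at h3
        rw [← h3, N2.inv]
      · obtain ⟨z, h3, h4⟩ := jR_up hL hk
        obtain ⟨z', h5, h6⟩ := jR_up hL hk'
        rw [h3, h5]
        refine H2.rr (z, d) (z', op d) ?_
        show pg (rer a r (z, d)) = rer a r (z', op d)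
        unfold rer
        rw [pg_inl, h4, h6]
        congr 2
        rw [← h1]
        unfold ups
        rw [if_neg hk, if_neg (by rw [h1]; exact hk')]
        exact nb_up _ _
  · intro b hb Φ
    set wt : RT m n → ℂ := fun z => b (JP hK (.inl z)) with hwt
    exact ONet.exchange (rectW a r hζ wt) (Nat.succ_pos m) Lp2_pos (JP hK) (Equiv.refl _)
      (fun _ => .W) (fun _ => .W) (oline_PN hK hζ wt) ⟨H2.rr, H2.rl, H2.ll⟩ ρ hρ1 hρ2
      (fun i => by simp) (fun i => by simp) (fun z => rfl) (fun z => rfl) (fun o => rfl)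
      (fun i => hb i) (fun i => by
        show ζ = 1 - ζ⁻¹
        rw [hζ.rot]) Φ

/-- **The pattern theorem, states.** `b`: weight of the state `true`. -/
theorem PN.removed {ζ : ℂ} (hζ : Fz ζ) {b b' : Tz P → ℂ} {σ σ' : Tz (KR a r y0 m n) → Bool}
    (hM : (PN (KR a r y0 m n)).rel σ = (PN (KR a r y0 m n)).rel σ')
    (hb : ∀ q : Tz (KR a r y0 m n), b ⟨_, ups_mem hK hL q.2⟩ = if σ q then 1 else 0)
    (hb' : ∀ q : Tz (KR a r y0 m n), b' ⟨_, ups_mem hK hL q.2⟩ = if σ' q then 1 else 0)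
    (hs : ∀ i : Tz P, a ≤ i.1.1 → i.1.1 ≤ a + m → i.1.2 = r → b i = ζ ∧ b' i = ζ)
    (hy : y0 ≤ r) (ho : ∀ i : Tz P, (∀ q ∈ KR a r y0 m n, ups r q ≠ i.1) → b i = b' i)
    (Φ : (Bd P → Bd P → Prop) → ℂ) :
    (PN P).Z (fun i => 1 - b i) b Φ = (PN P).Z (fun i => 1 - b' i) b' Φ := by
  obtain ⟨N2, HE, h2⟩ := exists_N2 hK hL hζ
  have hstr : ∀ i : Fin (m + 1), a ≤ (JP hK (.inr (.inr i))).1.1 ∧
      (JP hK (.inr (.inr i))).1.1 ≤ a + m ∧ (JP hK (.inr (.inr i))).1.2 = r := by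
    intro i
    show a ≤ a + ((i : ℕ) : ℤ) ∧ a + ((i : ℕ) : ℤ) ≤ a + m ∧ r = r
    have := i.2
    omega
  rw [h2 b (fun i => (hs _ (hstr i).1 (hstr i).2.1 (hstr i).2.2).1) Φ,
    h2 b' (fun i => (hs _ (hstr i).1 (hstr i).2.1 (hstr i).2.2).2) Φ]
  -- the weight of a tile of the second network
  have key : ∀ (c : Tz P → ℂ) (q : Tz (KR a r y0 m n)),
      Sum.elim (fun z => c (JP hK (.inl z))) (Sum.elim (fun o : OT P a r m n => c o.1)
        (fun _ : Fin (Lp2 m n).length => ζ)) (jR (P := P) hL q) =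
        c ⟨_, ups_mem hK hL q.2⟩ := by
    intro c q
    by_cases hq : q.1.2 < r
    · obtain ⟨o, h3, h4⟩ := jR_lo hL hq
      rw [h3]
      show c o.1 = _
      congr 1
      apply Subtype.ext
      rw [h4]
      show q.1 = ups r q.1
      unfold ups
      rw [if_pos hq]
    · obtain ⟨z, h3, h4⟩ := jR_up hL hq
      rw [h3]
      show c (JP hK (.inl z)) = _
      congr 1
      exact Subtype.ext h4
  refine HE.Z_eq hM (fun q => by rw [key, hb]) (fun q => by rw [key, hb']) ?_ Φ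
  rintro (z | o | i) hi
  · exfalso
    apply hi
    have hq : ((a + ((z.2 : ℕ) : ℤ), r + ((z.1 : ℕ) : ℤ)) : ℤ × ℤ) ∈ KR a r y0 m n := by
      rw [mem_KR]
      have := z.1.2
      have := z.2.2
      simp only
      omega
    have hq' : ¬ r + ((z.1 : ℕ) : ℤ) < r := by omega
    obtain ⟨z', h3, h4⟩ := jR_up (q := ⟨_, hq⟩) hL hq'
    refine ⟨⟨_, hq⟩, ?_⟩
    rw [h3]
    have h5 : rpos a r z' = rpos a r z := by
      rw [h4]
      unfold ups rpos
      rw [if_neg hq']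
      simp only [Prod.mk.injEq, true_and]
      ring
    have h6 := rer_inj a r (m := m) (n := n) (a₁ := (z', .W)) (a₂ := (z, .W)) (by
      unfold rer; simp only; rw [h5])
    rw [(Prod.mk.inj h6).1]
  · show b o.1 = b' o.1
    refine ho o.1 fun q hq h => hi ?_
    have h7 : q.2 < r := by
      by_contra hcon
      apply o.2
      rw [← h]
      rw [mem_KR] at hq
      unfold ups inK
      rw [if_neg hcon]
      simp only
      omega
    obtain ⟨o', h3, h4⟩ := jR_lo (q := ⟨q, hq⟩) (P := P) hL h7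
    refine ⟨⟨q, hq⟩, ?_⟩
    rw [h3]
    have h5 : o' = o := by
      apply Subtype.ext
      apply Subtype.ext
      rw [h4, ← h]
      show q = ups r q
      unfold ups
      rw [if_pos h7]
    rw [h5]
  · rfl

end geo

end Pool.Agent.H11.W
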