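import Pool.Agent.H11.W.BD2
import Pool.Agent.H80.W.Zones

/-!
# The frozen row can be removed: the pattern theorem, labels

`u` : labels of the removed rectangle `KR` (columns `a .. a + m`, rows `y0 .. r + n`); `rm u` : the same states of
the tiles as labels of the plane with the row `r` (above the row `r`: one row higher, open and closed
exchanged). `removed_EPat`: if the row `r` is frozen, the mean of every function of the link pattern of the
box `P.image lt` depends on `u` only through the link pattern of the removed rectangle. `removed_patF`: in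
the form of 80's `PatF`.
-/

set_option autoImplicit false

namespace Pool.Agent.H11.W

open Pool.Agent.H75.Perc Pool.Agent.H75.TwoArm Pool.Agent.Q1 Pool.Agent.H81.G1 Pool.Agent.H33.Q1
open Pool.Agent.H74.R45 (ce inq)
open H80.W Finset

/-- orientation of a link -/
theorem PN.rel_bi {P : Finset (ℤ × ℤ)} {s : Tz P → Bool} {o o' : Bd P} (h : (PN P).rel s o o') :
    bi o' = !bi o := by
  have key : ∀ x, (PN P).Arr s o x → iK x = bi o := by
    intro x hx
    induction hx with
    | start => rfl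
    | @step i d h ih =>
      rw [(PN_π_K (P := P) (z := (i, d.mate (s i)))).2]
      have h5 : inq i.1 d = bi o := ih
      show (!inq i.1 (d.mate _)) = _
      rw [inq_mate, h5, Bool.not_not]
  have h1 : (!bi o') = bi o := key _ h
  rw [← h1, Bool.not_not]

/-- the link pattern of a plane network is given by the link pattern of the zone -/
theorem PN.rel_congr {P u u' : Finset (ℤ × ℤ)}
    (h : ∀ c d, EPat (P.image lt) u c d → EPat (P.image lt) u' c d) {o o' : Bd P}
    (h1 : (PN P).rel (sP P u) o o') : (PN P).rel (sP P u') o o' := by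
  have key : ∀ o o' : Bd P, bi o = true → (PN P).rel (sP P u) o o' → (PN P).rel (sP P u') o o' := by
    intro o o' ho h2
    have h3 : EPat (P.image lt) u (bc o) (bc o') := by
      rw [EPat_eq]
      exact ⟨o, o', ho, rfl, rfl, h2⟩
    have h4 := h _ _ h3
    rw [EPat_eq] at h4
    obtain ⟨p, p', h5, h6, h7, h8⟩ := h4
    rw [bc_inj h6, bc_inj h7] at h8
    exact h8
  cases h2 : bi o
  · have h3 := PN.rel_bi h1
    rw [h2] at h3
    exact ((PN P).rel_symm (key o' o h3 ((PN P).rel_symm h1)))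
  · exact key o o' h2 h1

theorem PN.rel_eq {P u u' : Finset (ℤ × ℤ)}
    (h : ∀ c d, EPat (P.image lt) u c d ↔ EPat (P.image lt) u' c d) :
    (PN P).rel (sP P u) = (PN P).rel (sP P u') := by
  funext o o'
  exact propext ⟨PN.rel_congr fun c d => (h c d).1, PN.rel_congr fun c d => (h c d).2⟩

section removed

variable (a r y0 : ℤ) (m n : ℕ)

/-- the labels of the removed rectangle -/
noncomputable def ZR : Finset (ℤ × ℤ) := (KR a r y0 m n).image lt

/-- **The labels of the plane of a removed configuration.** -/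
noncomputable def rm (u : Finset (ℤ × ℤ)) : Finset (ℤ × ℤ) :=
  ((KR a r y0 m n).filter fun q => (q.2 < r ∧ lt q ∈ u) ∨ (r ≤ q.2 ∧ lt q ∉ u)).image
    fun q => lt (ups r q)

/-- the labels of the string -/
noncomputable def Sg : Finset (ℤ × ℤ) := (Icc a (a + m)).image fun x => lt (x, r)

/-- the labels of the rectangle off the string -/
noncomputable def Zz : Finset (ℤ × ℤ) := (KR a r y0 m n).image fun q => lt (ups r q)

variable {a r y0 m n}

theorem mem_rm {u : Finset (ℤ × ℤ)} {q : ℤ × ℤ} (hq : q ∈ KR a r y0 m n) :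
    lt (ups r q) ∈ rm a r y0 m n u ↔ (q.2 < r ∧ lt q ∈ u) ∨ (r ≤ q.2 ∧ lt q ∉ u) := by
  unfold rm
  rw [mem_image]
  constructor
  · rintro ⟨q', h1, h2⟩
    rw [ups_inj (lt_inj h2)] at h1
    exact (mem_filter.1 h1).2
  · intro h
    exact ⟨q, mem_filter.2 ⟨hq, h⟩, rfl⟩

theorem rm_sub (u : Finset (ℤ × ℤ)) : rm a r y0 m n u ⊆ Zz a r y0 m n :=
  image_subset_image (filter_subset _ _)

variable {P : Finset (ℤ × ℤ)} (hK : ∀ q, inK a r m n q → q ∈ P)
  (hL : ∀ q, q ∈ KR a r y0 m n → q.2 < r → q ∈ P)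

include hK hL in
theorem Zz_sub : Zz a r y0 m n ⊆ P.image lt := by
  intro e he
  unfold Zz at he
  obtain ⟨q, hq, rfl⟩ := mem_image.1 he
  exact mem_lt.2 (ups_mem hK hL hq)

include hK hL in
/-- **The pattern theorem.** -/
theorem removed_EPat {ζ : ℂ} (hζ : Fz ζ) (hy : y0 ≤ r) {q : ℤ × ℤ → ℂ} {E v : Finset (ℤ × ℤ)}
    (hq : ∀ x, a ≤ x → x ≤ a + m → q (lt (x, r)) = if (x + r) % 2 = 1 then ζ else 1 - ζ)
    (hE : E ⊆ P.image lt) (hS : Sg a r m ⊆ E) (hv : v ⊆ P.image lt) (hEv : Disjoint E v)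
    (hEz : Disjoint E (Zz a r y0 m n)) (hvz : Disjoint v (Zz a r y0 m n))
    {u u' : Finset (ℤ × ℤ)} (h : ∀ c d, EPat (ZR a r y0 m n) u c d ↔ EPat (ZR a r y0 m n) u' c d)
    (Ψ : (ℤ × ℤ → ℤ × ℤ → Prop) → ℂ) :
    Ec q E (fun ω => Ψ (EPat (P.image lt) (ω ∪ (v ∪ rm a r y0 m n u)))) =
      Ec q E (fun ω => Ψ (EPat (P.image lt) (ω ∪ (v ∪ rm a r y0 m n u')))) := by
  classical
  set q' : Finset (ℤ × ℤ) → ℤ × ℤ → ℂ := fun u e =>
    if e ∈ E then q e else if e ∈ v ∪ rm a r y0 m n u then 1 else 0 with hq'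
  -- all labels of the box
  have key : ∀ u, Ec q E (fun ω => Ψ (EPat (P.image lt) (ω ∪ (v ∪ rm a r y0 m n u)))) =
      (PN P).Z (fun i => 1 - pb (q' u) i) (pb (q' u)) (fun R => Ψ (extR R)) := by
    intro u
    have h1 : (fun i : Tz P => 1 - pb (q' u) i) = pa (q' u) := by
      funext i
      rw [← pa_add_pb (q' u) i]; ring
    rw [h1, ← Ec_EPat]
    have hW : v ∪ rm a r y0 m n u ⊆ P.image lt :=
      union_subset hv ((rm_sub u).trans (Zz_sub hK hL))
    have hd : Disjoint E (v ∪ rm a r y0 m n u) := by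
      rw [disjoint_union_right]
      exact ⟨hEv, hEz.mono_right (rm_sub u)⟩
    have e1 : ∀ e ∈ E, q e = q' u e := fun e he => by
      rw [hq']
      simp only
      rw [if_pos he]
    rw [Ec_congr_q e1]
    refine (Ec_fixed hE hW hd (fun e he => ?_) (fun e _ h2 h3 => ?_)
      (fun ω => Ψ (EPat (P.image lt) ω))).symm
    · rw [hq']
      simp only
      rw [if_neg fun h2 => disjoint_left.1 hd h2 he, if_pos he]
    · rw [hq']
      simp only
      rw [if_neg h2, if_neg h3]
  rw [key, key]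
  -- the states of the zone
  have hbz : ∀ (u : Finset (ℤ × ℤ)) (k : Tz (KR a r y0 m n)),
      pb (q' u) (⟨_, ups_mem hK hL k.2⟩ : Tz P) = if sP (KR a r y0 m n) u k then 1 else 0 := by
    intro u k
    have hz : lt (ups r k.1) ∈ Zz a r y0 m n := mem_image.2 ⟨k.1, k.2, rfl⟩
    have n1 : lt (ups r k.1) ∉ E := fun h1 => disjoint_left.1 hEz h1 hz
    have n2 : lt (ups r k.1) ∉ v := fun h1 => disjoint_left.1 hvz h1 hz
    have e1 : q' u (lt (ups r k.1)) =
        if (k.1.2 < r ∧ lt k.1 ∈ u) ∨ (r ≤ k.1.2 ∧ lt k.1 ∉ u) then 1 else 0 := by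
      rw [hq']
      simp only
      rw [if_neg n1]
      simp only [mem_union, n2, false_or, mem_rm k.2]
    unfold pb sP sq
    rw [e1]
    by_cases hk : k.1.2 < r
    · have e2 : ups r k.1 = k.1 := by unfold ups; rw [if_pos hk]
      have n3 : ¬ r ≤ k.1.2 := by omega
      simp only [e2, hk, n3, true_and, false_and, or_false]
      by_cases h1 : lt k.1 ∈ u <;> by_cases h2 : (k.1.1 + k.1.2) % 2 = 1 <;> simp [h1, h2]
    · have e2 : ups r k.1 = (k.1.1, k.1.2 + 1) := by unfold ups; rw [if_neg hk]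
      have n3 : r ≤ k.1.2 := by omega
      have e3 : (decide (((ups r k.1).1 + (ups r k.1).2) % 2 = 1)) =
          !decide ((k.1.1 + k.1.2) % 2 = 1) := by
        rw [e2]
        exact par_nb k.1 .N
      simp only [e3, hk, n3, true_and, false_and, false_or]
      by_cases h1 : lt k.1 ∈ u <;> by_cases h2 : (k.1.1 + k.1.2) % 2 = 1 <;> simp [h1, h2]
  refine PN.removed hK hL hζ (σ := sP _ u) (σ' := sP _ u') (PN.rel_eq h) (hbz u) (hbz u') ?_ hy ?_ _
  · rintro ⟨⟨x, y⟩, hp⟩ h1 h2 h3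
    simp only at h1 h2 h3
    subst h3
    have hx : lt (x, y) ∈ E := hS (mem_image.2 ⟨x, mem_Icc.2 ⟨h1, h2⟩, rfl⟩)
    have key2 : ∀ u, pb (q' u) (⟨(x, y), hp⟩ : Tz P) = ζ := by
      intro u
      have e1 : q' u (lt (x, y)) = if (x + y) % 2 = 1 then ζ else 1 - ζ := by
        rw [hq']
        simp only
        rw [if_pos hx, hq x h1 h2]
      unfold pb
      simp only
      rw [e1]
      by_cases h4 : (x + y) % 2 = 1 <;> simp [h4]
    exact ⟨key2 u, key2 u'⟩
  · intro i hi
    have n1 : ∀ u, lt i.1 ∉ rm a r y0 m n u := by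
      intro u h1
      obtain ⟨k, hk, h2⟩ := mem_image.1 (rm_sub u h1)
      exact hi k hk (lt_inj h2)
    have e1 : q' u (lt i.1) = q' u' (lt i.1) := by
      rw [hq']
      simp only [mem_union, n1, or_false]
    unfold pb
    rw [e1]

theorem TR_ZR : TR (ZR a r y0 m n) a (a + m + 1) y0 (r + n + 1) := by
  intro e he
  unfold ZR
  rw [mem_image]
  constructor
  · rintro ⟨q, hq, rfl⟩
    rw [mem_KR] at hq
    unfold lt
    simp only
    omega
  · rintro ⟨h1, h2, h3, h4⟩
    refine ⟨tt e, ?_, lt_tt he⟩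
    rw [mem_KR]
    unfold tt
    simp only
    omega

theorem odd_ZR : ∀ e ∈ ZR a r y0 m n, (e.1 + e.2) % 2 = 1 := by
  intro e he
  obtain ⟨q, -, rfl⟩ := mem_image.1 he
  exact lt_odd q

include hK hL in
/-- **The pattern theorem in 80's form**: every mean over the frozen row and other labels of a function of the
link pattern of the box is, as a function of the labels of the removed rectangle, a functional of the strands
of the removed rectangle. -/
theorem removed_patF {ζ : ℂ} (hζ : Fz ζ) (hy : y0 ≤ r) {q : ℤ × ℤ → ℂ} {E v : Finset (ℤ × ℤ)}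
    (hq : ∀ x, a ≤ x → x ≤ a + m → q (lt (x, r)) = if (x + r) % 2 = 1 then ζ else 1 - ζ)
    (hE : E ⊆ P.image lt) (hS : Sg a r m ⊆ E) (hv : v ⊆ P.image lt) (hEv : Disjoint E v)
    (hEz : Disjoint E (Zz a r y0 m n)) (hvz : Disjoint v (Zz a r y0 m n))
    (Ψ : (ℤ × ℤ → ℤ × ℤ → Prop) → ℂ) :
    PatF (ZR a r y0 m n) {c | Entry (ZR a r y0 m n) c ∧ lab c ∈ ZR a r y0 m n}
      (fun u => Ec q E (fun ω => Ψ (EPat (P.image lt) (ω ∪ (v ∪ rm a r y0 m n u))))) where
  zf := TR_ZR.zf odd_ZR
  zv := TR_ZR.zv odd_ZR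
  entry := fun c hc => hc.1
  pat := by
    intro w _ w' _ h
    refine removed_EPat hK hL hζ hy hq hE hS hv hEv hEz hvz (fun c d => ?_) Ψ
    unfold EPat
    constructor
    · rintro ⟨h1, h2, h3⟩
      exact ⟨h1, h2, (h c ⟨h1, h2⟩ d).1 h3⟩
    · rintro ⟨h1, h2, h3⟩
      exact ⟨h1, h2, (h c ⟨h1, h2⟩ d).2 h3⟩

end removed

end Pool.Agent.H11.W
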