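import Pool.Agent.H64.Q1.Reg5

/-!
# Exchange of a line around a region with arbitrary weights

`Bw g u v T l F`: the region of the tiles `l` (arbitrary complex weights) has been grown in the wiring `g`;
`F` is the list of its free ends from left to right (name, direction, weight of the line at this end).
The rules only ask for the algebraic relations of the weights of the line. Instances: the natural line
(`Bt.bw`) and the frozen line (`Bz`), whose weight is a root `ζ` of `ζ (1 - ζ) = 1` at every end and which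
passes through tiles of any weight.
-/

namespace Pool.Agent.H11.W

open Pool.Agent.H64.Q1 Pool.Agent.H64.Q1.LP Pool.Agent.H13.Q1

variable {D : Type*} [DecidableEq D]

/-- The Yang-Baxter relation: the line crosses two neighbours with the weights `a` and `b`, and the
crossing of the two neighbours has the weight `p`. -/
def YB (a b p : ℂ) : Prop := a * (1 - b) * p = (1 - a) * b * p + a * b * (1 - p) +
  (1 - a) * b * (1 - p) + (1 - a) * (1 - b) * (1 - p)

/-- **Growth of a region, arbitrary weights.** -/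
inductive Bw (g : LP D) (u v : D) : Set D → List (Tl D) → List (Fe D) → Prop
  | nil (h : g u = v) : Bw g u v {x | x = u ∨ x = v} [] []
  | edge {T : Set D} {l : List (Tl D)} (F1 F2 : List (Fe D)) (x : D) (k : ℤ) (a b : ℂ)
      (h : Bw g u v T l (F1 ++ F2)) (hx : x ∉ T) (ha : a ≠ 0) (hab : b * (1 - a) = 1) :
      Bw g u v {y | y ∈ T ∨ y = x ∨ y = g x} l
        (F1 ++ (x, k, a) :: (g x, k + g.d x + 2, b) :: F2)
  | fill {T : Set D} {l : List (Tl D)} (F1 F2 : List (Fe D)) (z0 z1 z2 z3 : D) (k : ℤ)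
      (a0 a1 a2 a3 w : ℂ) (h : Bw g u v T l (F1 ++ (z0, k, a0) :: (z1, k - 1, a1) ::
        (z2, k - 2, a2) :: (z3, k - 3, a3) :: F2))
      (h02 : a0 * (1 - a2) = 1) (h13 : a1 * (1 - a3) = 1) (hw : YB a0 a1 w) :
      Bw g u v T (⟨z0, z1, z2, z3, w⟩ :: l) (F1 ++ F2)
  | rot {T : Set D} {l : List (Tl D)} (F : List (Fe D)) (x : D) (k : ℤ) (a : ℂ)
      (h : Bw g u v T l ((x, k, a) :: F)) (ha : a ≠ 1) :
      Bw g u v T l (F ++ [(x, k + 4, 1 - a⁻¹)])

/-- the front with dummy angles -/
noncomputable def dm (F : List (Fe D)) : List (Fe D) := F.map fun c => (c.1, c.2.1, (Real.pi : ℂ) / 2)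

omit [DecidableEq D] in
theorem fn_dm (F : List (Fe D)) : fn (dm F) = fn F := by
  unfold fn dm
  rw [List.map_map]; rfl

omit [DecidableEq D] in
theorem dm_append (F G : List (Fe D)) : dm (F ++ G) = dm F ++ dm G := List.map_append ..

omit [DecidableEq D] in
theorem AF_dm (u v : D) (F : List (Fe D)) : AF u v (dm F) = AF u v F := by
  unfold AF
  rw [fn_dm]

/-- the front as a front of `H13.Q1.Track` -/
def fa (F : List (Fe D)) : List (D × ℂ) := F.map fun c => (c.1, c.2.2)

omit [DecidableEq D] in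
theorem nm_fa (F : List (Fe D)) : nm (fa F) = fn F := by
  unfold nm fa fn
  rw [List.map_map]; rfl

omit [DecidableEq D] in
theorem fa_append (F G : List (Fe D)) : fa (F ++ G) = fa F ++ fa G := List.map_append ..

omit [DecidableEq D] in
theorem fa_cons (c : Fe D) (F : List (Fe D)) : fa (c :: F) = (c.1, c.2.2) :: fa F := rfl

omit [DecidableEq D] in
theorem alv_fa (u v : D) (F : List (Fe D)) : Alv u v (fa F) = AF u v F := by
  unfold Alv AF
  rw [nm_fa]

/-- the combinatorial facts about a grown region -/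
structure Iw (g : LP D) (u v : D) (T : Set D) (l : List (Tl D)) (F : List (Fe D)) : Prop where
  gu : g u = v
  T0 : u ∈ T ∧ v ∈ T
  Tg : ∀ x ∈ T, g x ∈ T
  F0 : u ∉ fn F ∧ v ∉ fn F
  nd : (fn F).Nodup
  FT : ∀ x ∈ fn F, x ∈ T
  nz : ∀ c ∈ F, c.2.2 ≠ 0
  zT : ∀ t ∈ l, ∀ z, z = t.z0 ∨ z = t.z1 ∨ z = t.z2 ∨ z = t.z3 → z ∈ T ∧ z ∉ AF u v F
  zne : ∀ t ∈ l, t.z0 ≠ t.z1 ∧ t.z0 ≠ t.z2 ∧ t.z0 ≠ t.z3 ∧ t.z1 ≠ t.z2 ∧ t.z1 ≠ t.z3 ∧ t.z2 ≠ t.z3
  out : ∀ s, St g l s → Eqv {x | x ∉ T} g s
  alv : ∀ s, St g l s → Stable (AF u v F) s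

theorem gen_pi2 : Complex.sin ((Real.pi : ℂ) / 2) ≠ 0 := by
  rw [Complex.sin_pi_div_two]; exact one_ne_zero

theorem Iw.inv {g : LP D} {u v : D} {T : Set D} {l : List (Tl D)} {F : List (Fe D)}
    (h : Iw g u v T l F) : Inv g u v T l (dm F) := by
  refine ⟨h.gu, h.T0, h.Tg, by rw [fn_dm]; exact h.F0, by rw [fn_dm]; exact h.nd,
    by rw [fn_dm]; exact h.FT, ?_, by rw [AF_dm]; exact h.zT, h.zne, h.out,
    by rw [AF_dm]; exact h.alv⟩
  intro c hc
  obtain ⟨d, -, rfl⟩ := List.mem_map.1 hc
  exact gen_pi2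

theorem Bw.inv {g : LP D} {u v : D} {T : Set D} {l : List (Tl D)} {F : List (Fe D)}
    (h : Bw g u v T l F) : Iw g u v T l F := by
  induction h with
  | nil h =>
    have hvu : g v = u := by rw [← h, g.invol]
    refine ⟨h, ⟨Or.inl rfl, Or.inr rfl⟩, ?_, ⟨List.not_mem_nil, List.not_mem_nil⟩, List.nodup_nil,
      fun x hx => absurd hx List.not_mem_nil, fun c hc => absurd hc List.not_mem_nil,
      fun t ht => absurd ht List.not_mem_nil, fun t ht => absurd ht List.not_mem_nil, ?_, ?_⟩
    · rintro x (rfl | rfl)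
      · exact Or.inr h
      · exact Or.inl hvu
    · intro s hs
      cases hs
      refine Eqv.refl fun x hx => ?_
      rintro (h1 | h1)
      · apply hx
        right
        rw [← g.invol x, h1, h]
      · apply hx
        left
        rw [← g.invol x, h1, hvu]
    · intro s hs
      cases hs
      rintro x (rfl | rfl | h1)
      · exact Or.inr (Or.inl h)
      · exact Or.inl hvu
      · exact absurd h1 List.not_mem_nil
  | edge F1 F2 x k a b h hx ha hab ih =>
    rename_i T l
    have hgx : g x ∉ T := fun h1 => hx (by have := ih.Tg _ h1; rwa [g.invol] at this)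
    have hxg : x ≠ g x := g.ne2 x
    have nF : ∀ y, y ∉ T → y ∉ fn (F1 ++ F2) := fun y hy h1 => hy (ih.FT y h1)
    have x1 := nF x hx
    have x2 := nF _ hgx
    rw [fn_append, List.mem_append, not_or] at x1 x2
    have hmem : ∀ y, y ∈ fn (F1 ++ (x, k, a) :: (g x, k + g.d x + 2, b) :: F2) ↔
        y ∈ fn (F1 ++ F2) ∨ y = x ∨ y = g x := by
      intro y
      simp only [fn_append, fn_cons, List.mem_append, List.mem_cons]
      tauto
    have hAF : ∀ y, y ∈ AF u v (F1 ++ (x, k, a) :: (g x, k + g.d x + 2, b) :: F2) ↔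
        y ∈ AF u v (F1 ++ F2) ∨ y = x ∨ y = g x := by
      intro y
      unfold AF
      simp only [Set.mem_setOf_eq]
      rw [hmem]
      tauto
    refine ⟨ih.gu, ⟨Or.inl ih.T0.1, Or.inl ih.T0.2⟩, ?_, ?_, ?_, ?_, ?_, ?_, ih.zne, ?_, ?_⟩
    · rintro y (hy | rfl | rfl)
      · exact Or.inl (ih.Tg y hy)
      · exact Or.inr (Or.inr rfl)
      · exact Or.inr (Or.inl (g.invol x))
    · rw [hmem, hmem]
      refine ⟨?_, ?_⟩
      · rintro (h1 | h1 | h1)
        · exact ih.F0.1 h1
        · exact hx (h1 ▸ ih.T0.1)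
        · exact hgx (h1 ▸ ih.T0.1)
      · rintro (h1 | h1 | h1)
        · exact ih.F0.2 h1
        · exact hx (h1 ▸ ih.T0.2)
        · exact hgx (h1 ▸ ih.T0.2)
    · have hnd := ih.nd
      rw [fn_append, List.nodup_append] at hnd
      obtain ⟨d1, d2, d3⟩ := hnd
      rw [fn_append, fn_cons, fn_cons, List.nodup_append, List.nodup_cons, List.nodup_cons]
      refine ⟨d1, ⟨?_, x2.2, d2⟩, ?_⟩
      · rw [List.mem_cons, not_or]
        exact ⟨hxg, x1.2⟩
      · intro a ha b hb
        rw [List.mem_cons, List.mem_cons] at hb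
        rcases hb with rfl | rfl | hb
        · rintro rfl; exact x1.1 ha
        · rintro rfl; exact x2.1 ha
        · exact d3 a ha b hb
    · intro y hy
      rcases (hmem y).1 hy with h1 | h1 | h1
      · exact Or.inl (ih.FT y h1)
      · exact Or.inr (Or.inl h1)
      · exact Or.inr (Or.inr h1)
    · intro c hc
      rw [List.mem_append, List.mem_cons, List.mem_cons] at hc
      rcases hc with hc | rfl | rfl | hc
      · exact ih.nz c (List.mem_append_left _ hc)
      · exact ha
      · rintro h0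
        rw [show b = 0 from h0, zero_mul] at hab
        exact zero_ne_one hab
      · exact ih.nz c (List.mem_append_right _ hc)
    · intro t ht z hz
      obtain ⟨h1, h2⟩ := ih.zT t ht z hz
      refine ⟨Or.inl h1, ?_⟩
      rw [hAF]
      rintro (h3 | h3 | h3)
      · exact h2 h3
      · exact hx (h3 ▸ h1)
      · exact hgx (h3 ▸ h1)
    · intro s hs
      have h1 := ih.out s hs
      refine h1.mono (fun y hy h2 => hy (Or.inl h2)) ?_
      intro y hy h2
      apply hy
      rcases h2 with h2 | h2 | h2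
      · left
        have := ih.Tg _ h2
        rwa [g.invol] at this
      · right; right
        rw [← h2, g.invol]
      · right; left
        exact g.p.injective h2
    · intro s hs y hy
      rw [hAF] at hy ⊢
      have h1 := (ih.out s hs).2 x hx
      rcases hy with hy | rfl | rfl
      · exact Or.inl (ih.alv s hs y hy)
      · right; right
        exact h1.1.symm
      · right; left
        rw [h1.1, s.invol]
  | fill F1 F2 z0 z1 z2 z3 k a0 a1 a2 a3 w h h02 h13 hw ih =>
    rename_i T l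
    have hnd := ih.nd
    have e0 : fn (F1 ++ (z0, k, a0) :: (z1, k - 1, a1) :: (z2, k - 2, a2) ::
        (z3, k - 3, a3) :: F2) = fn F1 ++ z0 :: z1 :: z2 :: z3 :: fn F2 := by
      rw [fn_append]; rfl
    have hmem : ∀ y, y ∈ fn (F1 ++ (z0, k, a0) :: (z1, k - 1, a1) ::
        (z2, k - 2, a2) :: (z3, k - 3, a3) :: F2) ↔
        y ∈ fn (F1 ++ F2) ∨ y = z0 ∨ y = z1 ∨ y = z2 ∨ y = z3 := by
      intro y
      rw [e0]
      simp only [fn_append, List.mem_append, List.mem_cons]
      tauto
    rw [e0, List.nodup_append] at hnd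
    obtain ⟨d1, d2, d3⟩ := hnd
    simp only [List.nodup_cons, List.mem_cons, not_or] at d2
    obtain ⟨⟨n1, n2, n3, m0⟩, ⟨n4, n5, m1⟩, ⟨n6, m2⟩, m3, d4⟩ := d2
    have o0 : z0 ∉ fn F1 := fun h1 => d3 _ h1 z0 (by simp) rfl
    have o1 : z1 ∉ fn F1 := fun h1 => d3 _ h1 z1 (by simp) rfl
    have o2 : z2 ∉ fn F1 := fun h1 => d3 _ h1 z2 (by simp) rfl
    have o3 : z3 ∉ fn F1 := fun h1 => d3 _ h1 z3 (by simp) rfl
    have q0 := ih.F0
    have hz : ∀ z, z = z0 ∨ z = z1 ∨ z = z2 ∨ z = z3 → z ∈ T ∧ z ∉ AF u v (F1 ++ F2) := by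
      intro z hz
      have h1 := (hmem z).2 (Or.inr hz)
      refine ⟨ih.FT z h1, ?_⟩
      rintro (h2 | h2 | h2)
      · exact q0.1 (h2 ▸ h1)
      · exact q0.2 (h2 ▸ h1)
      · rw [fn_append, List.mem_append] at h2
        rcases hz with rfl | rfl | rfl | rfl
        · exact h2.elim o0 m0
        · exact h2.elim o1 m1
        · exact h2.elim o2 m2
        · exact h2.elim o3 m3
    have hAF : AF u v (F1 ++ F2) = dz (AF u v (F1 ++ (z0, k, a0) :: (z1, k - 1, a1) ::
        (z2, k - 2, a2) :: (z3, k - 3, a3) :: F2)) z0 z1 z2 z3 := by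
      ext y
      constructor
      · intro hy
        refine ⟨?_, fun e => (hz y (Or.inl e)).2 hy, fun e => (hz y (Or.inr (Or.inl e))).2 hy,
          fun e => (hz y (Or.inr (Or.inr (Or.inl e)))).2 hy,
          fun e => (hz y (Or.inr (Or.inr (Or.inr e)))).2 hy⟩
        rcases hy with h1 | h1 | h1
        · exact Or.inl h1
        · exact Or.inr (Or.inl h1)
        · exact Or.inr (Or.inr ((hmem y).2 (Or.inl h1)))
      · rintro ⟨h1 | h1 | h1, y0, y1, y2, y3⟩
        · exact Or.inl h1
        · exact Or.inr (Or.inl h1)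
        · rcases (hmem y).1 h1 with h2 | h2 | h2 | h2 | h2
          · exact Or.inr (Or.inr h2)
          · exact absurd h2 y0
          · exact absurd h2 y1
          · exact absurd h2 y2
          · exact absurd h2 y3
    have hza : ∀ z, z = z0 ∨ z = z1 ∨ z = z2 ∨ z = z3 → z ∈ AF u v (F1 ++ (z0, k, a0) ::
        (z1, k - 1, a1) :: (z2, k - 2, a2) :: (z3, k - 3, a3) :: F2) :=
      fun z hz => Or.inr (Or.inr ((hmem z).2 (Or.inr hz)))
    refine ⟨ih.gu, ih.T0, ih.Tg, ?_, ?_, ?_, ?_, ?_, ?_, ?_, ?_⟩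
    · exact ⟨fun h1 => q0.1 ((hmem _).2 (Or.inl h1)), fun h1 => q0.2 ((hmem _).2 (Or.inl h1))⟩
    · rw [fn_append, List.nodup_append]
      exact ⟨d1, d4, fun a ha b hb => d3 a ha b (by simp [hb])⟩
    · exact fun x hx => ih.FT x ((hmem x).2 (Or.inl hx))
    · intro c hc
      apply ih.nz c
      rw [List.mem_append] at hc ⊢
      rcases hc with hc | hc
      · exact Or.inl hc
      · right
        exact List.mem_cons_of_mem _ (List.mem_cons_of_mem _ (List.mem_cons_of_mem _
          (List.mem_cons_of_mem _ hc)))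
    · intro t ht z hzt
      rcases List.mem_cons.1 ht with rfl | ht
      · exact hz z hzt
      · obtain ⟨h1, h2⟩ := ih.zT t ht z hzt
        refine ⟨h1, fun h3 => h2 ?_⟩
        rw [hAF] at h3
        exact h3.1
    · intro t ht
      rcases List.mem_cons.1 ht with rfl | ht
      · exact ⟨n1, n2, n3, n4, n5, n6⟩
      · exact ih.zne t ht
    · intro s hs
      cases hs with
      | cons b hs =>
        rename_i s
        have h1 := ih.out s hs
        have t0 : z0 ∉ {x | x ∉ T} := fun h => h (hz z0 (Or.inl rfl)).1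
        have t1 : z1 ∉ {x | x ∉ T} := fun h => h (hz z1 (Or.inr (Or.inl rfl))).1
        have t2 : z2 ∉ {x | x ∉ T} := fun h => h (hz z2 (Or.inr (Or.inr (Or.inl rfl)))).1
        have t3 : z3 ∉ {x | x ∉ T} := fun h => h (hz z3 (Or.inr (Or.inr (Or.inr rfl)))).1
        refine h1.trans ?_
        unfold Tl.op tl
        cases b
        · simp only [Bool.false_eq_true, if_false]
          have e1 := Eqv.jn_out h1.stable t1 t2 1 0
          exact e1.trans (Eqv.jn_out e1.stable t0 t3 (-1) 0)
        · simp only [if_true]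
          have e1 := Eqv.jn_out h1.stable t2 t3 1 0
          exact e1.trans (Eqv.jn_out e1.stable t0 t1 1 0)
    · intro s hs
      cases hs with
      | cons b hs =>
        rename_i s
        rw [hAF]
        exact tg_stable (ih.alv s hs) b 1 1 (-1) 1 0 0 0 0 (hza _ (Or.inl rfl))
          (hza _ (Or.inr (Or.inl rfl))) (hza _ (Or.inr (Or.inr (Or.inl rfl))))
          (hza _ (Or.inr (Or.inr (Or.inr rfl)))) n1 n2 n3 n4 n5 n6
  | rot F x k a h ha ih =>
    rename_i T l
    have hmem : ∀ y, y ∈ fn (F ++ [(x, k + 4, 1 - a⁻¹)]) ↔ y ∈ fn ((x, k, a) :: F) := by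
      intro y
      simp only [fn_append, fn_cons, fn_nil, List.mem_append, List.mem_cons, List.not_mem_nil,
        or_false]
      tauto
    have hAF : AF u v (F ++ [(x, k + 4, 1 - a⁻¹)]) = AF u v ((x, k, a) :: F) := by
      ext y
      unfold AF
      simp only [Set.mem_setOf_eq]
      rw [hmem]
    refine ⟨ih.gu, ih.T0, ih.Tg, ?_, ?_, ?_, ?_, ?_, ih.zne, ih.out, ?_⟩
    · rw [hmem, hmem]; exact ih.F0
    · have hnd := ih.nd
      rw [fn_cons, List.nodup_cons] at hnd
      rw [fn_append, List.nodup_append]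
      refine ⟨hnd.2, by simp, ?_⟩
      intro a ha b hb
      simp only [fn_cons, fn_nil, List.mem_cons, List.not_mem_nil, or_false] at hb
      subst hb
      rintro rfl
      exact hnd.1 ha
    · intro y hy
      exact ih.FT y ((hmem y).1 hy)
    · intro c hc
      rw [List.mem_append, List.mem_singleton] at hc
      rcases hc with hc | rfl
      · exact ih.nz c (List.mem_cons_of_mem _ hc)
      · have h1 : a ≠ 0 := ih.nz (x, k, a) List.mem_cons_self
        change 1 - a⁻¹ ≠ 0
        intro h2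
        apply ha
        have h3 : a⁻¹ = 1 := (sub_eq_zero.1 h2).symm
        rw [← inv_inv a, h3, inv_one]
    · rw [hAF]; exact ih.zT
    · rw [hAF]; exact ih.alv

end Pool.Agent.H11.W
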