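import Pool.Agent.H11.W.Frz1

/-!
# The line around a region with arbitrary weights, and the exchange theorem
-/

namespace Pool.Agent.H11.W

open Pool.Agent.H64.Q1 Pool.Agent.H64.Q1.LP Pool.Agent.H13.Q1

variable {D : Type*} [DecidableEq D]

/-- **The line around a region.** -/
theorem Bw.p0 {g : LP D} {u v : D} {T : Set D} {l : List (Tl D)} {F : List (Fe D)}
    (h : Bw g u v T l F) : ∀ κ : D → ℤ, (∀ c ∈ F, κ c.1 = c.2.1) →
    P0 2 u v (fa F) (SG g l κ) := by
  induction h with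
  | nil h =>
    intro κ _
    have huv : u ≠ v := by rw [← h]; exact g.ne2 u
    exact P0.nil huv (g := gau κ g) h (fun Φ _ => rfl)
  | edge F1 F2 x k a b h hx ha hab ih =>
    rename_i T l
    intro κ hκ
    have hI := h.inv
    have hI' := (Bw.edge F1 F2 x k a b h hx ha hab).inv
    have hκ1 : ∀ c ∈ F1 ++ F2, κ c.1 = c.2.1 := by
      intro c hc
      apply hκ
      rw [List.mem_append] at hc ⊢
      rcases hc with hc | hc
      · exact Or.inl hc
      · exact Or.inr (List.mem_cons_of_mem _ (List.mem_cons_of_mem _ hc))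
    have kx : κ x = k := hκ (x, k, a) (by simp)
    have kgx : κ (g x) = k + g.d x + 2 := hκ (g x, k + g.d x + 2, b) (by simp)
    have h0 := ih κ hκ1
    rw [fa_append] at h0
    have hfr : Frt u v (fa (F1 ++ (x, k, a) :: (g x, k + g.d x + 2, b) :: F2)) := by
      refine ⟨by rw [← hI.gu]; exact g.ne2 u, by rw [nm_fa]; exact hI'.nd, by
        rw [nm_fa]; exact hI'.F0.1, by rw [nm_fa]; exact hI'.F0.2, ?_⟩
      intro c hc
      obtain ⟨d, hd, rfl⟩ := List.mem_map.1 hc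
      exact hI'.nz d hd
    rw [fa_append, fa_cons, fa_cons] at hfr ⊢
    simp only at hfr ⊢
    have H : Fxy u v x (g x) (fa F1) (fa F2) := hfr.fxy.1
    have h1 := P0.cup h0 H ha hab 0
    refine h1.mod fun Φ _ => ?_
    rw [SG_apply, comp_pb, SG_apply]
    apply SF_congr
    intro s hs
    obtain ⟨s1, s2⟩ := (hI.out s hs).2 x hx
    have e2 : LP.jn x (g x) 0 (-2) (gau κ s) = gau κ s := by
      apply jn_of_eq
      · exact s1.symm
      · rw [gau_d, ← s1, ← s2, kx, kgx]; ring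
    rw [e2]
  | fill F1 F2 z0 z1 z2 z3 k a0 a1 a2 a3 w h h02 h13 hw ih =>
    rename_i T l
    intro κ' hκ'
    have hI := h.inv
    have hI' := (Bw.fill F1 F2 z0 z1 z2 z3 k a0 a1 a2 a3 w h h02 h13 hw).inv
    obtain ⟨n1, n2, n3, n4, n5, n6⟩ := hI'.zne _ List.mem_cons_self
    simp only at n1 n2 n3 n4 n5 n6
    set κ : D → ℤ := fun x => if x = z0 then k else if x = z1 then k - 1 else
      if x = z2 then k - 2 else if x = z3 then k - 3 else κ' x with hκdef
    have k0 : κ z0 = k := if_pos rfl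
    have k1 : κ z1 = k - 1 := by rw [hκdef]; simp [n1.symm]
    have k2 : κ z2 = k - 2 := by rw [hκdef]; simp [n2.symm, n4.symm]
    have k3 : κ z3 = k - 3 := by rw [hκdef]; simp [n3.symm, n5.symm, n6.symm]
    have kother : ∀ x, x ≠ z0 → x ≠ z1 → x ≠ z2 → x ≠ z3 → κ x = κ' x := by
      intro x a b c d
      rw [hκdef]; simp [a, b, c, d]
    have hz := hI'.zT _ List.mem_cons_self
    simp only at hz
    have hzF : ∀ z, z = z0 ∨ z = z1 ∨ z = z2 ∨ z = z3 → z ∉ fn (F1 ++ F2) := fun z hz' h1 =>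
      (hz z hz').2 (Or.inr (Or.inr h1))
    have hκ : ∀ c ∈ F1 ++ (z0, k, a0) :: (z1, k - 1, a1) :: (z2, k - 2, a2) ::
        (z3, k - 3, a3) :: F2, κ c.1 = c.2.1 := by
      intro c hc
      have hoth : c ∈ F1 ++ F2 → κ c.1 = c.2.1 := by
        intro hc
        have hm : c.1 ∈ fn (F1 ++ F2) := List.mem_map_of_mem hc
        rw [kother c.1 (fun e => hzF _ (Or.inl e) hm) (fun e => hzF _ (Or.inr (Or.inl e)) hm)
          (fun e => hzF _ (Or.inr (Or.inr (Or.inl e))) hm)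
          (fun e => hzF _ (Or.inr (Or.inr (Or.inr e))) hm)]
        exact hκ' c hc
      simp only [List.mem_append, List.mem_cons] at hc hoth
      rcases hc with hc | rfl | rfl | rfl | rfl | hc
      · exact hoth (Or.inl hc)
      · exact k0
      · exact k1
      · exact k2
      · exact k3
      · exact hoth (Or.inr hc)
    have h0 := ih κ hκ
    simp only [fa_append, fa_cons] at h0 ⊢
    have h1 := P0.tile h0 w (1 - w) hw
    have h2 : P0 2 u v ((fa F1 ++ [(z1, a1)]) ++ (z0, a0) :: (z2, a2) ::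
        ((z3, a3) :: fa F2))
        ((SG g l κ).comp (Rop 2 z0 z1 w (1 - w))) := by
      simpa using h1
    have h3 := P0.cap h2 h02 2
    have h4 : P0 2 u v (fa F1 ++ (z1, a1) :: (z3, a3) :: fa F2)
        (((SG g l κ).comp (Rop 2 z0 z1 w (1 - w))).comp (pb (LP.jn z0 z2 2 2))) := by
      simpa using h3
    have h5 := P0.cap h4 h13 0
    refine h5.mod fun Φ hΦ => ?_
    rw [SG_apply, SF_cons]
    have eR : (((((SG g l κ).comp (Rop 2 z0 z1 w (1 - w))).comp (pb (LP.jn z0 z2 2 2))).comp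
        (pb (LP.jn z1 z3 2 0))) Φ) = SF g l (fun s =>
          w * Φ (LP.jn z1 z3 2 0 (LP.jn z0 z2 2 2 (sw z0 z1 (gau κ s)))) +
          (1 - w) * Φ (LP.jn z1 z3 2 0 (LP.jn z0 z2 2 2 (LP.jn z0 z1 2 2 (gau κ s))))) := rfl
    rw [eR]
    apply SF_congr
    intro s hs
    have hA := hI.alv s hs
    set A := AF u v (F1 ++ (z0, k, a0) :: (z1, k - 1, a1) :: (z2, k - 2, a2) ::
        (z3, k - 3, a3) :: F2) with hAdef
    have hmA : ∀ z, z = z0 ∨ z = z1 ∨ z = z2 ∨ z = z3 → z ∈ A := by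
      intro z hz'
      refine Or.inr (Or.inr ?_)
      simp only [fn_append, fn_cons, List.mem_append, List.mem_cons]
      tauto
    have m0 := hmA z0 (Or.inl rfl)
    have m1 := hmA z1 (Or.inr (Or.inl rfl))
    have m2 := hmA z2 (Or.inr (Or.inr (Or.inl rfl)))
    have m3 := hmA z3 (Or.inr (Or.inr (Or.inr rfl)))
    have hset : Alv u v (fa F1 ++ fa F2) = dz A z0 z1 z2 z3 := by
      rw [← fa_append, alv_fa]
      ext y
      constructor
      · intro hy
        refine ⟨?_, fun e => (hz y (Or.inl e)).2 hy, fun e => (hz y (Or.inr (Or.inl e))).2 hy,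
          fun e => (hz y (Or.inr (Or.inr (Or.inl e)))).2 hy,
          fun e => (hz y (Or.inr (Or.inr (Or.inr e)))).2 hy⟩
        rcases hy with h1 | h1 | h1
        · exact Or.inl h1
        · exact Or.inr (Or.inl h1)
        · refine Or.inr (Or.inr ?_)
          simp only [fn_append, fn_cons, List.mem_append, List.mem_cons] at h1 ⊢
          tauto
      · rintro ⟨h1 | h1 | h1, y0, y1, y2, y3⟩
        · exact Or.inl h1
        · exact Or.inr (Or.inl h1)
        · refine Or.inr (Or.inr ?_)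
          simp only [fn_append, fn_cons, List.mem_append, List.mem_cons] at h1 ⊢
          tauto
    have hA' : Stable A (gau κ s) := fun x hx => hA x hx
    -- the gauges κ and κ' agree on the new front
    have hgau : ∀ r : LP D, Stable (dz A z0 z1 z2 z3) r →
        Eqv (dz A z0 z1 z2 z3) (gau κ' r) (gau κ r) := by
      intro r hr
      refine ⟨fun x hx => hr x hx, fun x hx => ⟨rfl, ?_⟩⟩
      have hx' := hr x hx
      rw [gau_d, gau_d, kother x hx.2.1 hx.2.2.1 hx.2.2.2.1 hx.2.2.2.2,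
        kother (r x) hx'.2.1 hx'.2.2.1 hx'.2.2.2.1 hx'.2.2.2.2]
    have hstab : ∀ b, Stable (dz A z0 z1 z2 z3) (tl b z0 z1 z2 z3 s) := fun b =>
      tg_stable hA b 1 1 (-1) 1 0 0 0 0 m0 m1 m2 m3 n1 n2 n3 n4 n5 n6
    have o1 : z1 ∉ dz A z0 z1 z2 z3 := fun h => h.2.2.1 rfl
    have o2 : z2 ∉ dz A z0 z1 z2 z3 := fun h => h.2.2.2.1 rfl
    have o0 : z0 ∉ dz A z0 z1 z2 z3 := fun h => h.2.1 rfl
    have step1 : ∀ b, Eqv (dz A z0 z1 z2 z3) (gau κ' (tl b z0 z1 z2 z3 s))
        (tg b 2 2 2 2 0 0 0 0 z0 z1 z2 z3 (gau κ s)) := by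
      intro b
      refine (hgau _ (hstab b)).trans ?_
      rw [gau_tl, k0, k1, k2, k3]
      have t1 : (1 : ℤ) + k - (k - 1) = 2 := by ring
      have t2 : (1 : ℤ) + (k - 2) - (k - 3) = 2 := by ring
      have t3 : (-1 : ℤ) + k - (k - 3) = 2 := by ring
      have t4 : (1 : ℤ) + (k - 1) - (k - 2) = 2 := by ring
      rw [t1, t2, t3, t4]
      exact tg_dummy hA' b 2 2 2 2 _ _ _ _ _ _ _ _ m0 m1 m2 m3 n1 n2 n3 n4 n5 n6
    rw [hset] at hΦ
    have hf : Φ (gau κ' (tl false z0 z1 z2 z3 s)) =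
        Φ (LP.jn z1 z3 2 0 (LP.jn z0 z2 2 2 (sw z0 z1 (gau κ s)))) := by
      apply hΦ
      refine (step1 false).trans ?_
      have e1 : LP.jn z1 z3 2 0 (LP.jn z0 z2 2 2 (sw z0 z1 (gau κ s))) =
          sw z0 z1 (tg false 2 2 2 2 0 0 0 2 z0 z1 z2 z3 (gau κ s)) := by
        unfold tg
        simp only [Bool.false_eq_true, if_false]
        rw [sw_jn, sw_jn, Equiv.swap_apply_left, Equiv.swap_apply_right,
          Equiv.swap_apply_of_ne_of_ne n2.symm n4.symm,
          Equiv.swap_apply_of_ne_of_ne n3.symm n5.symm]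
      rw [e1]
      refine (tg_dummy hA' false 2 2 2 2 0 0 0 0 0 0 0 2 m0 m1 m2 m3 n1 n2 n3 n4 n5 n6).trans ?_
      exact Eqv.sw_out (tg_stable hA' false 2 2 2 2 0 0 0 2 m0 m1 m2 m3 n1 n2 n3 n4 n5 n6) o0 o1
    have ht : Φ (gau κ' (tl true z0 z1 z2 z3 s)) =
        Φ (LP.jn z1 z3 2 0 (LP.jn z0 z2 2 2 (LP.jn z0 z1 2 2 (gau κ s)))) := by
      apply hΦ
      refine (step1 true).trans ?_
      have e1 : LP.jn z1 z3 2 0 (LP.jn z0 z2 2 2 (LP.jn z0 z1 2 2 (gau κ s))) =
          sw z1 z2 (tg true 2 2 2 2 2 0 0 0 z0 z1 z2 z3 (gau κ s)) := by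
        rw [jn_share (jn_left z0 z1 2 2 _ n1) (jn_d_left z0 z1 2 2 _ n1) n2]
        unfold tg
        simp only [if_true]
        rw [jn_jn z0 z1 z2 z3 _ _ _ _ _ n1 n2 n3 n4 n5 n6, sw_jn z1 z2 z2 z3,
          Equiv.swap_apply_right, Equiv.swap_apply_of_ne_of_ne n5.symm n6.symm]
      rw [e1]
      refine (tg_dummy hA' true 2 2 2 2 0 0 0 0 2 0 0 0 m0 m1 m2 m3 n1 n2 n3 n4 n5 n6).trans ?_
      exact Eqv.sw_out (tg_stable hA' true 2 2 2 2 2 0 0 0 m0 m1 m2 m3 n1 n2 n3 n4 n5 n6) o1 o2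
    change w * Φ (gau κ' (tl false z0 z1 z2 z3 s)) + (1 - w) *
      Φ (gau κ' (tl true z0 z1 z2 z3 s)) = _
    rw [hf, ht]
  | rot F x k a h ha ih =>
    rename_i T l
    intro κ' hκ'
    have hI := h.inv
    have hx : x ∉ fn F := by
      have := hI.nd
      rw [fn_cons, List.nodup_cons] at this
      exact this.1
    have kx' : κ' x = k + 4 := hκ' (x, k + 4, 1 - a⁻¹) (by simp)
    set κ : D → ℤ := fun y => if y = x then k else κ' y with hκdef
    have hκ : ∀ c ∈ (x, k, a) :: F, κ c.1 = c.2.1 := by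
      intro c hc
      rcases List.mem_cons.1 hc with rfl | hc
      · exact if_pos rfl
      · have : c.1 ≠ x := fun e => hx (e ▸ List.mem_map_of_mem hc)
        rw [hκdef]
        simp only [if_neg this]
        exact hκ' c (List.mem_append_left _ hc)
    have h0 := ih κ hκ
    rw [fa_cons] at h0
    have h1 := P0.rot h0 ha
    have e : fa (F ++ [(x, k + 4, 1 - a⁻¹)]) = fa F ++ [(x, 1 - a⁻¹)] := by
      rw [fa_append]; rfl
    rw [e]
    refine h1.mod fun Φ _ => ?_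
    rw [SG_apply, comp_pb, SG_apply]
    apply SF_congr
    intro s _
    congr 1
    apply LP.ext
    · intro t; rfl
    · intro t
      rw [gau_d, gau_d, gau_d, gau_apply]
      have e1 : ∀ y, κ' y = κ y + g1 x (2 * 2) y := by
        intro y
        unfold g1
        rw [hκdef]
        simp only
        by_cases hy : y = x
        · rw [if_pos hy, if_pos hy, hy, kx']; ring
        · rw [if_neg hy, if_neg hy]; ring
      rw [e1, e1]; ring

/-- **The exchange theorem, arbitrary weights.** The line made of the real tiles `L1` crosses the part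
`F1` of the front of the region `l`, or the line made of the real tiles `L2` crosses the part `F2`. -/
theorem Bw.exchange {g : LP D} {u v : D} {T : Set D} {l : List (Tl D)} {F1 F2 : List (Fe D)}
    (h : Bw g u v T l (F1 ++ F2)) {κ κ2 : D → ℤ} (hκ : ∀ c ∈ F1 ++ F2, κ c.1 = c.2.1)
    (hκ2 : κ2 v = κ v + 4) (hκ2' : ∀ z, z ≠ v → κ2 z = κ z) {L1 L2 : List (Lt D)}
    (h1 : L1.map (fun t => (t.c, t.p)) = F1.map fun c => (c.1, c.2.2))
    (h2 : L2.map (fun t => (t.c, t.p)) = F2.map fun c => (c.1, 1 - (c.2.2)⁻¹))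
    (hF1 : Fresh g T κ L1) (hF2 : Fresh g T κ L2) (hd : ∀ x, Le L1 x → ¬ Le L2 x)
    {Ψ : LP D → ℂ}
    (hΨ : Dep {x | (x ∈ AF u v (F1 ++ F2) ∨ x ∉ T) ∧ ¬ Le L1 x ∧ ¬ Le L2 x} Ψ) :
    SF (Jn κ κ u v u 2 L1 g) ((L1.map Lt.tl).reverse ++ l) Ψ =
      SF (Jn κ κ2 u v v (-2) L2 g) ((L2.map Lt.tl).reverse ++ l) Ψ := by
  have hI := h.inv
  have hc1 : ∀ t ∈ L1, t.c ∈ fn (F1 ++ F2) := by
    intro t ht
    have := List.mem_map_of_mem (f := fun t : Lt D => (t.c, t.p)) ht
    rw [h1] at this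
    obtain ⟨c, hc, hc'⟩ := List.mem_map.1 this
    have e : c.1 = t.c := congrArg Prod.fst hc'
    rw [← e, fn_append]
    exact List.mem_append_left _ (List.mem_map_of_mem hc)
  have hc2 : ∀ t ∈ L2, t.c ∈ fn (F1 ++ F2) := by
    intro t ht
    have := List.mem_map_of_mem (f := fun t : Lt D => (t.c, t.p)) ht
    rw [h2] at this
    obtain ⟨c, hc, hc'⟩ := List.mem_map.1 this
    have e : c.1 = t.c := congrArg Prod.fst hc'
    rw [← e, fn_append]
    exact List.mem_append_right _ (List.mem_map_of_mem hc)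
  have hΨ' : Dep {x | (x ∈ AF u v (F1 ++ F2) ∨ x ∉ T) ∧ ¬ Le L2 x ∧ ¬ Le L1 x} Ψ := by
    refine hΨ.congr ?_
    ext x
    simp only [Set.mem_setOf_eq]
    tauto
  have sd := hI.inv
  rw [side sd (κ0 := κ) (κ := κ) (fun _ _ => rfl) (Or.inl rfl) (c := 2)
      (by rw [fn_dm]; exact hc1) hF1 hF2 hd (by rw [AF_dm]; exact hΨ),
    side sd (κ0 := κ) (κ := κ2) hκ2' (Or.inr rfl) (c := -2)
      (by rw [fn_dm]; exact hc2) hF2 hF1
      (fun x hx hx' => hd x hx' hx) (by rw [AF_dm]; exact hΨ')]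
  set Φ : LP D → ℂ := fun h => Ψ (gau (fun x => -κ x) h) with hΦ
  have e1 : (pb (LP.jn u v 2 2) * LF u L1 : Module.End ℂ (LP D → ℂ)) = opA 2 u v (fa F1) := by
    unfold opA Pool.Agent.H13.Q1.Lu LF
    congr 2
    have : (fun t : Lt D => (Rop 2 u t.c t.p (1 - t.p) : Module.End ℂ (LP D → ℂ))) =
        (fun c : D × ℂ => Rop 2 u c.1 c.2 (1 - c.2)) ∘ (fun t : Lt D => (t.c, t.p)) := rfl
    rw [this, ← List.map_map, h1]
    rfl
  have e2 : (pb (LP.jn u v 2 (-2)) * LF v L2 : Module.End ℂ (LP D → ℂ)) =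
      pb (LP.jn u v 2 (-2)) * Lv 2 v (fa F2) := by
    unfold Pool.Agent.H13.Q1.Lv LF
    congr 2
    have : (fun t : Lt D => (Rop 2 v t.c t.p (1 - t.p) : Module.End ℂ (LP D → ℂ))) =
        (fun c : D × ℂ => Rop 2 v c.1 c.2 (1 - c.2)) ∘ (fun t : Lt D => (t.c, t.p)) := rfl
    rw [this, ← List.map_map, h2, List.map_map]
    unfold fa
    rw [List.map_map]
    apply List.map_congr_left
    intro c _
    simp only [Function.comp_apply, sub_sub_cancel]
  have e3 : (fun h => Ψ (gau (fun x => -κ2 x) h)) =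
      (pb (gau (g1 v (-(2 * 2)))) : Module.End ℂ (LP D → ℂ)) Φ := by
    funext r
    change Ψ _ = Ψ _
    congr 1
    apply LP.ext
    · intro x; rfl
    · intro x
      rw [gau_d, gau_d, gau_d, gau_apply]
      have q : ∀ y, κ2 y = κ y - g1 v (-(2 * 2)) y := by
        intro y
        unfold g1
        by_cases hy : y = v
        · rw [if_pos hy, hy, hκ2]; ring
        · rw [if_neg hy, hκ2' y hy]; ring
      rw [q, q]; ring
  rw [e1, e2, e3]
  -- the general formal exchange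
  have hp0 := h.p0 κ hκ
  rw [fa_append] at hp0
  have hAlv : Alv u v (fa F1 ++ fa F2) = AF u v (F1 ++ F2) := by rw [← fa_append, alv_fa]
  have AFT : ∀ x ∈ AF u v (F1 ++ F2), x ∈ T := by
    rintro x (rfl | rfl | h)
    · exact hI.T0.1
    · exact hI.T0.2
    · exact hI.FT x h
  have LT1 : ∀ x, Le L1 x → x ∉ T := fun x ⟨t, ht, hx⟩ => hF1.eT t ht x hx
  have LT2 : ∀ x, Le L2 x → x ∉ T := fun x ⟨t, ht, hx⟩ => hF2.eT t ht x hx
  set C : Set D := {x | x ∉ T ∧ ¬ Le L1 x ∧ ¬ Le L2 x} with hC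
  set G : LP D := gau κ (st0 g l) with hG
  have hst := st0_St g l
  have gC : Stable C g := by
    rintro x ⟨x1, x2, x3⟩
    refine ⟨fun h2 => x1 ?_, fun h2 => x2 (hF1.le_g h2), fun h2 => x3 (hF2.le_g h2)⟩
    have := hI.Tg _ h2
    rwa [g.invol] at this
  have CT : ∀ x ∈ C, x ∉ T := fun x hx => hx.1
  have eqC : ∀ s, St g l s → Eqv C (gau κ g) (gau κ s) := by
    intro s hs
    exact (((hI.out s hs).mono CT gC)).gau κ
  have key := P0.ext hp0 (C := C) (G := G) (by rw [hAlv]; exact fun x hx => hI.alv _ hst x hx)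
    (eqC _ hst).stable (by rw [hAlv]; exact fun x hx hx' => hx'.1 (AFT x hx)) (by
      intro Φ1 Φ2 hΦ12
      rw [SG_apply, SG_apply]
      apply SF_congr
      intro s hs
      apply hΦ12
      rw [hAlv]
      exact ⟨hI.alv s hs, (eqC _ hst).symm.trans (eqC s hs)⟩) (Φ := Φ) (by
      have : {x | x ∈ Alv u v (fa F1 ++ fa F2) ∨ x ∈ C} =
          {x | (x ∈ AF u v (F1 ++ F2) ∨ x ∉ T) ∧ ¬ Le L1 x ∧ ¬ Le L2 x} := by
        ext x
        rw [hAlv, hC]
        simp only [Set.mem_setOf_eq]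
        constructor
        · rintro (h3 | ⟨h3, h4, h5⟩)
          · exact ⟨Or.inl h3, fun h4 => LT1 x h4 (AFT x h3), fun h4 => LT2 x h4 (AFT x h3)⟩
          · exact ⟨Or.inr h3, h4, h5⟩
        · rintro ⟨h3 | h3, h4, h5⟩
          · exact Or.inl h3
          · exact Or.inr ⟨h3, h4, h5⟩
      rw [this]
      exact hΨ.gau _)
  rw [key]
  rfl

end Pool.Agent.H11.W
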