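import Pool.Agent.H11.W.Frz2

/-!
# The frozen line

`Fz ζ`: `ζ (1 - ζ) = 1`, the frozen weights `ζ = exp (± i π / 3)` (`Fz.pos`, `Fz.neg`). A frozen line crosses
every end with the weight `ζ` and passes through tiles of any weight: `Bz ζ g u v T l F` is the growth of a
region of arbitrary tiles, `Bz.exchange` the exchange theorem. `Bt.bw`: the natural line. `Fz.yb1`,
`Fz.yb2`: a line of any weights and the crossing of a frozen line with a line of any weights, for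
regions which contain natural tiles and frozen lines.
-/

namespace Pool.Agent.H11.W

open Pool.Agent.H64.Q1 Pool.Agent.H64.Q1.LP Pool.Agent.H13.Q1

variable {D : Type*} [DecidableEq D]

/-! ### Frozen weights -/

/-- a frozen weight -/
def Fz (ζ : ℂ) : Prop := ζ * (1 - ζ) = 1

theorem Fz.one_sub {ζ : ℂ} (h : Fz ζ) : Fz (1 - ζ) := by
  unfold Fz at h ⊢
  linear_combination h

theorem Fz.ne_zero {ζ : ℂ} (h : Fz ζ) : ζ ≠ 0 := by
  rintro rfl
  unfold Fz at h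
  rw [zero_mul] at h
  exact zero_ne_one h

theorem Fz.ne_one {ζ : ℂ} (h : Fz ζ) : ζ ≠ 1 := by
  rintro rfl
  unfold Fz at h
  rw [sub_self, mul_zero] at h
  exact zero_ne_one h

theorem Fz.inv {ζ : ℂ} (h : Fz ζ) : ζ⁻¹ = 1 - ζ := inv_eq_of_mul_eq_one_right h

theorem Fz.rot {ζ : ℂ} (h : Fz ζ) : 1 - ζ⁻¹ = ζ := by
  rw [h.inv]; ring

theorem Fz.sq {ζ : ℂ} (h : Fz ζ) : ζ ^ 2 = ζ - 1 := by
  unfold Fz at h
  linear_combination -h

/-- the frozen line passes through every tile -/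
theorem Fz.yb {ζ : ℂ} (h : Fz ζ) (p : ℂ) : YB ζ ζ p := by
  unfold YB
  unfold Fz at h
  linear_combination (1 - p) * h

/-- a line of any weight, a frozen line, and their crossing (frozen line on the right) -/
theorem Fz.yb1 {ζ : ℂ} (h : Fz ζ) (a : ℂ) : YB a ζ ζ := by
  unfold YB
  unfold Fz at h
  linear_combination (1 - a) * h

/-- a frozen line, a line of any weight, and their crossing (frozen line on the left) -/
theorem Fz.yb2 {ζ : ℂ} (h : Fz ζ) (b : ℂ) : YB ζ b (1 - ζ) := by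
  unfold YB
  unfold Fz at h
  linear_combination b * h

/-- the frozen weight `exp (i π / 3)` -/
theorem Fz.pos : Fz (Complex.exp (Complex.I * (Real.pi / 3))) := by
  have h3 : ((Real.sqrt 3 : ℝ) : ℂ) ^ 2 = 3 := by
    rw [← Complex.ofReal_pow, Real.sq_sqrt (by norm_num)]
    norm_num
  have e : Complex.exp (Complex.I * (Real.pi / 3)) = 1 / 2 + ((Real.sqrt 3 : ℝ) : ℂ) / 2 * Complex.I := by
    rw [mul_comm, Complex.exp_mul_I]
    have e1 : ((Real.pi : ℂ) / 3) = ((Real.pi / 3 : ℝ) : ℂ) := by push_cast; ring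
    rw [e1, ← Complex.ofReal_cos, ← Complex.ofReal_sin, Real.cos_pi_div_three,
      Real.sin_pi_div_three]
    push_cast; ring
  unfold Fz
  rw [e]
  have hI := Complex.I_sq
  linear_combination (-1 / 4 * ((Real.sqrt 3 : ℝ) : ℂ) ^ 2) * hI + 1 / 4 * h3

/-- the frozen weight `exp (- i π / 3)` -/
theorem Fz.neg : Fz (Complex.exp (-(Complex.I * (Real.pi / 3)))) := by
  rw [Complex.exp_neg, Fz.pos.inv]
  exact Fz.pos.one_sub

/-! ### The growth of a region for a frozen line -/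

/-- the front of a frozen line -/
def fz (ζ : ℂ) (F : List (D × ℤ)) : List (Fe D) := F.map fun c => (c.1, c.2, ζ)

omit [DecidableEq D] in
theorem fz_append (ζ : ℂ) (F G : List (D × ℤ)) : fz ζ (F ++ G) = fz ζ F ++ fz ζ G :=
  List.map_append ..

omit [DecidableEq D] in
theorem fz_cons (ζ : ℂ) (c : D × ℤ) (F : List (D × ℤ)) : fz ζ (c :: F) = (c.1, c.2, ζ) :: fz ζ F :=
  rfl

omit [DecidableEq D] in
theorem fz_nil (ζ : ℂ) : fz ζ ([] : List (D × ℤ)) = [] := rfl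

omit [DecidableEq D] in
theorem fn_fz (ζ : ℂ) (F : List (D × ℤ)) : fn (fz ζ F) = F.map Prod.fst := by
  unfold fn fz
  rw [List.map_map]; rfl

/-- **Growth of a region of arbitrary tiles for a frozen line.** The front is the list of the free ends
with their directions. -/
def Bz (ζ : ℂ) (g : LP D) (u v : D) (T : Set D) (l : List (Tl D)) (F : List (D × ℤ)) : Prop :=
  Bw g u v T l (fz ζ F)

theorem Bz.nil {ζ : ℂ} {g : LP D} {u v : D} (h : g u = v) :
    Bz ζ g u v {x | x = u ∨ x = v} [] [] := Bw.nil h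

/-- a new arc at the front -/
theorem Bz.edge {ζ : ℂ} (hζ : Fz ζ) {g : LP D} {u v : D} {T : Set D} {l : List (Tl D)}
    (F1 F2 : List (D × ℤ)) (x : D) (k : ℤ) (h : Bz ζ g u v T l (F1 ++ F2)) (hx : x ∉ T) :
    Bz ζ g u v {y | y ∈ T ∨ y = x ∨ y = g x} l (F1 ++ (x, k) :: (g x, k + g.d x + 2) :: F2) := by
  unfold Bz at h ⊢
  rw [fz_append] at h
  rw [fz_append, fz_cons, fz_cons]
  exact Bw.edge (fz ζ F1) (fz ζ F2) x k ζ ζ h hx hζ.ne_zero hζ

/-- a new tile, of any weight -/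
theorem Bz.fill {ζ : ℂ} (hζ : Fz ζ) {g : LP D} {u v : D} {T : Set D} {l : List (Tl D)}
    (F1 F2 : List (D × ℤ)) (z0 z1 z2 z3 : D) (k : ℤ) (w : ℂ)
    (h : Bz ζ g u v T l (F1 ++ (z0, k) :: (z1, k - 1) :: (z2, k - 2) :: (z3, k - 3) :: F2)) :
    Bz ζ g u v T (⟨z0, z1, z2, z3, w⟩ :: l) (F1 ++ F2) := by
  unfold Bz at h ⊢
  rw [fz_append, fz_cons, fz_cons, fz_cons, fz_cons] at h
  rw [fz_append]
  exact Bw.fill (fz ζ F1) (fz ζ F2) z0 z1 z2 z3 k ζ ζ ζ ζ w h hζ hζ (hζ.yb w)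

/-- the first end of the front becomes its last end -/
theorem Bz.rot {ζ : ℂ} (hζ : Fz ζ) {g : LP D} {u v : D} {T : Set D} {l : List (Tl D)}
    (F : List (D × ℤ)) (x : D) (k : ℤ) (h : Bz ζ g u v T l ((x, k) :: F)) :
    Bz ζ g u v T l (F ++ [(x, k + 4)]) := by
  unfold Bz at h ⊢
  rw [fz_cons] at h
  have h1 := Bw.rot (fz ζ F) x k ζ h hζ.ne_one
  rw [hζ.rot] at h1
  rw [fz_append, fz_cons, fz_nil]
  exact h1

/-- **The frozen exchange.** The frozen line made of the real tiles `L1` crosses the part `F1` of the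
front of the region `l` of arbitrary tiles, or the frozen line made of the real tiles `L2` crosses the part
`F2`. -/
theorem Bz.exchange {ζ : ℂ} (hζ : Fz ζ) {g : LP D} {u v : D} {T : Set D} {l : List (Tl D)}
    {F1 F2 : List (D × ℤ)} (h : Bz ζ g u v T l (F1 ++ F2)) {κ κ2 : D → ℤ}
    (hκ : ∀ c ∈ F1 ++ F2, κ c.1 = c.2) (hκ2 : κ2 v = κ v + 4) (hκ2' : ∀ z, z ≠ v → κ2 z = κ z)
    {L1 L2 : List (Lt D)} (h1 : L1.map (fun t => (t.c, t.p)) = F1.map fun c => (c.1, ζ))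
    (h2 : L2.map (fun t => (t.c, t.p)) = F2.map fun c => (c.1, ζ))
    (hF1 : Fresh g T κ L1) (hF2 : Fresh g T κ L2) (hd : ∀ x, Le L1 x → ¬ Le L2 x) {Ψ : LP D → ℂ}
    (hΨ : Dep {x | (x ∈ AF u v (fz ζ (F1 ++ F2)) ∨ x ∉ T) ∧ ¬ Le L1 x ∧ ¬ Le L2 x} Ψ) :
    SF (Jn κ κ u v u 2 L1 g) ((L1.map Lt.tl).reverse ++ l) Ψ =
      SF (Jn κ κ2 u v v (-2) L2 g) ((L2.map Lt.tl).reverse ++ l) Ψ := by
  unfold Bz at h
  rw [fz_append] at h hΨ
  refine Bw.exchange h ?_ hκ2 hκ2' ?_ ?_ hF1 hF2 hd hΨ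
  · intro c hc
    rw [← fz_append] at hc
    obtain ⟨d, hd, rfl⟩ := List.mem_map.1 hc
    exact hκ d hd
  · rw [h1]
    unfold fz
    rw [List.map_map]; rfl
  · rw [h2]
    unfold fz
    rw [List.map_map]
    apply List.map_congr_left
    intro c _
    simp only [Function.comp_apply, hζ.rot]

/-! ### The natural line -/

/-- the front of the natural line -/
noncomputable def fwa (F : List (Fe D)) : List (Fe D) := F.map fun c => (c.1, c.2.1, wa c.2.2)

omit [DecidableEq D] in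
theorem fwa_append (F G : List (Fe D)) : fwa (F ++ G) = fwa F ++ fwa G := List.map_append ..

omit [DecidableEq D] in
theorem fwa_cons (c : Fe D) (F : List (Fe D)) : fwa (c :: F) = (c.1, c.2.1, wa c.2.2) :: fwa F := rfl

theorem yb_wa {θ0 θ1 : ℂ} (h0 : Complex.sin θ0 ≠ 0) (h1 : Complex.sin θ1 ≠ 0)
    (hw : Complex.sin ((θ1 - θ0 + Real.pi + Real.pi) / 3) ≠ 0) :
    YB (wa θ0) (wa θ1) (wa (θ1 - θ0 + Real.pi)) := by
  obtain ⟨-, a2, -⟩ := gen_ne h0
  obtain ⟨-, b2, -⟩ := gen_ne h1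
  have e : θ0 + (θ1 - θ0 + Real.pi) - Real.pi = θ1 := by ring
  have e' : θ0 + (θ1 - θ0 + Real.pi) - Real.pi + Real.pi = θ1 + Real.pi := by ring
  have h := wa_ybe θ0 (θ1 - θ0 + Real.pi) a2 (by rw [e']; exact b2) hw
  rw [e] at h
  exact h

theorem Bt.bw {g : LP D} {u v : D} {T : Set D} {l : List (Tl D)} {F : List (Fe D)}
    (h : Bt g u v T l F) : Bw g u v T l (fwa F) := by
  induction h with
  | nil h => exact Bw.nil h
  | edge F1 F2 x k θ h hx hθ ih =>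
    rw [fwa_append] at ih
    rw [fwa_append, fwa_cons, fwa_cons]
    obtain ⟨g1, g2, g3⟩ := gen_ne hθ
    obtain ⟨g4, g5, g6⟩ := gen_ne (gen_add hθ)
    refine Bw.edge (fwa F1) (fwa F2) x k (wa θ) (wa (θ + Real.pi)) ih hx (wa_ne hθ) ?_
    have e1 : θ = θ + Real.pi - Real.pi := by ring
    have h1 := wa_unit (θ + Real.pi) g5 (by rw [← e1]; exact g2)
    rw [← e1] at h1
    exact h1
  | fill F1 F2 z0 z1 z2 z3 k θ0 θ1 h hw ih =>
    have gen := h.inv.gen
    have gθ0 : Complex.sin θ0 ≠ 0 := gen (z0, k, θ0) (by simp)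
    have gθ1 : Complex.sin θ1 ≠ 0 := gen (z1, k - 1, θ1) (by simp)
    obtain ⟨a1, a2, a3⟩ := gen_ne gθ0
    obtain ⟨b1, b2, b3⟩ := gen_ne gθ1
    have c0 : θ0 - (Real.pi : ℂ) + Real.pi = θ0 := by ring
    have c1 : θ1 - (Real.pi : ℂ) + Real.pi = θ1 := by ring
    rw [fwa_append, fwa_cons, fwa_cons, fwa_cons, fwa_cons] at ih
    rw [fwa_append]
    exact Bw.fill (fwa F1) (fwa F2) z0 z1 z2 z3 k _ _ _ _ _ ih
      (wa_unit θ0 a2 (by rw [c0]; exact a1)) (wa_unit θ1 b2 (by rw [c1]; exact b1))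
      (yb_wa gθ0 gθ1 hw)
  | rot F x k θ h ih =>
    have gθ : Complex.sin θ ≠ 0 := h.inv.gen (x, k, θ) (by simp)
    rw [fwa_cons] at ih
    have h1 := Bw.rot (fwa F) x k (wa θ) ih (wa_ne_one gθ)
    rw [← wa_turn gθ] at h1
    rw [fwa_append]
    exact h1

end Pool.Agent.H11.W
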