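import Pool.Agent.H11.W.Frz3

/-!
# Growth of a block of tiles through a corner of the front

The names of the tile `(i, j)` are `z0 i j, z1 i j, z2 i j, z3 i j` (clockwise, `W N E S` in the standard
position); `z0 (i + 1) j` is wired to `z2 i j` and `z3 i (j + 1)` to `z1 i j`. If the front contains the ends
`z1` of the last row (`i = 0, ...`) and then the ends `z2` of the last column (`j` decreasing), then the
whole block can be grown (`Bw.rect`, `Bz.rect`); in the new front they are replaced by the partners of the ends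
`z0` of the first column (`j` decreasing) and of the ends `z3` of the first row (`i` increasing). All the
outer wires are arbitrary. By renaming, the same theorem serves for the four corners.
-/

namespace Pool.Agent.H11.W

open Pool.Agent.H64.Q1 Pool.Agent.H64.Q1.LP Pool.Agent.H13.Q1

variable {D : Type*} [DecidableEq D]

omit [DecidableEq D] in
theorem Bw.congr {g : LP D} {u v : D} {T T' : Set D} {l l' : List (Tl D)} {F F' : List (Fe D)}
    (h : Bw g u v T l F) (hT : ∀ y, y ∈ T' ↔ y ∈ T) (hl : l' = l) (hF : F' = F) :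
    Bw g u v T' l' F' := by
  have e : T' = T := Set.ext hT
  rw [e, hl, hF]
  exact h

/-- **One tile through a corner.** -/
theorem Bw.corner {g : LP D} {u v : D} {T : Set D} {l : List (Tl D)} {F1 F2 : List (Fe D)}
    {z0 z1 z2 z3 : D} {k : ℤ} {a1 a2 w : ℂ}
    (h : Bw g u v T l (F1 ++ (z1, k - 1, a1) :: (z2, k - 2, a2) :: F2))
    (h0 : z0 ∉ T) (h3 : z3 ∉ T) (h03 : z0 ≠ z3) (h03' : g z0 ≠ z3)
    (ha1 : a1 ≠ 1) (ha2 : a2 ≠ 1) (hw : YB (1 - a2)⁻¹ a1 w) :
    Bw g u v {y | y ∈ T ∨ y = z0 ∨ y = g z0 ∨ y = z3 ∨ y = g z3} (⟨z0, z1, z2, z3, w⟩ :: l)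
      (F1 ++ (g z0, k - 2 + g.d z0, a2) :: (g z3, k - 1 + g.d z3, a1) :: F2) := by
  have hI := h.inv
  have n1 : a1 ≠ 0 := hI.nz (z1, k - 1, a1) (by simp)
  have n2 : a2 ≠ 0 := hI.nz (z2, k - 2, a2) (by simp)
  have m2 : (1 - a2) ≠ 0 := sub_ne_zero.2 ha2.symm
  have hg0 : g z0 ∉ T := fun h1 => h0 (by have := hI.Tg _ h1; rwa [g.invol] at this)
  -- the wire of z0
  have e1 := Bw.edge F1 ((z1, k - 1, a1) :: (z2, k - 2, a2) :: F2) (g z0) (k - 2 + g.d z0) a2
    (1 - a2)⁻¹ h hg0 n2 (inv_mul_cancel₀ m2)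
  rw [g.invol, g.anti] at e1
  have k0 : k - 2 + g.d z0 + -g.d z0 + 2 = k := by ring
  rw [k0] at e1
  -- the wire of z3
  have n3 : 1 - a1⁻¹ ≠ 0 := by
    intro h2
    apply ha1
    have h3 : a1⁻¹ = 1 := (sub_eq_zero.1 h2).symm
    rw [← inv_inv a1, h3, inv_one]
  have e2 := Bw.edge (T := {y | y ∈ T ∨ y = g z0 ∨ y = z0})
    (F1 ++ [(g z0, k - 2 + g.d z0, a2), (z0, k, (1 - a2)⁻¹), (z1, k - 1, a1), (z2, k - 2, a2)]) F2
    z3 (k - 3) (1 - a1⁻¹) a1 (l := l) (by simpa using e1) (by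
      rintro (h4 | h4 | h4)
      · exact h3 h4
      · exact h03' h4.symm
      · exact h03 h4.symm) n3 (by rw [sub_sub_cancel, mul_inv_cancel₀ n1])
  have k3 : k - 3 + g.d z3 + 2 = k - 1 + g.d z3 := by ring
  rw [k3] at e2
  have e3 := Bw.fill (F1 ++ [(g z0, k - 2 + g.d z0, a2)]) ((g z3, k - 1 + g.d z3, a1) :: F2)
    z0 z1 z2 z3 k (1 - a2)⁻¹ a1 a2 (1 - a1⁻¹) w
    (T := {y | y ∈ {y | y ∈ T ∨ y = g z0 ∨ y = z0} ∨ y = z3 ∨ y = g z3}) (l := l)
    (by simpa using e2) (inv_mul_cancel₀ m2) (by rw [sub_sub_cancel, mul_inv_cancel₀ n1]) hw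
  refine e3.congr ?_ rfl (by simp)
  intro y
  simp only [Set.mem_ofPred_eq]
  tauto

/-- the tiles of a row, the first one first -/
def rowT (z0 z1 z2 z3 : ℕ → D) (w : ℕ → ℂ) (n : ℕ) : List (Tl D) :=
  (List.range n).map fun i => ⟨z0 i, z1 i, z2 i, z3 i, w i⟩

/-- the ends `z1` of a row -/
def up (z1 : ℕ → D) (k : ℤ) (α : ℕ → ℂ) (n : ℕ) : List (Fe D) :=
  (List.range n).map fun i => (z1 i, k - 1, α i)

/-- the partners of the ends `z3` of a row -/
def dn (g : LP D) (z3 : ℕ → D) (k : ℤ) (α : ℕ → ℂ) (n : ℕ) : List (Fe D) :=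
  (List.range n).map fun i => (g (z3 i), k - 1 + g.d (z3 i), α i)

/-- the new names of a row -/
def rowS (g : LP D) (z0 z3 : ℕ → D) (n : ℕ) (y : D) : Prop :=
  ∃ i < n, y = z0 i ∨ y = g (z0 i) ∨ y = z3 i ∨ y = g (z3 i)

/-- **A row of tiles.** -/
theorem Bw.row {g : LP D} {u v : D} {z0 z1 z2 z3 : ℕ → D} {w α : ℕ → ℂ} {k : ℤ} {ε : ℂ}
    (hε : ε ≠ 1) (hα : ∀ i, α i ≠ 1) (F1 : List (Fe D)) (n : ℕ) :
    ∀ (T : Set D) (l : List (Tl D)) (F2 : List (Fe D)),
    Bw g u v T l (F1 ++ up z1 k α (n + 1) ++ (z2 n, k - 2, ε) :: F2) →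
    (∀ i ≤ n, z0 i ∉ T ∧ z3 i ∉ T) →
    (∀ i ≤ n, ∀ j ≤ n, z0 i ≠ z3 j ∧ g (z0 i) ≠ z3 j) →
    (∀ i ≤ n, ∀ j ≤ n, g (z0 i) ≠ z0 j ∧ g (z3 i) ≠ z3 j) →
    (∀ i ≤ n, ∀ j ≤ n, i ≠ j → z0 i ≠ z0 j ∧ z3 i ≠ z3 j) →
    (∀ i < n, g (z0 (i + 1)) = z2 i ∧ g.d (z0 (i + 1)) = 0) →
    (∀ i ≤ n, YB (1 - ε)⁻¹ (α i) (w i)) →
    Bw g u v {y | y ∈ T ∨ rowS g z0 z3 (n + 1) y} (rowT z0 z1 z2 z3 w (n + 1) ++ l)
      (F1 ++ (g (z0 0), k - 2 + g.d (z0 0), ε) :: (dn g z3 k α (n + 1) ++ F2)) := by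
  induction n with
  | zero =>
    intro T l F2 h hT h03 hgg _ _ hw
    have e : up z1 k α (0 + 1) = [(z1 0, k - 1, α 0)] := rfl
    rw [e] at h
    have h1 := Bw.corner (F1 := F1) (F2 := F2) (z0 := z0 0) (z1 := z1 0) (z2 := z2 0) (z3 := z3 0)
      (k := k) (a1 := α 0) (a2 := ε) (w := w 0) (by simpa using h) (hT 0 le_rfl).1
      (hT 0 le_rfl).2 (h03 0 le_rfl 0 le_rfl).1 (h03 0 le_rfl 0 le_rfl).2 (hα 0) hε (hw 0 le_rfl)
    refine h1.congr ?_ rfl rfl
    intro y
    unfold rowS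
    simp only [Set.mem_ofPred_eq]
    constructor
    · rintro (h2 | ⟨i, hi, h2⟩)
      · exact Or.inl h2
      · have : i = 0 := by omega
        subst this
        exact Or.inr h2
    · rintro (h2 | h2)
      · exact Or.inl h2
      · exact Or.inr ⟨0, by omega, h2⟩
  | succ n ih =>
    intro T l F2 h hT h03 hgg hne hgl hw
    have e : up z1 k α (n + 1 + 1) = up z1 k α (n + 1) ++ [(z1 (n + 1), k - 1, α (n + 1))] := by
      unfold up
      rw [List.range_succ, List.map_append]; rfl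
    rw [e] at h
    have h1 := Bw.corner (F1 := F1 ++ up z1 k α (n + 1)) (F2 := F2) (z0 := z0 (n + 1))
      (z1 := z1 (n + 1)) (z2 := z2 (n + 1)) (z3 := z3 (n + 1))
      (k := k) (a1 := α (n + 1)) (a2 := ε) (w := w (n + 1)) (by simpa using h)
      (hT (n + 1) le_rfl).1
      (hT (n + 1) le_rfl).2 (h03 (n + 1) le_rfl (n + 1) le_rfl).1
      (h03 (n + 1) le_rfl (n + 1) le_rfl).2 (hα (n + 1)) hε (hw (n + 1) le_rfl)
    obtain ⟨g1, g2⟩ := hgl n (by omega)
    rw [g1, g2, add_zero] at h1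
    have h2 := ih {y | y ∈ T ∨ y = z0 (n + 1) ∨ y = z2 n ∨ y = z3 (n + 1) ∨ y = g (z3 (n + 1))}
      (⟨z0 (n + 1), z1 (n + 1), z2 (n + 1), z3 (n + 1), w (n + 1)⟩ :: l)
      ((g (z3 (n + 1)), k - 1 + g.d (z3 (n + 1)), α (n + 1)) :: F2) h1 ?_
      (fun i hi j hj => h03 i (by omega) j (by omega))
      (fun i hi j hj => hgg i (by omega) j (by omega))
      (fun i hi j hj => hne i (by omega) j (by omega))
      (fun i hi => hgl i (by omega)) (fun i hi => hw i (by omega))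
    · refine h2.congr ?_ ?_ ?_
      · intro y
        unfold rowS
        simp only [Set.mem_ofPred_eq]
        constructor
        · rintro (h3 | ⟨i, hi, h3⟩)
          · exact Or.inl (Or.inl h3)
          · rcases Nat.lt_or_ge i (n + 1) with h4 | h4
            · exact Or.inr ⟨i, h4, h3⟩
            · have : i = n + 1 := by omega
              subst this
              rw [g1] at h3
              tauto
        · rintro ((h3 | h3 | h3 | h3 | h3) | ⟨i, hi, h3⟩)
          · exact Or.inl h3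
          · exact Or.inr ⟨n + 1, by omega, Or.inl h3⟩
          · exact Or.inr ⟨n + 1, by omega, Or.inr (Or.inl (by rw [g1]; exact h3))⟩
          · exact Or.inr ⟨n + 1, by omega, Or.inr (Or.inr (Or.inl h3))⟩
          · exact Or.inr ⟨n + 1, by omega, Or.inr (Or.inr (Or.inr h3))⟩
          · exact Or.inr ⟨i, by omega, h3⟩
      · unfold rowT
        rw [List.range_succ (n := n + 1), List.map_append, List.append_assoc]; rfl
      · unfold dn
        rw [List.range_succ (n := n + 1), List.map_append, List.append_assoc]; rfl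
    · intro i hi
      have q1 := hT i (by omega)
      have q2 := h03 (n + 1) le_rfl i (by omega)
      have q3 := hgg (n + 1) le_rfl i (by omega)
      have q4 := hne i (by omega) (n + 1) le_rfl (by omega)
      have q5 := h03 i (by omega) (n + 1) le_rfl
      rw [g1] at q2 q3
      refine ⟨?_, ?_⟩
      · rintro (h3 | h3 | h3 | h3 | h3)
        · exact q1.1 h3
        · exact q4.1 h3
        · exact q3.1 h3.symm
        · exact q5.1 h3
        · apply q5.2
          rw [h3, g.invol]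
      · rintro (h3 | h3 | h3 | h3 | h3)
        · exact q1.2 h3
        · exact q2.1 h3.symm
        · exact q2.2 h3.symm
        · exact q4.2 h3
        · exact q3.2 h3.symm

end Pool.Agent.H11.W
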