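import Pool.Agent.H11.W.Frz4

/-!
# Growth of a block of tiles through a corner of the front
-/

namespace Pool.Agent.H11.W

open Pool.Agent.H64.Q1 Pool.Agent.H64.Q1.LP Pool.Agent.H13.Q1

variable {D : Type*} [DecidableEq D]

/-- **A block of tiles**: columns `0 .. m`, rows `0 .. n`. The ends of the tile `(i, j)` are
`z0 i j, z1 i j, z2 i j, z3 i j`. -/
structure Blk (g : LP D) (T : Set D) (z0 z1 z2 z3 : ℕ → ℕ → D) (m n : ℕ) : Prop where
  hor : ∀ i < m, ∀ j ≤ n, g (z0 (i + 1) j) = z2 i j ∧ g.d (z0 (i + 1) j) = 0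
  ver : ∀ i ≤ m, ∀ j < n, g (z3 i (j + 1)) = z1 i j ∧ g.d (z3 i (j + 1)) = 0
  fr : ∀ i ≤ m, ∀ j ≤ n, z0 i j ∉ T ∧ z3 i j ∉ T
  d03 : ∀ i ≤ m, ∀ j ≤ n, ∀ i' ≤ m, ∀ j' ≤ n, z0 i j ≠ z3 i' j' ∧ g (z0 i j) ≠ z3 i' j'
  d00 : ∀ i ≤ m, ∀ j ≤ n, ∀ i' ≤ m, ∀ j' ≤ n, g (z0 i j) ≠ z0 i' j' ∧ g (z3 i j) ≠ z3 i' j'
  inj : ∀ i ≤ m, ∀ j ≤ n, ∀ i' ≤ m, ∀ j' ≤ n, (i, j) ≠ (i', j') →
    z0 i j ≠ z0 i' j' ∧ z3 i j ≠ z3 i' j'

/-- the ends `z2` of the last column, from the last row to the first row -/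
def rt (z2 : ℕ → ℕ → D) (m : ℕ) (k : ℤ) (ε : ℕ → ℂ) : ℕ → List (Fe D)
  | 0 => []
  | n + 1 => (z2 m n, k - 2, ε n) :: rt z2 m k ε n

/-- the partners of the ends `z0` of the first column, from the last row to the first row -/
def lf (g : LP D) (z0 : ℕ → ℕ → D) (k : ℤ) (ε : ℕ → ℂ) : ℕ → List (Fe D)
  | 0 => []
  | n + 1 => (g (z0 0 n), k - 2 + g.d (z0 0 n), ε n) :: lf g z0 k ε n

/-- the tiles of a block -/
def blkT (z0 z1 z2 z3 : ℕ → ℕ → D) (w : ℕ → ℕ → ℂ) (m : ℕ) : ℕ → List (Tl D)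
  | 0 => []
  | n + 1 => blkT z0 z1 z2 z3 w m n ++
      rowT (fun i => z0 i n) (fun i => z1 i n) (fun i => z2 i n) (fun i => z3 i n) (fun i => w i n)
        (m + 1)

/-- the new names of a block -/
def blkS (g : LP D) (z0 z3 : ℕ → ℕ → D) (m n : ℕ) (y : D) : Prop :=
  ∃ j < n, rowS g (fun i => z0 i j) (fun i => z3 i j) (m + 1) y

/-- **A block of tiles through a corner of the front.** -/
theorem Bw.rect {g : LP D} {u v : D} {z0 z1 z2 z3 : ℕ → ℕ → D} {w : ℕ → ℕ → ℂ} {α ε : ℕ → ℂ}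
    {k : ℤ} (hα : ∀ i, α i ≠ 1) (hε : ∀ j, ε j ≠ 1) (m : ℕ) (F2 : List (Fe D)) (n : ℕ) :
    ∀ (T : Set D) (l : List (Tl D)) (F1 : List (Fe D)),
    Bw g u v T l (F1 ++ up (fun i => z1 i n) k α (m + 1) ++ (rt z2 m k ε (n + 1) ++ F2)) →
    Blk g T z0 z1 z2 z3 m n →
    (∀ i ≤ m, ∀ j ≤ n, YB (1 - ε j)⁻¹ (α i) (w i j)) →
    Bw g u v {y | y ∈ T ∨ blkS g z0 z3 m (n + 1) y} (blkT z0 z1 z2 z3 w m (n + 1) ++ l)
      (F1 ++ (lf g z0 k ε (n + 1) ++ (dn g (fun i => z3 i 0) k α (m + 1) ++ F2))) := by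
  induction n with
  | zero =>
    intro T l F1 h hB hw
    have h1 := Bw.row (g := g) (u := u) (v := v) (z0 := fun i => z0 i 0) (z1 := fun i => z1 i 0)
      (z2 := fun i => z2 i 0) (z3 := fun i => z3 i 0) (w := fun i => w i 0) (α := α) (k := k)
      (ε := ε 0) (hε 0) hα F1 m T l F2 h (fun i hi => hB.fr i hi 0 le_rfl)
      (fun i hi j hj => hB.d03 i hi 0 le_rfl j hj 0 le_rfl)
      (fun i hi j hj => hB.d00 i hi 0 le_rfl j hj 0 le_rfl)
      (fun i hi j hj hij => hB.inj i hi 0 le_rfl j hj 0 le_rfl (by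
        intro e; exact hij (congrArg Prod.fst e)))
      (fun i hi => hB.hor i hi 0 le_rfl) (fun i hi => hw i hi 0 le_rfl)
    refine h1.congr ?_ ?_ ?_
    · intro y
      unfold blkS
      simp only [Set.mem_ofPred_eq]
      constructor
      · rintro (h2 | ⟨j, hj, h2⟩)
        · exact Or.inl h2
        · have : j = 0 := by omega
          subst this
          exact Or.inr h2
      · rintro (h2 | h2)
        · exact Or.inl h2
        · exact Or.inr ⟨0, by omega, h2⟩
    · rfl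
    · rfl
  | succ n ih =>
    intro T l F1 h hB hw
    have h1 := Bw.row (g := g) (u := u) (v := v) (z0 := fun i => z0 i (n + 1))
      (z1 := fun i => z1 i (n + 1))
      (z2 := fun i => z2 i (n + 1)) (z3 := fun i => z3 i (n + 1)) (w := fun i => w i (n + 1))
      (α := α) (k := k) (ε := ε (n + 1)) (hε (n + 1)) hα F1 m T l (rt z2 m k ε (n + 1) ++ F2)
      (by simpa [rt] using h) (fun i hi => hB.fr i hi (n + 1) le_rfl)
      (fun i hi j hj => hB.d03 i hi (n + 1) le_rfl j hj (n + 1) le_rfl)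
      (fun i hi j hj => hB.d00 i hi (n + 1) le_rfl j hj (n + 1) le_rfl)
      (fun i hi j hj hij => hB.inj i hi (n + 1) le_rfl j hj (n + 1) le_rfl (by
        intro e; exact hij (congrArg Prod.fst e)))
      (fun i hi => hB.hor i hi (n + 1) le_rfl) (fun i hi => hw i hi (n + 1) le_rfl)
    have e : dn g (fun i => z3 i (n + 1)) k α (m + 1) = up (fun i => z1 i n) k α (m + 1) := by
      unfold dn up
      apply List.map_congr_left
      intro i hi
      rw [List.mem_range] at hi
      obtain ⟨q1, q2⟩ := hB.ver i (by omega) n (by omega)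
      rw [q1, q2, add_zero]
    rw [e] at h1
    have hB' : Blk g {y | y ∈ T ∨ rowS g (fun i => z0 i (n + 1)) (fun i => z3 i (n + 1)) (m + 1) y}
        z0 z1 z2 z3 m n := by
      refine ⟨fun i hi j hj => hB.hor i hi j (by omega), fun i hi j hj => hB.ver i hi j (by omega),
        ?_, fun i hi j hj i' hi' j' hj' => hB.d03 i hi j (by omega) i' hi' j' (by omega),
        fun i hi j hj i' hi' j' hj' => hB.d00 i hi j (by omega) i' hi' j' (by omega),
        fun i hi j hj i' hi' j' hj' => hB.inj i hi j (by omega) i' hi' j' (by omega)⟩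
      intro i hi j hj
      have q := hB.fr i hi j (by omega)
      refine ⟨?_, ?_⟩
      · rintro (h3 | ⟨i', hi', h3⟩)
        · exact q.1 h3
        · have r1 := hB.inj i hi j (by omega) i' (by omega) (n + 1) le_rfl (by
            intro e2; have := congrArg Prod.snd e2; simp only at this; omega)
          have r2 := hB.d00 i' (by omega) (n + 1) le_rfl i hi j (by omega)
          have r3 := hB.d03 i hi j (by omega) i' (by omega) (n + 1) le_rfl
          rcases h3 with h3 | h3 | h3 | h3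
          · exact r1.1 h3
          · exact r2.1 h3.symm
          · exact r3.1 h3
          · exact r3.2 (by rw [h3, g.invol])
      · rintro (h3 | ⟨i', hi', h3⟩)
        · exact q.2 h3
        · have r1 := hB.inj i hi j (by omega) i' (by omega) (n + 1) le_rfl (by
            intro e2; have := congrArg Prod.snd e2; simp only at this; omega)
          have r2 := hB.d00 i' (by omega) (n + 1) le_rfl i hi j (by omega)
          have r3 := hB.d03 i' (by omega) (n + 1) le_rfl i hi j (by omega)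
          rcases h3 with h3 | h3 | h3 | h3
          · exact r3.1 h3.symm
          · exact r3.2 h3.symm
          · exact r1.2 h3
          · exact r2.2 h3.symm
    have h2 := ih _ _ (F1 ++ [(g (z0 0 (n + 1)), k - 2 + g.d (z0 0 (n + 1)), ε (n + 1))])
      (by simpa using h1) hB' (fun i hi j hj => hw i hi j (by omega))
    refine h2.congr ?_ ?_ ?_
    · intro y
      unfold blkS
      simp only [Set.mem_ofPred_eq]
      constructor
      · rintro (h3 | ⟨j, hj, h3⟩)
        · exact Or.inl (Or.inl h3)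
        · rcases Nat.lt_or_ge j (n + 1) with h4 | h4
          · exact Or.inr ⟨j, h4, h3⟩
          · have : j = n + 1 := by omega
            subst this
            exact Or.inl (Or.inr h3)
      · rintro ((h3 | h3) | ⟨j, hj, h3⟩)
        · exact Or.inl h3
        · exact Or.inr ⟨n + 1, by omega, h3⟩
        · exact Or.inr ⟨j, by omega, h3⟩
    · rw [blkT, List.append_assoc]
    · rw [lf]
      simp

end Pool.Agent.H11.W
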