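import Pool.Agent.H64.Q1.Reg7

/-!
# Open networks and their link patterns

An open network `N : ONet ι Ω` has the tiles `ι` and the outer ends `Ω`; `N.π` are the wires. `N.Arr s o x`:
the strand of the outer end `o` in the state `s` arrives at the end `x`. `N.rel s` is the link pattern:
`N.rel s o o'` iff the strand of `o` ends at `o'`. `N.Z a b Φ` is the mean of an arbitrary function `Φ` of the link
pattern (`a`: weight of the state `false` = {W-N, S-E}, `b`: weight of the state `true` = {W-S, N-E}).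
`ORl.Z`: this mean is a mean `SF` over pairings. There are no turnings and no orientations.
-/

namespace Pool.Agent.H11.W

open Pool.Agent.H64.Q1 Pool.Agent.H64.Q1.LP Pool.Agent.H81.G1 Pool.Agent.H13.Q1 Finset

/-- **Open network**: tiles `ι`, outer ends `Ω`, wires `π`. -/
structure ONet (ι Ω : Type*) where
  π : (ι × Dir) ⊕ Ω → (ι × Dir) ⊕ Ω
  inv : ∀ x, π (π x) = x
  ne : ∀ x, π x ≠ x

namespace ONet

variable {ι Ω : Type*}

/-- the strand of the outer end `o` in the state `s` arrives at an end -/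
inductive Arr (N : ONet ι Ω) (s : ι → Bool) (o : Ω) : (ι × Dir) ⊕ Ω → Prop
  | start : Arr N s o (N.π (.inr o))
  | step {i : ι} {d : Dir} (h : Arr N s o (.inl (i, d))) : Arr N s o (N.π (.inl (i, d.mate (s i))))

/-- **The link pattern.** -/
def rel (N : ONet ι Ω) (s : ι → Bool) (o o' : Ω) : Prop := N.Arr s o (.inr o')

variable (N : ONet ι Ω) (s : ι → Bool)

theorem π_inj : Function.Injective N.π := fun x y h => by rw [← N.inv x, h, N.inv]

theorem mate_mate (b : Bool) (d : Dir) : (d.mate b).mate b = d := by cases b <;> cases d <;> rfl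

theorem exists_rel [Finite ι] (o : Ω) : ∃ o', N.rel s o o' := by
  by_contra hcon
  push Not at hcon
  have hin : ∀ x, N.Arr s o x → ∃ y, x = .inl y := by
    rintro (y | o') h
    · exact ⟨y, rfl⟩
    · exact absurd h (hcon o')
  set S := {x : ι × Dir // N.Arr s o (.inl x)} with hS
  have hfin : Finite (ι × Dir) := inferInstance
  have hfinS : Finite S := Subtype.finite
  have hstep : ∀ x : S, ∃ y : S, N.π (.inl (x.1.1, x.1.2.mate (s x.1.1))) = .inl y.1 := by
    rintro ⟨⟨i, d⟩, h⟩
    have h1 := Arr.step h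
    obtain ⟨y, hy⟩ := hin _ h1
    exact ⟨⟨y, hy ▸ h1⟩, hy⟩
  choose f hf using hstep
  have finj : Function.Injective f := by
    rintro ⟨⟨i, d⟩, h⟩ ⟨⟨i', d'⟩, h'⟩ hxy
    have h1 := hf ⟨⟨i, d⟩, h⟩
    have h2 := hf ⟨⟨i', d'⟩, h'⟩
    rw [hxy, ← h2] at h1
    have h3 := Sum.inl.inj (N.π_inj h1)
    simp only [Prod.mk.injEq] at h3
    obtain ⟨rfl, h4⟩ := h3
    have h5 : d = d' := by rw [← mate_mate (s i) d, h4, mate_mate]
    subst h5
    rfl
  have fsurj := (Finite.injective_iff_surjective (f := f)).1 finj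
  obtain ⟨x0, hx0⟩ := hin _ Arr.start
  obtain ⟨y, hy⟩ := fsurj ⟨x0, hx0 ▸ Arr.start⟩
  have h1 := hf y
  rw [hy, ← hx0] at h1
  exact absurd (N.π_inj h1) (by simp)

/-- the mean of a function of the link pattern -/
noncomputable def Z [Fintype ι] [DecidableEq ι] (a b : ι → ℂ) (Φ : (Ω → Ω → Prop) → ℂ) : ℂ :=
  ∑ s : ι → Bool, (∏ i, if s i then b i else a i) * Φ (N.rel s)

end ONet

/-! ### Realisation by pairings -/

section rl

variable {D : Type*} [DecidableEq D] {ι Ω : Type*} [DecidableEq ι]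

/-- an open network inside a wiring `G` with joins `V` -/
structure ORl (N : ONet ι Ω) (e : ι × Dir → D) (G : LP D) (V : List (D × D × ℤ)) (sk : Ω → D) :
    Prop where
  inj : Function.Injective e
  ski : Function.Injective sk
  nd : (jm V).Nodup
  eV : ∀ x, e x ∉ jm V
  sV : ∀ o, sk o ∉ jm V
  es : ∀ x o, e x ≠ sk o
  wire : ∀ x, ∃ c, Pth G (JR V) (Sum.elim e sk x) (Sum.elim e sk (N.π x)) c

/-- **The link pattern is the pairing of the outer names.** -/
theorem ORl.rel [Fintype ι] {N : ONet ι Ω} {e : ι × Dir → D} {G : LP D} {V : List (D × D × ℤ)}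
    {sk : Ω → D}
    (H : ORl N e G V sk) {I : List ι} (hI : I.Nodup) (hI' : ∀ i, i ∈ I) (a b : ι → ℂ)
    (st : ι → Dir) (s : ι → Bool) (o o' : Ω) :
    jns V (jns (stj (nTl e a b st) s I) G) (sk o) = sk o' ↔ N.rel (stN st s) o o' := by
  classical
  set S := stj (nTl e a b st) s I with hS
  rw [← jns_append]
  have hSe : ∀ x ∈ jm S, ∃ y, x = e y := by
    intro x hx
    obtain ⟨i, -, h⟩ := jm_stj hx
    obtain ⟨d, h⟩ := nTl_ends e a b st h
    exact ⟨_, h⟩
  have hnd : (jm (S ++ V)).Nodup := by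
    rw [jm_append, List.nodup_append]
    refine ⟨stj_nodup H.inj a b st s hI, H.nd, ?_⟩
    intro x hx y hy hxy
    obtain ⟨z, hz⟩ := hSe x hx
    exact H.eV z (hz ▸ hxy ▸ hy)
  have hnot : ∀ o, sk o ∉ jm (S ++ V) := by
    intro o
    rw [jm_append, List.mem_append, not_or]
    refine ⟨fun h => ?_, H.sV o⟩
    obtain ⟨z, hz⟩ := hSe _ h
    exact H.es z o hz.symm
  have hmono : ∀ x y τ, JR V x y τ → JR (S ++ V) x y τ := fun x y τ h =>
    h.mono fun j hj => List.mem_append_right _ hj
  set σ := stN st s with hσ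
  have hpass : ∀ i d, JR (S ++ V) (e (i, d)) (e (i, Dir.mate (σ i) d)) (Dir.tn (σ i) d) := by
    intro i d
    have h := jo_nTl e a b st i (s i) d
    exact h.mono fun j hj => List.mem_append_left _ (mem_stj (hI' i) hj)
  have path : ∀ x, N.Arr σ o x → ∃ c, Pth G (JR (S ++ V)) (sk o) (Sum.elim e sk x) c := by
    intro x hx
    induction hx with
    | start =>
      obtain ⟨c, hc⟩ := H.wire (.inr o)
      exact ⟨c, hc.mono hmono⟩
    | @step i d h ih =>
      obtain ⟨c, hc⟩ := ih
      obtain ⟨c', hc'⟩ := H.wire (.inl (i, Dir.mate (σ i) d))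
      exact ⟨_, hc.trans (hpass i d) (hc'.mono hmono)⟩
  constructor
  · intro h
    obtain ⟨o'', ho''⟩ := N.exists_rel σ o
    obtain ⟨c, hc⟩ := path _ ho''
    have h1 := (hc.jns hnd (hnot o) (hnot o'')).1
    rw [h] at h1
    have : o' = o'' := H.ski h1
    rw [this]
    exact ho''
  · intro h
    obtain ⟨c, hc⟩ := path _ h
    exact (hc.jns hnd (hnot o) (hnot o')).1

/-- **The mean over the states of an open network.** -/
theorem ORl.Z [Fintype ι] {N : ONet ι Ω} {e : ι × Dir → D} {G : LP D} {V : List (D × D × ℤ)}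
    {sk : Ω → D}
    (H : ORl N e G V sk) {I : List ι} (hI : I.Nodup) (hI' : ∀ i, i ∈ I) (a b : ι → ℂ)
    (hab : ∀ i, a i + b i = 1) (st : ι → Dir) (Φ : (Ω → Ω → Prop) → ℂ) :
    N.Z a b Φ = SF G (I.map (nTl e a b st))
      (fun r => Φ (fun o o' => jns V r (sk o) = sk o')) := by
  rw [SF_sum _ _ hI]
  unfold ONet.Z
  rw [← (stE st).sum_comp]
  refine Finset.sum_congr rfl fun s _ => ?_
  have hrel : (fun o o' => jns V (jns (stj (nTl e a b st) s I) G) (sk o) = sk o') =
      N.rel (stN st s) := by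
    funext o o'
    exact propext (H.rel hI hI' a b st s o o')
  have hw : (∏ i, if (stE st) s i then b i else a i) = wts (fun i => (nTl e a b st i).w) s := by
    unfold wts
    refine Finset.prod_congr rfl fun i _ => ?_
    have h1 := hab i
    change (if (s i == (st i).v) then b i else a i) = if s i then 1 - (if (st i).v then a i else b i)
      else (if (st i).v then a i else b i)
    cases s i <;> cases (st i).v <;> simp <;> linear_combination h1
  rw [hw]
  change wts _ s * Φ (N.rel (stN st s)) = _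
  rw [← hrel]

end rl

end Pool.Agent.H11.W
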