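import Pool.Agent.H11.W.ONet1
import Pool.Agent.H93.W.Rgw

/-!
# The exchange theorem for open networks

`OLine`: an open network with a line over the front of a region (as `LineNet`, without turnings).
`side_open`: its realisation by pairings. `ONet.exchange`: for a region `X : Rgw` (natural or frozen
line, arbitrary weights of the tiles), the two open networks `N1`, `N2` with the line over `f1`, `f2` and with
the same outer wiring `ρ` have the same mean of every function of the link pattern.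
-/

namespace Pool.Agent.H11.W

open Pool.Agent.H64.Q1 Pool.Agent.H64.Q1.LP Pool.Agent.H81.G1 Pool.Agent.H13.Q1 Finset
open Pool.Agent.H93.W

section side

variable {R A O C Q ι Ω : Type*} [DecidableEq A] [DecidableEq O] [DecidableEq C] [DecidableEq Q]
  [DecidableEq Ω] [Fintype Q] {n m : ℕ}

/-- the names of the ends of the network -/
def oN (J : R ⊕ O ⊕ Fin n ≃ ι) (er : R × Dir → A) (cL : Fin n → C) (s : Fin n → Dir)
    (x : ι × Dir) : Nm A (O × Dir) C (Q ⊕ Ω) :=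
  match J.symm x.1 with
  | .inl i => .r (er (i, x.2))
  | .inr (.inl o) => .o (o, x.2) false
  | .inr (.inr i) => .l (cL i) (rel (s i) x.2)

/-- an open network with a line over the front `fL` of a region -/
structure OLine (gA : LP A) (er : R × Dir → A) (pL : Fin n → R × Dir)
    (J : R ⊕ O ⊕ Fin n ≃ ι) (s : Fin n → Dir) (N : ONet ι Ω) : Prop where
  rr : ∀ x y, gA (er x) = er y → N.π (.inl (jr J x)) = .inl (jr J y)
  rl : ∀ i, N.π (.inl (jr J (pL i))) = .inl (jl J i (rc (s i)))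
  ll : ∀ i j : Fin n, (j : ℕ) = i + 1 →
    N.π (.inl (jl J i (rc (rc (s i))))) = .inl (jl J j (s j))

/-- the exposed ends of an open network with a line; `w'` is at the first tile of the line -/
structure OExps (pL : Fin n → R × Dir) (pO : Fin m → R × Dir)
    (fL : Fin n → A) (fO : Fin m → A) (w w' : A)
    (J : R ⊕ O ⊕ Fin n ≃ ι) (s : Fin n → Dir)
    (E : Q → ι × Dir) (ex : Q → Nm A (O × Dir) C (Q ⊕ Ω)) : Prop where
  cases : ∀ q, (∃ i, E q = jl J i (rc (rc (rc (s i)))) ∧ ex q = .r (fL i)) ∨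
    (∃ i, E q = jr J (pO i) ∧ ex q = .r (fO i)) ∨
    (∃ x, E q = jo J x ∧ ex q = .o x true) ∨
    (∃ i : Fin n, (i : ℕ) + 1 = n ∧ E q = jl J i (rc (rc (s i))) ∧ ex q = .r w) ∨
    (∃ i : Fin n, (i : ℕ) = 0 ∧ E q = jl J i (s i) ∧ ex q = .r w')
  sL : ∀ i, ∃ q, E q = jl J i (rc (rc (rc (s i))))
  sO : ∀ i, ∃ q, E q = jr J (pO i)
  so : ∀ x, ∃ q, E q = jo J x
  sw : ∀ i : Fin n, (i : ℕ) + 1 = n → ∃ q, E q = jl J i (rc (rc (s i)))
  sw' : ∀ i : Fin n, (i : ℕ) = 0 → ∃ q, E q = jl J i (s i)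
  exi : Function.Injective ex

omit [DecidableEq A] [DecidableEq O] [DecidableEq C] [DecidableEq Q] [DecidableEq Ω]
  [Fintype Q] in
theorem oN_r (J : R ⊕ O ⊕ Fin n ≃ ι) (er : R × Dir → A) (cL : Fin n → C) (s : Fin n → Dir)
    (x : R × Dir) : oN (Q := Q) (Ω := Ω) J er cL s (jr J x) = .r (er x) := by
  unfold oN jr
  simp only [Equiv.symm_apply_apply]

omit [DecidableEq A] [DecidableEq O] [DecidableEq C] [DecidableEq Q] [DecidableEq Ω]
  [Fintype Q] in
theorem oN_o (J : R ⊕ O ⊕ Fin n ≃ ι) (er : R × Dir → A) (cL : Fin n → C) (s : Fin n → Dir)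
    (x : O × Dir) : oN (Q := Q) (Ω := Ω) J er cL s (jo J x) = .o x false := by
  unfold oN jo
  simp only [Equiv.symm_apply_apply]

omit [DecidableEq A] [DecidableEq O] [DecidableEq C] [DecidableEq Q] [DecidableEq Ω]
  [Fintype Q] in
theorem oN_l (J : R ⊕ O ⊕ Fin n ≃ ι) (er : R × Dir → A) (cL : Fin n → C) (s : Fin n → Dir)
    (i : Fin n) (d : Dir) : oN (Q := Q) (Ω := Ω) J er cL s (jl J i d) = .l (cL i) (Pool.Agent.H64.Q1.rel (s i) d) := by
  unfold oN jl
  simp only [Equiv.symm_apply_apply]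

omit [Fintype Q] in
theorem oN_inj {J : R ⊕ O ⊕ Fin n ≃ ι} {er : R × Dir → A} {cL : Fin n → C} {s : Fin n → Dir}
    (her : Function.Injective er) (hcL : Function.Injective cL) :
    Function.Injective (oN (Q := Q) (Ω := Ω) J er cL s) := by
  intro x y h
  rcases j_cases J x with ⟨x', rfl⟩ | ⟨x', rfl⟩ | ⟨i, d, rfl⟩ <;>
    rcases j_cases J y with ⟨y', rfl⟩ | ⟨y', rfl⟩ | ⟨i', d', rfl⟩ <;>
    simp only [oN_r, oN_o, oN_l] at h
  · rw [her (Nm.r.inj h)]
  · exact absurd h (by simp)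
  · exact absurd h (by simp)
  · exact absurd h (by simp)
  · rw [(Nm.o.inj h).1]
  · exact absurd h (by simp)
  · exact absurd h (by simp)
  · exact absurd h (by simp)
  · obtain ⟨h1, h2⟩ := Nm.l.inj h
    have h3 := hcL h1
    subst h3
    rw [rel_inj h2]

omit [DecidableEq A] [DecidableEq O] [DecidableEq C] [DecidableEq Q] [DecidableEq Ω]
  [Fintype Q] in
theorem lnT_LD' {cL : Fin n → C} (hcL : Function.Injective cL) {fL : Fin n → A}
    (hfL : Function.Injective fL) (p : Fin n → ℂ) {w : A} (hw : ∀ i, fL i ≠ w) :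
    LD (.r w) (List.ofFn (lnT (B := O × Dir) (E := Q ⊕ Ω) cL fL p)) := by
  constructor
  · intro t ht
    obtain ⟨i, rfl⟩ := (List.mem_ofFn' _ _).1 ht
    simp only [lnT]
    refine ⟨by simp, by simp, fun h => hw i (Nm.r.inj h), by simp, by simp, by simp⟩
  · rw [List.pairwise_ofFn]
    intro i j hij
    have h1 : cL i ≠ cL j := fun h => hij.ne (hcL h)
    have h2 : fL i ≠ fL j := fun h => hij.ne (hfL h)
    simp only [lnT]
    refine ⟨fun h => h1 (Nm.l.inj h).1, by simp, by simp, by simp, fun h => h1 (Nm.l.inj h).1,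
      by simp, by simp, by simp, fun h => h2 (Nm.r.inj h)⟩

variable {gA : LP A} {gE : LP (Q ⊕ Ω)} {u v w w' : A} {er : R × Dir → A} {fL : Fin n → A}
  {fO : Fin m → A} {pL : Fin n → R × Dir} {pO : Fin m → R × Dir} {cL : Fin n → C}
  {J : R ⊕ O ⊕ Fin n ≃ ι} {s : Fin n → Dir} {N : ONet ι Ω}

/-- **One side of the open exchange.** -/
theorem side_open (huv : gA u = v) (hww : (w = u ∧ w' = v) ∨ (w = v ∧ w' = u))
    (her : Function.Injective er) (hcL : Function.Injective cL) (hfL : Function.Injective fL)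
    (erf : ∀ x, er x ≠ u ∧ er x ≠ v ∧ (∀ i, er x ≠ fL i) ∧ ∀ i, er x ≠ fO i)
    (fuv : ∀ i, fL i ≠ u ∧ fL i ≠ v) (fuv' : ∀ i, fO i ≠ u ∧ fO i ≠ v)
    (ff : ∀ i j, fO i ≠ fL j)
    (gp : ∀ i, gA (er (pL i)) = fL i) (gp' : ∀ i, gA (er (pO i)) = fO i)
    (cls : ∀ x, (∃ y, gA (er x) = er y) ∨ (∃ i, x = pL i) ∨ ∃ i, x = pO i)
    {κ0 κ : Nm A (O × Dir) C (Q ⊕ Ω) → ℤ} {c : ℤ}
    (p : Fin n → ℂ) (H : OLine gA er pL J s N) {E : Q → ι × Dir}
    {ex : Q → Nm A (O × Dir) C (Q ⊕ Ω)}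
    (HE : OExps pL pO fL fO w w' J s E ex)
    (hρ : ∀ x : Q ⊕ Ω, N.π (Sum.map E id x) = Sum.map E id (gE x)) :
    ORl N (oN J er cL s) (Jn κ0 κ (.r u) (.r v) (.r w) c (List.ofFn (lnT cL fL p)) (gN gA gE))
      (sockets ex (fun q => Nm.s (.inl q))) (fun o => Nm.s (.inr o)) := by
  have huv' : u ≠ v := by rw [← huv]; exact gA.ne2 u
  have hwu : ∀ i, fL i ≠ w := by
    intro i
    rcases hww with ⟨h, -⟩ | ⟨h, -⟩
    · rw [h]; exact (fuv i).1
    · rw [h]; exact (fuv i).2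
  have hwu' : ∀ i, fL i ≠ w' := by
    intro i
    rcases hww with ⟨-, h⟩ | ⟨-, h⟩
    · rw [h]; exact (fuv i).2
    · rw [h]; exact (fuv i).1
  have hwO : ∀ i, fO i ≠ w ∧ fO i ≠ w' := by
    intro i
    rcases hww with ⟨h, h'⟩ | ⟨h, h'⟩
    · rw [h, h']; exact fuv' i
    · rw [h, h']; exact (fuv' i).symm
  have herw : ∀ x, er x ≠ w ∧ er x ≠ w' := by
    intro x
    obtain ⟨h1, h2, -⟩ := erf x
    rcases hww with ⟨h, h'⟩ | ⟨h, h'⟩
    · rw [h, h']; exact ⟨h1, h2⟩
    · rw [h, h']; exact ⟨h2, h1⟩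
  have hwne : w ≠ w' := by
    rcases hww with ⟨h, h'⟩ | ⟨h, h'⟩
    · rw [h, h']; exact huv'
    · rw [h, h']; exact huv'.symm
  set g : LP (Nm A (O × Dir) C (Q ⊕ Ω)) := gN gA gE with hg
  set L := List.ofFn (lnT (B := O × Dir) (E := Q ⊕ Ω) cL fL p) with hL
  set G := Jn κ0 κ (.r u) (.r v) (.r w) c L g with hG
  have hLD : LD (.r w) L := lnT_LD' hcL hfL p hwu
  have hguv : g (.r u) = .r v := by rw [hg, (gN_r gA gE u).1, huv]
  have hmem : ∀ i, lnT cL fL p i ∈ L := fun i => (List.mem_ofFn' _ _).2 ⟨i, rfl⟩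
  have hlen : L.length = n := by rw [hL, List.length_ofFn]
  have fixl : ∀ x, x ≠ .r w → (∀ i, x ≠ .r (fL i) ∧ x ≠ .l (cL i) .N ∧ x ≠ .l (cL i) .W) →
      insP (.r w) L x = x := by
    intro x h0 h
    apply insP_fix h0
    intro t ht
    obtain ⟨i, rfl⟩ := (List.mem_ofFn' _ _).1 ht
    exact h i
  have pE : ∀ i, insP (.r w) L (.l (cL i) .E) = .l (cL i) .E := fun i =>
    fixl _ (by simp) fun j => ⟨by simp, by simp, by simp⟩
  have pS : ∀ i, insP (.r w) L (.l (cL i) .S) = .l (cL i) .S := fun i =>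
    fixl _ (by simp) fun j => ⟨by simp, by simp, by simp⟩
  have pc : ∀ i, insP (.r w) L (.r (fL i)) = .l (cL i) .N := fun i => insP_c hLD (hmem i)
  have pN : ∀ i, insP (.r w) L (.l (cL i) .N) = .r (fL i) := fun i => insP_N hLD (hmem i)
  have pr : ∀ x, x ≠ w → (∀ i, x ≠ fL i) → insP (.r w) L (.r x) = .r x := fun x h0 h =>
    fixl _ (fun e => h0 (Nm.r.inj e)) fun j => ⟨fun e => h j (Nm.r.inj e), by simp, by simp⟩
  have po : ∀ x b, insP (.r w) L (.o x b) = .o x b := fun x b =>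
    fixl _ (by simp) fun j => ⟨by simp, by simp, by simp⟩
  have ps : ∀ x, insP (.r w) L (.s x) = .s x := fun x =>
    fixl _ (by simp) fun j => ⟨by simp, by simp, by simp⟩
  have pw' : insP (.r w) L (.r w') = .r w' := pr w' hwne.symm fun i h => hwu' i h.symm
  have getL : ∀ (i : ℕ) (hi : i < L.length), L[i] = lnT cL fL p ⟨i, by rw [hlen] at hi; exact hi⟩ :=
    fun i hi => by simp [hL]
  have pW : ∀ i j : Fin n, (j : ℕ) = i + 1 →
      insP (.r w) L (.l (cL i) .W) = .l (cL j) .W := by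
    intro i j hij
    have h1 : (i : ℕ) < L.length := by rw [hlen]; exact i.2
    have h2 := insP_W hLD i h1
    rw [dif_pos (by rw [hlen]; have := j.2; omega), getL, getL] at h2
    have e1 : (⟨(i : ℕ) + 1, by have := j.2; omega⟩ : Fin n) = j := Fin.ext hij.symm
    rw [e1] at h2
    exact h2
  have pWl : ∀ i : Fin n, (i : ℕ) + 1 = n → insP (.r w) L (.l (cL i) .W) = .r w := by
    intro i hi
    have h1 : (i : ℕ) < L.length := by rw [hlen]; exact i.2
    have h2 := insP_W hLD i h1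
    rw [dif_neg (by rw [hlen]; omega), getL] at h2
    exact h2
  have pw : ∀ i : Fin n, (i : ℕ) = 0 → insP (.r w) L (.r w) = .l (cL i) .W := by
    intro i hi
    obtain ⟨k, rfl⟩ : ∃ k, n = k + 1 := ⟨n - 1, by have := i.2; omega⟩
    have hi' : i = 0 := Fin.ext hi
    subst hi'
    have h3 : L = lnT cL fL p 0 :: List.ofFn (fun i : Fin k => lnT cL fL p i.succ) := by
      rw [hL, List.ofFn_succ]
    have h4 := hLD
    rw [h3] at h4 ⊢
    exact insP_w h4
  have Jap := fun x => Jn_apply (κ0 := κ0) (κ := κ) (w := .r w) (c := c) (L := L) hguv x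
  -- wires
  have wS : ∀ i, G (.l (cL i) .S) = .r (fL i) := by
    intro i
    have h1 := Jap (.l (cL i) .S)
    have e1 : g (.l (cL i) .S) = .l (cL i) .N := (gN_l gA gE (cL i) .S).1
    rw [e1, pS, pN] at h1
    exact h1
  have wEl : ∀ i : Fin n, (i : ℕ) + 1 = n → G (.l (cL i) .E) = .r w := by
    intro i hi
    have h1 := Jap (.l (cL i) .E)
    have e1 : g (.l (cL i) .E) = .l (cL i) .W := (gN_l gA gE (cL i) .E).1
    rw [e1, pE, pWl i hi] at h1
    exact h1
  have wE : ∀ i j : Fin n, (j : ℕ) = i + 1 → G (.l (cL i) .E) = .l (cL j) .W := by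
    intro i j hij
    have h1 := Jap (.l (cL i) .E)
    have e1 : g (.l (cL i) .E) = .l (cL i) .W := (gN_l gA gE (cL i) .E).1
    rw [e1, pE, pW i j hij] at h1
    exact h1
  have wW : ∀ i : Fin n, (i : ℕ) = 0 → G (.l (cL i) .W) = .r w' := by
    intro i hi
    rcases hww with ⟨h, h'⟩ | ⟨h, h'⟩
    · have h1 := Jap (.r u)
      rw [hguv, ← h, ← h', pw', pw i hi] at h1
      rw [hG, ← h, ← h']
      exact h1
    · have hgvu : g (.r v) = .r u := by rw [← hguv, g.invol]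
      have h1 := Jap (.r v)
      rw [hgvu, ← h, ← h', pw', pw i hi] at h1
      rw [hG, ← h, ← h']
      exact h1
  have gEr : ∀ x, g (.r (er x)) = .r (gA (er x)) := fun x => (gN_r gA gE (er x)).1
  have prx : ∀ x, insP (.r w) L (.r (er x)) = .r (er x) := fun x =>
    pr _ (herw x).1 (erf x).2.2.1
  have wR : ∀ x y, gA (er x) = er y → G (.r (er x)) = .r (er y) := by
    intro x y hxy
    have h1 := Jap (.r (er x))
    rw [gEr, hxy, prx, prx] at h1
    exact h1
  have wP : ∀ i, G (.r (er (pL i))) = .l (cL i) .N := by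
    intro i
    have h1 := Jap (.r (er (pL i)))
    rw [gEr, gp, prx, pc] at h1
    exact h1
  have wO : ∀ i, G (.r (er (pO i))) = .r (fO i) := by
    intro i
    have h1 := Jap (.r (er (pO i)))
    rw [gEr, gp', prx, pr _ (hwO i).1 (ff i)] at h1
    exact h1
  have wo : ∀ x, G (.o x false) = .o x true := by
    intro x
    have h1 := Jap (.o x false)
    rw [(gN_o gA gE x false).1, po, po] at h1
    exact h1
  have ws : ∀ x, G (.s x) = .s (gE x) := by
    intro x
    have h1 := Jap (.s x)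
    rw [(gN_s gA gE x).1, ps, ps] at h1
    exact h1
  have exs : ∀ q x, ex q ≠ Nm.s x := by
    intro q x
    rcases HE.cases q with ⟨i, -, h⟩ | ⟨i, -, h⟩ | ⟨y, -, h⟩ | ⟨i, -, -, h⟩ |
      ⟨i, -, -, h⟩ <;> rw [h] <;> simp
  -- the exposed ends
  have aE : ∀ q, G (oN J er cL s (E q)) = ex q := by
    intro q
    rcases HE.cases q with ⟨i, h1, h3⟩ | ⟨i, h1, h3⟩ | ⟨y, h1, h3⟩ |
      ⟨i, hi, h1, h3⟩ | ⟨i, hi, h1, h3⟩ <;> rw [h1, h3]
    · rw [oN_l, rel_3]; exact wS i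
    · rw [oN_r]; exact wO i
    · rw [oN_o]; exact wo y
    · rw [oN_l, rel_2]; exact wEl i hi
    · rw [oN_l, rel_0]; exact wW i hi
  -- the other ends
  have cE : ∀ x, (∀ q, x ≠ E q) → ∃ y, N.π (.inl x) = .inl y ∧ G (oN J er cL s x) = oN J er cL s y := by
    intro x hx
    rcases j_cases J x with ⟨x', rfl⟩ | ⟨x', rfl⟩ | ⟨i, d, rfl⟩
    · rcases cls x' with ⟨y, hy⟩ | ⟨i, rfl⟩ | ⟨i, rfl⟩
      · exact ⟨_, H.rr x' y hy, by rw [oN_r, oN_r]; exact wR x' y hy⟩
      · exact ⟨_, H.rl i, by rw [oN_r, oN_l, rel_1]; exact wP i⟩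
      · obtain ⟨q, hq⟩ := HE.sO i
        exact absurd hq.symm (hx q)
    · obtain ⟨q, hq⟩ := HE.so x'
      exact absurd hq.symm (hx q)
    · rcases dir_cases (s i) d with rfl | rfl | rfl | rfl
      · rcases Nat.eq_zero_or_pos (i : ℕ) with hi | hi
        · obtain ⟨q, hq⟩ := HE.sw' i hi
          exact absurd hq.symm (hx q)
        · have hj : (i : ℕ) - 1 < n := by have := i.2; omega
          set j : Fin n := ⟨(i : ℕ) - 1, hj⟩ with hjd
          have hij : (i : ℕ) = j + 1 := by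
            have : (j : ℕ) = (i : ℕ) - 1 := rfl
            omega
          have h5 : N.π (.inl (jl J i (s i))) = .inl (jl J j (rc (rc (s j)))) := by
            rw [← H.ll j i hij, N.inv]
          refine ⟨_, h5, ?_⟩
          rw [oN_l, oN_l, rel_0, rel_2, ← wE j i hij, G.invol]
      · have h5 : N.π (.inl (jl J i (rc (s i)))) = .inl (jr J (pL i)) := by
          rw [← H.rl i, N.inv]
        refine ⟨_, h5, ?_⟩
        rw [oN_l, oN_r, rel_1, ← wP i, G.invol]
      · by_cases hi : (i : ℕ) + 1 = n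
        · obtain ⟨q, hq⟩ := HE.sw i hi
          exact absurd hq.symm (hx q)
        · have hj : (i : ℕ) + 1 < n := by have := i.2; omega
          refine ⟨_, H.ll i ⟨(i : ℕ) + 1, hj⟩ rfl, ?_⟩
          rw [oN_l, oN_l, rel_2, rel_0]
          exact wE i ⟨(i : ℕ) + 1, hj⟩ rfl
      · obtain ⟨q, hq⟩ := HE.sL i
        exact absurd hq.symm (hx q)
  -- strands
  have out : ∀ q, ∃ d, Pth G (JR (sockets ex (fun q => Nm.s (.inl q)))) (oN J er cL s (E q)) (ex q) d :=
    fun q => ⟨_, Pth.of (aE q) rfl⟩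
  have back : ∀ q, ∃ d, Pth G (JR (sockets ex (fun q => Nm.s (.inl q)))) (ex q)
      (oN J er cL s (E q)) d := by
    intro q
    exact ⟨_, Pth.of (by rw [← aE q, G.invol]) rfl⟩
  have jo : ∀ q, JR (sockets ex (fun q => Nm.s (.inl q))) (ex q) (Nm.s (.inl q)) 0 :=
    fun q => Or.inl (mem_sockets ex _ q)
  have oj : ∀ q, JR (sockets ex (fun q => Nm.s (.inl q))) (Nm.s (.inl q)) (ex q) 0 := fun q => by
    have := (jo q).symm
    simpa using this
  refine ⟨oN_inj her hcL, fun a b h => by simpa using h, ?_, ?_, ?_, ?_, ?_⟩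
  · exact sockets_nodup HE.exi (fun a b h => by simpa using h) (fun q q' => exs q _)
  · intro x hx
    rw [jm_sockets] at hx
    obtain ⟨q, h | h⟩ := hx
    · rcases HE.cases q with ⟨i, -, h'⟩ | ⟨i, -, h'⟩ | ⟨y, -, h'⟩ | ⟨i, -, -, h'⟩ |
        ⟨i, -, -, h'⟩ <;> rw [h'] at h <;>
        rcases j_cases J x with ⟨x', rfl⟩ | ⟨x', rfl⟩ | ⟨j, d, rfl⟩ <;>
        simp only [oN_r, oN_o, oN_l] at h <;> try simp at h
      · exact (erf x').2.2.1 i h
      · exact (erf x').2.2.2 i h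
      · exact (herw x').1 h
      · exact (herw x').2 h
    · rcases j_cases J x with ⟨x', rfl⟩ | ⟨x', rfl⟩ | ⟨j, d, rfl⟩ <;>
        simp only [oN_r, oN_o, oN_l] at h <;> simp at h
  · intro o hx
    rw [jm_sockets] at hx
    obtain ⟨q, h | h⟩ := hx
    · exact exs q _ h.symm
    · simp at h
  · intro x o
    rcases j_cases J x with ⟨x', rfl⟩ | ⟨x', rfl⟩ | ⟨j, d, rfl⟩ <;>
      simp only [oN_r, oN_o, oN_l] <;> simp
  · -- wires
    have fin : ∀ y : Q ⊕ Ω, ∃ d, Pth G (JR (sockets ex (fun q => Nm.s (.inl q))))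
        (Nm.s y) (Sum.elim (oN J er cL s) (fun o => Nm.s (.inr o)) (Sum.map E id (gE y))) d := by
      intro y
      rcases hy : gE y with q | o
      · obtain ⟨d, hd⟩ := back q
        have h1 : Pth G (JR (sockets ex (fun q => Nm.s (.inl q)))) (Nm.s y) (Nm.s (.inl q))
            (G.d (Nm.s y)) := Pth.of (by rw [ws, hy]) rfl
        exact ⟨_, h1.trans (oj q) hd⟩
      · exact ⟨_, Pth.of (by rw [ws, hy]; rfl) rfl⟩
    rintro (x | o)
    · by_cases hx : ∃ q, x = E q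
      · obtain ⟨q, rfl⟩ := hx
        obtain ⟨d, hd⟩ := out q
        obtain ⟨d', hd'⟩ := fin (.inl q)
        have e1 : N.π (.inl (E q)) = Sum.map E id (gE (.inl q)) := hρ (.inl q)
        rw [e1]
        exact ⟨_, hd.trans (jo q) hd'⟩
      · push Not at hx
        obtain ⟨y, h1, h2⟩ := cE x hx
        rw [h1]
        exact ⟨_, Pth.of h2 rfl⟩
    · have e1 : N.π (.inr o) = Sum.map E id (gE (.inr o)) := hρ (.inr o)
      rw [e1]
      exact fin (.inr o)

end side

end Pool.Agent.H11.W
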