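import Pool.Agent.H11.W.ONet2

/-!
# The exchange theorem for open networks: statement and proof
-/

namespace Pool.Agent.H11.W

open Pool.Agent.H64.Q1 Pool.Agent.H64.Q1.LP Pool.Agent.H81.G1 Pool.Agent.H13.Q1 Finset
open Pool.Agent.H93.W

section list

variable {R A O C Q ι Ω : Type*} [DecidableEq A] [DecidableEq O] [DecidableEq C] [DecidableEq Q]
  [Fintype O] {n : ℕ}

omit [DecidableEq A] [DecidableEq O] [DecidableEq C] [DecidableEq Q] in
theorem allT_map_o (J : R ⊕ O ⊕ Fin n ≃ ι) (I : List R) (er : R × Dir → A) (cL : Fin n → C)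
    (fL : Fin n → A) (s : Fin n → Dir) (st : R → Dir) (wt : R → ℂ) (p : Fin n → ℂ)
    {a b : ι → ℂ} (hR : ∀ i, (if (st i).v then a (J (.inl i)) else b (J (.inl i))) = wt i)
    (hL : ∀ i, (if (s i).v then a (J (.inr (.inr i))) else b (J (.inr (.inr i)))) = p i) :
    (allT J I).map (nTl (oN (Q := Q) (Ω := Ω) J er cL s) a b (stJ J st s)) =
      lO (fun o => b (J (.inr (.inl o)))) ++
        (((List.ofFn (lnT cL fL p)).map Lt.tl).reverse ++ (I.map (rgT er st wt)).map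
          (Tl.map Nm.r)) := by
  unfold allT lO
  rw [List.map_append, List.map_append, List.map_map, List.map_map, List.map_map, List.map_reverse,
    List.map_ofFn, List.map_ofFn]
  refine congrArg₂ (· ++ ·) ?_ (congrArg₂ (· ++ ·) ?_ ?_)
  · apply List.map_congr_left
    intro o _
    have e1 : stJ J st s (J (.inr (.inl o))) = .W := by
      unfold stJ; simp only [Equiv.symm_apply_apply]
    have e2 : ∀ d, oN (Q := Q) (Ω := Ω) J er cL s (J (.inr (.inl o)), d) = .o (o, d) false :=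
      fun d => oN_o J er cL s (o, d)
    simp only [Function.comp_apply]
    unfold nTl
    rw [e1, e2, e2, e2, e2]
    rfl
  · congr 2
    funext i
    have e1 : stJ J st s (J (.inr (.inr i))) = s i := by
      unfold stJ; simp only [Equiv.symm_apply_apply]
    have e2 : ∀ d, oN (Q := Q) (Ω := Ω) J er cL s (J (.inr (.inr i)), d) =
        .l (cL i) (rel (s i) d) := fun d => oN_l J er cL s i d
    simp only [Function.comp_apply]
    unfold nTl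
    rw [e1, e2, e2, e2, e2, rel_0, rel_1, rel_2, rel_3, hL]
    rfl
  · apply List.map_congr_left
    intro i _
    have e1 : stJ J st s (J (.inl i)) = st i := by
      unfold stJ; simp only [Equiv.symm_apply_apply]
    have e2 : ∀ d, oN (Q := Q) (Ω := Ω) J er cL s (J (.inl i), d) = .r (er (i, d)) :=
      fun d => oN_r J er cL s (i, d)
    simp only [Function.comp_apply]
    unfold nTl
    rw [e1, e2, e2, e2, e2, hR]
    rfl

end list

section main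

variable {R A O ι1 ι2 Ω : Type*} [DecidableEq A] [DecidableEq O] [DecidableEq Ω] [Fintype O]
  [Fintype ι1] [DecidableEq ι1] [Fintype ι2] [DecidableEq ι2] {n1 n2 : ℕ}

/-- the names of the theorem -/
abbrev NO (A O Ω : Type*) (n1 n2 : ℕ) : Type _ :=
  Nm A (O × Dir) (Fin n1 ⊕ Fin n2) (Ex O n1 n2 ⊕ Ω)

omit [DecidableEq O] [DecidableEq Ω] [Fintype O] in
/-- the names of a line are fresh -/
theorem fresh_line_o (X : Rgw R A n1 n2) (gE : LP (Ex O n1 n2 ⊕ Ω)) {n : ℕ} (T : Set A)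
    {cL : Fin n → Fin n1 ⊕ Fin n2} (hcL : Function.Injective cL) (fL : Fin n → A) (p : Fin n → ℂ)
    (kC : Fin n1 ⊕ Fin n2 → ℤ) :
    Fresh (gN X.g gE) (Nm.r '' T) (kN (B := O × Dir) X.kf kC) (List.ofFn (lnT cL fL p)) := by
  refine ⟨?_, ?_, ?_, ?_, ?_⟩
  · intro t ht x hx
    obtain ⟨i, rfl⟩ := (List.mem_ofFn' _ _).1 ht
    rintro ⟨y, -, rfl⟩
    rcases hx with h | h | h | h <;> simp [lnT] at h
  · intro t ht
    obtain ⟨i, rfl⟩ := (List.mem_ofFn' _ _).1 ht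
    simp [lnT]
  · rw [List.pairwise_ofFn]
    intro i j hij x hx hx'
    have h1 : cL i ≠ cL j := fun h => hij.ne (hcL h)
    rcases hx with h | h | h | h <;> rcases hx' with h' | h' | h' | h' <;>
      rw [h] at h' <;> simp only [lnT] at h' <;> exact h1 (Nm.l.inj h').1
  · intro t ht
    obtain ⟨i, rfl⟩ := (List.mem_ofFn' _ _).1 ht
    exact ⟨rfl, rfl, rfl⟩
  · intro t ht
    obtain ⟨i, rfl⟩ := (List.mem_ofFn' _ _).1 ht
    exact ⟨rfl, rfl, rfl, rfl⟩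

omit [DecidableEq O] [DecidableEq Ω] [Fintype O] in
theorem mem_le_line_o {X : Type*} {n : ℕ} {cL : Fin n → Fin n1 ⊕ Fin n2} {fL : Fin n → X}
    {p : Fin n → ℂ} {x : Nm X (O × Dir) (Fin n1 ⊕ Fin n2) (Ex O n1 n2 ⊕ Ω)}
    (h : Le (List.ofFn (lnT cL fL p)) x) : ∃ i d, x = .l (cL i) d := by
  obtain ⟨t, ht, hx⟩ := h
  obtain ⟨i, rfl⟩ := (List.mem_ofFn' _ _).1 ht
  rcases hx with h | h | h | h <;> exact ⟨i, _, h⟩

variable (X : Rgw R A n1 n2) (h1 : 0 < n1) (h2 : 0 < n2)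

omit [DecidableEq O] [DecidableEq Ω] [Fintype O] [Fintype ι1] [DecidableEq ι1] in
theorem oexps1 (J : R ⊕ O ⊕ Fin n1 ≃ ι1) (s : Fin n1 → Dir) :
    OExps (C := Fin n1 ⊕ Fin n2) (Q := Ex O n1 n2) (Ω := Ω) X.p1 X.p2 X.f1 X.f2 X.u X.v J s
      (X.E1 h1 J s) X.ex := by
  refine ⟨?_, fun i => ⟨.f1 i, rfl⟩, fun i => ⟨.f2 i, rfl⟩, fun x => ⟨.o x, rfl⟩, ?_, ?_, X.ex_inj⟩
  · rintro (i | i | x | _ | _)
    · exact Or.inl ⟨i, rfl, rfl⟩
    · exact Or.inr (Or.inl ⟨i, rfl, rfl⟩)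
    · exact Or.inr (Or.inr (Or.inl ⟨x, rfl, rfl⟩))
    · exact Or.inr (Or.inr (Or.inr (Or.inl ⟨⟨n1 - 1, by omega⟩, by simp; omega, rfl, rfl⟩)))
    · exact Or.inr (Or.inr (Or.inr (Or.inr ⟨⟨0, h1⟩, rfl, rfl, rfl⟩)))
  · intro i hi
    have : i = ⟨n1 - 1, by omega⟩ := Fin.ext (by simp; omega)
    refine ⟨.u, ?_⟩
    rw [this]
    rfl
  · intro i hi
    have : i = ⟨0, h1⟩ := Fin.ext hi
    subst this
    exact ⟨.v, rfl⟩

omit [DecidableEq O] [DecidableEq Ω] [Fintype O] [Fintype ι2] [DecidableEq ι2] in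
theorem oexps2 (J : R ⊕ O ⊕ Fin n2 ≃ ι2) (s : Fin n2 → Dir) :
    OExps (C := Fin n1 ⊕ Fin n2) (Q := Ex O n1 n2) (Ω := Ω) X.p2 X.p1 X.f2 X.f1 X.v X.u J s
      (X.E2 h2 J s) X.ex := by
  refine ⟨?_, fun i => ⟨.f2 i, rfl⟩, fun i => ⟨.f1 i, rfl⟩, fun x => ⟨.o x, rfl⟩, ?_, ?_, X.ex_inj⟩
  · rintro (i | i | x | _ | _)
    · exact Or.inr (Or.inl ⟨i, rfl, rfl⟩)
    · exact Or.inl ⟨i, rfl, rfl⟩
    · exact Or.inr (Or.inr (Or.inl ⟨x, rfl, rfl⟩))
    · exact Or.inr (Or.inr (Or.inr (Or.inr ⟨⟨0, h2⟩, rfl, rfl, rfl⟩)))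
    · exact Or.inr (Or.inr (Or.inr (Or.inl ⟨⟨n2 - 1, by omega⟩, by simp; omega, rfl, rfl⟩)))
  · intro i hi
    have : i = ⟨n2 - 1, by omega⟩ := Fin.ext (by simp; omega)
    refine ⟨.v, ?_⟩
    rw [this]
    rfl
  · intro i hi
    have : i = ⟨0, h2⟩ := Fin.ext hi
    subst this
    exact ⟨.u, rfl⟩

/-- **The exchange theorem for open networks.** -/
theorem ONet.exchange {N1 : ONet ι1 Ω} {N2 : ONet ι2 Ω}
    (J1 : R ⊕ O ⊕ Fin n1 ≃ ι1) (J2 : R ⊕ O ⊕ Fin n2 ≃ ι2)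
    (s1 : Fin n1 → Dir) (s2 : Fin n2 → Dir)
    (H1 : OLine X.g X.er X.p1 J1 s1 N1) (H2 : OLine X.g X.er X.p2 J2 s2 N2)
    (ρ : LP (Ex O n1 n2 ⊕ Ω))
    (hρ1 : ∀ x, N1.π (Sum.map (X.E1 h1 J1 s1) id x) = Sum.map (X.E1 h1 J1 s1) id (ρ x))
    (hρ2 : ∀ x, N2.π (Sum.map (X.E2 h2 J2 s2) id x) = Sum.map (X.E2 h2 J2 s2) id (ρ x))
    {a1 b1 : ι1 → ℂ} {a2 b2 : ι2 → ℂ} (hab1 : ∀ i, a1 i + b1 i = 1) (hab2 : ∀ i, a2 i + b2 i = 1)
    (wR1 : ∀ i, (if (X.st i).v then a1 (J1 (.inl i)) else b1 (J1 (.inl i))) = X.wt i)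
    (wR2 : ∀ i, (if (X.st i).v then a2 (J2 (.inl i)) else b2 (J2 (.inl i))) = X.wt i)
    (wO : ∀ o, b1 (J1 (.inr (.inl o))) = b2 (J2 (.inr (.inl o))))
    (wL1 : ∀ i, (if (s1 i).v then a1 (J1 (.inr (.inr i))) else b1 (J1 (.inr (.inr i)))) =
      X.t1 i)
    (wL2 : ∀ i, (if (s2 i).v then a2 (J2 (.inr (.inr i))) else b2 (J2 (.inr (.inr i)))) =
      1 - (X.t2 i)⁻¹) (Φ : (Ω → Ω → Prop) → ℂ) :
    N1.Z a1 b1 Φ = N2.Z a2 b2 Φ := by
  classical
  obtain ⟨T, hT⟩ := X.bt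
  have huv : X.u ≠ X.v := by rw [← X.guv]; exact X.g.ne2 _
  set kC : Fin n1 ⊕ Fin n2 → ℤ := Sum.elim (fun i => X.kf (X.f1 i)) (fun i => X.kf (X.f2 i)) with hkC
  set κ : NO A O Ω n1 n2 → ℤ := kN X.kf kC with hκ
  set κ2 : NO A O Ω n1 n2 → ℤ := Function.update κ (.r X.v) 4 with hκ2
  set g : LP (NO A O Ω n1 n2) := gN X.g ρ with hg
  set L1 : List (Lt (NO A O Ω n1 n2)) :=
    List.ofFn (lnT Sum.inl X.f1 X.t1) with hL1
  set L2 : List (Lt (NO A O Ω n1 n2)) :=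
    List.ofFn (lnT Sum.inr X.f2 (fun i => 1 - (X.t2 i)⁻¹)) with hL2
  have κv : κ (.r X.v) = 0 := X.kuv.2
  have κ2v : κ2 (.r X.v) = 4 := Function.update_self _ _ _
  -- the two sides
  have R1 := side_open (C := Fin n1 ⊕ Fin n2) (Q := Ex O n1 n2) (Ω := Ω) (gE := ρ) (κ0 := κ)
    (κ := κ) (c := 2) (cL := Sum.inl) X.guv (Or.inl ⟨rfl, rfl⟩) X.er_inj Sum.inl_injective X.f1_inj
    X.erf X.f1_uv X.f2_uv (fun i j => (X.f1_ne_f2 j i).symm) X.gp1 X.gp2 X.cls X.t1 H1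
    (oexps1 X h1 J1 s1) hρ1
  have R2 := side_open (C := Fin n1 ⊕ Fin n2) (Q := Ex O n1 n2) (Ω := Ω) (gE := ρ) (κ0 := κ)
    (κ := κ2) (c := -2) (cL := Sum.inr) X.guv (Or.inr ⟨rfl, rfl⟩) X.er_inj Sum.inr_injective
    X.f2_inj (fun x => ⟨(X.erf x).1, (X.erf x).2.1, (X.erf x).2.2.2, (X.erf x).2.2.1⟩)
    X.f2_uv X.f1_uv X.f1_ne_f2 X.gp2 X.gp1 (fun x => (X.cls x).imp id Or.symm)
    (fun i => 1 - (X.t2 i)⁻¹) H2 (oexps2 X h2 J2 s2) hρ2
  have Z1 := R1.Z (allT_nodup J1 X.nd) (allT_all J1 X.all) a1 b1 hab1 (stJ J1 X.st s1) Φ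
  have Z2 := R2.Z (allT_nodup J2 X.nd) (allT_all J2 X.all) a2 b2 hab2 (stJ J2 X.st s2) Φ
  rw [allT_map_o J1 X.I X.er Sum.inl X.f1 s1 X.st X.wt X.t1 wR1 wL1, SF_append] at Z1
  rw [allT_map_o J2 X.I X.er Sum.inr X.f2 s2 X.st X.wt (fun i => 1 - (X.t2 i)⁻¹) wR2 wL2,
    SF_append] at Z2
  have hO : (fun o => b1 (J1 (.inr (.inl o)))) = fun o => b2 (J2 (.inr (.inl o))) := funext wO
  rw [hO] at Z1
  -- the exchange
  have hB := Bw_map (g' := g) (j := Nm.r) (fun a b h => Nm.r.inj h) (fun _ => rfl) (fun _ => rfl) hT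
  rw [List.map_append, List.map_ofFn, List.map_ofFn] at hB
  set V := sockets (X.ex (O := O) (C := Fin n1 ⊕ Fin n2) (E := Ex O n1 n2 ⊕ Ω))
    (fun q => Nm.s (.inl q)) with hV
  set Ψ : LP (NO A O Ω n1 n2) → ℂ := fun s => SF s (lO fun o => b2 (J2 (.inr (.inl o))))
    (fun r => Φ (fun o o' => jns V r (Nm.s (.inr o)) = Nm.s (.inr o'))) with hΨ
  have key := Bw.exchange (L1 := L1) (L2 := L2) (κ := κ) (κ2 := κ2) (Ψ := Ψ) hB (by
      intro c hc
      rcases List.mem_append.1 hc with hc | hc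
      · obtain ⟨i, rfl⟩ := (List.mem_ofFn' _ _).1 hc
        rfl
      · obtain ⟨i, rfl⟩ := (List.mem_ofFn' _ _).1 hc
        rfl) (by rw [κ2v, κv]; rfl) (fun z hz => Function.update_of_ne hz _ _) (by
      rw [hL1, List.map_ofFn, List.map_ofFn]; rfl) (by
      rw [hL2, List.map_ofFn, List.map_ofFn]; rfl)
    (fresh_line_o X ρ T Sum.inl_injective _ _ kC) (fresh_line_o X ρ T Sum.inr_injective _ _ kC)
    (by
      intro x hx hx'
      obtain ⟨i, d, e⟩ := mem_le_line_o hx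
      obtain ⟨i', d', e'⟩ := mem_le_line_o hx'
      rw [e] at e'
      exact absurd (Nm.l.inj e').1 (by simp)) (by
      have nle : ∀ x : NO A O Ω n1 n2, (∀ c d, x ≠ .l c d) → ¬ Le L1 x ∧ ¬ Le L2 x := by
        intro x hx
        refine ⟨fun h => ?_, fun h => ?_⟩
        · obtain ⟨i, d, e⟩ := mem_le_line_o h; exact hx _ _ e
        · obtain ⟨i, d, e⟩ := mem_le_line_o h; exact hx _ _ e
      have ms : ∀ x, (Nm.s x : NO A O Ω n1 n2) ∉ Nm.r '' T := by rintro x ⟨y, -, h⟩; simp at h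
      have mo : ∀ x b, (Nm.o x b : NO A O Ω n1 n2) ∉ Nm.r '' T := by
        rintro x b ⟨y, -, h⟩; simp at h
      apply Dep.SF
      · refine Dep.jns (Φ := fun r : LP (NO A O Ω n1 n2) =>
          Φ (fun o o' => r (Nm.s (.inr o)) = Nm.s (.inr o'))) ?_ ?_
        · intro r r' hr
          change Φ _ = Φ _
          congr 1
          funext o o'
          have hm := (hr.2 (Nm.s (.inr o)) ⟨Or.inr (ms _), nle _ (by simp)⟩).1
          rw [hm]
        · intro x hx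
          rw [hV, jm_sockets] at hx
          obtain ⟨q, h | h⟩ := hx
          · rw [h]
            rcases q with i | i | y | _ | _
            · refine ⟨Or.inl (Or.inr (Or.inr ?_)), nle _ (by simp [Rgw.ex])⟩
              rw [fn_append, List.mem_append]
              left
              exact List.mem_map.2 ⟨_, (List.mem_ofFn' _ _).2 ⟨i, rfl⟩, rfl⟩
            · refine ⟨Or.inl (Or.inr (Or.inr ?_)), nle _ (by simp [Rgw.ex])⟩
              rw [fn_append, List.mem_append]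
              right
              exact List.mem_map.2 ⟨_, (List.mem_ofFn' _ _).2 ⟨i, rfl⟩, rfl⟩
            · exact ⟨Or.inr (mo _ _), nle _ (by simp [Rgw.ex])⟩
            · exact ⟨Or.inl (Or.inl rfl), nle _ (by simp [Rgw.ex])⟩
            · exact ⟨Or.inl (Or.inr (Or.inl rfl)), nle _ (by simp [Rgw.ex])⟩
          · rw [h]
            exact ⟨Or.inr (ms _), nle _ (by simp)⟩
      · intro t ht
        unfold lO at ht
        obtain ⟨o, -, rfl⟩ := List.mem_map.1 ht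
        exact ⟨⟨Or.inr (mo _ _), nle _ (by simp)⟩, ⟨Or.inr (mo _ _), nle _ (by simp)⟩,
          ⟨Or.inr (mo _ _), nle _ (by simp)⟩, ⟨Or.inr (mo _ _), nle _ (by simp)⟩⟩)
  rw [Z1, Z2]
  exact key

end main

end Pool.Agent.H11.W
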