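import Pool.Agent.H11.W.ONet3
import Pool.Agent.H93.W.RgwE

/-!
# The second network of the open exchange

`ONet.exists_second`: for a network `N1` with a line over the front `f1` of a region there is a network `N2` with
the line over `f2` and the same outer wiring `ρ`.
-/

set_option autoImplicit false

namespace Pool.Agent.H11.W

open Pool.Agent.H64.Q1 Pool.Agent.H64.Q1.LP Pool.Agent.H81.G1 Pool.Agent.H13.Q1 Finset
open Pool.Agent.H93.W

/-- an involution from a relation -/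
theorem exists_invol {A : Type*} (R : A → A → Prop) (tot : ∀ x, ∃ y, R x y)
    (sym : ∀ x y, R x y → R y x) (fn : ∀ x y y', R x y → R x y' → y = y') (irr : ∀ x, ¬ R x x) :
    ∃ π : A → A, (∀ x, π (π x) = x) ∧ (∀ x, π x ≠ x) ∧ ∀ x y, R x y → π x = y := by
  choose π hπ using tot
  refine ⟨π, fun x => ?_, fun x h => ?_, fun x y h => ?_⟩
  · exact fn _ _ _ (hπ (π x)) (sym _ _ (hπ x))
  · have := hπ x
    rw [h] at this
    exact irr x this
  · exact fn _ _ _ (hπ x) h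

/-- a pairing from an involution -/
def lpOf {D : Type*} (π : D → D) (h : ∀ x, π (π x) = x) (h' : ∀ x, π x ≠ x) : LP D where
  p := ⟨π, π, h, h⟩
  d := fun _ => 0
  inv := h
  ne' := h'
  ant := fun _ => by simp

section wires

variable {R A O ι Q Ω : Type*} {n m : ℕ}

/-- the wires of the region and of the line -/
inductive W0 (gA : LP A) (er : R × Dir → A) (pL : Fin n → R × Dir) (J : R ⊕ O ⊕ Fin n ≃ ι)
    (s : Fin n → Dir) : ι × Dir → ι × Dir → Prop
  | rr (x y : R × Dir) (h : gA (er x) = er y) : W0 gA er pL J s (jr J x) (jr J y)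
  | rl (i : Fin n) : W0 gA er pL J s (jr J (pL i)) (jl J i (rc (s i)))
  | lr (i : Fin n) : W0 gA er pL J s (jl J i (rc (s i))) (jr J (pL i))
  | ll (i j : Fin n) (h : (j : ℕ) = i + 1) :
      W0 gA er pL J s (jl J i (rc (rc (s i)))) (jl J j (s j))
  | ll' (i j : Fin n) (h : (j : ℕ) = i + 1) :
      W0 gA er pL J s (jl J j (s j)) (jl J i (rc (rc (s i))))

variable {gA : LP A} {er : R × Dir → A} {pL : Fin n → R × Dir} {pO : Fin m → R × Dir}
  {fL : Fin n → A} {fO : Fin m → A} {J : R ⊕ O ⊕ Fin n ≃ ι} {s : Fin n → Dir}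

theorem W0.symm {x y : ι × Dir} (h : W0 gA er pL J s x y) : W0 gA er pL J s y x := by
  cases h with
  | rr x y h => exact W0.rr y x (by rw [← h, gA.invol])
  | rl i => exact W0.lr i
  | lr i => exact W0.rl i
  | ll i j h => exact W0.ll' i j h
  | ll' i j h => exact W0.ll i j h

theorem OLine.w0 {N : ONet ι Ω} (H : OLine gA er pL J s N) {x y : ι × Dir}
    (h : W0 gA er pL J s x y) : N.π (.inl x) = .inl y := by
  cases h with
  | rr x y h => exact H.rr x y h
  | rl i => exact H.rl i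
  | lr i => rw [← H.rl i, N.inv]
  | ll i j h => exact H.ll i j h
  | ll' i j h => rw [← H.ll i j h, N.inv]

variable (her : Function.Injective er) (hfL : Function.Injective fL)
  (gp : ∀ i, gA (er (pL i)) = fL i) (erf : ∀ x i, er x ≠ fL i)

theorem W0.ne {x y : ι × Dir} (h : W0 gA er pL J s x y) : x ≠ y := by
  obtain ⟨hl, hr, ho, hlr, hlo, hro⟩ := Rgn.J_facts J
  cases h with
  | rr x' y' h =>
    intro h1
    rw [hr _ _ h1] at h
    exact gA.ne2 _ h.symm
  | rl i => exact fun h1 => hlr _ _ _ h1.symm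
  | lr i => exact fun h1 => hlr _ _ _ h1
  | ll i j h =>
    intro h1
    have h2 := congrArg Fin.val (hl _ _ _ _ h1).1
    omega
  | ll' i j h =>
    intro h1
    have h2 := congrArg Fin.val (hl _ _ _ _ h1).1
    omega

include her hfL gp erf in
theorem W0.fn {x y y' : ι × Dir} (h : W0 gA er pL J s x y) (h' : W0 gA er pL J s x y') :
    y = y' := by
  obtain ⟨hl, hr, ho, hlr, hlo, hro⟩ := Rgn.J_facts J
  have c1 := fun d : Dir => (Rgn.rc_ne d).1
  have c2 := fun d : Dir => (Rgn.rc_ne d).2.1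
  generalize hx : x = x' at h'
  cases h with
  | rr a b h =>
    cases h' with
    | rr a' b' h' =>
      have := hr _ _ hx
      subst this
      rw [her (h.symm.trans h')]
    | rl i =>
      have := hr _ _ hx
      subst this
      rw [gp] at h
      exact absurd h.symm (erf _ _)
    | lr i => exact absurd hx.symm (hlr _ _ _)
    | ll i j _ => exact absurd hx.symm (hlr _ _ _)
    | ll' i j _ => exact absurd hx.symm (hlr _ _ _)
  | rl i =>
    cases h' with
    | rr a' b' h' =>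
      have := hr _ _ hx
      subst this
      rw [gp] at h'
      exact absurd h'.symm (erf _ _)
    | rl i' => 
      have h2 := hfL (show fL i = fL i' by rw [← gp, ← gp, hr _ _ hx])
      rw [h2]
    | lr i => exact absurd hx.symm (hlr _ _ _)
    | ll i j _ => exact absurd hx.symm (hlr _ _ _)
    | ll' i j _ => exact absurd hx.symm (hlr _ _ _)
  | lr i =>
    cases h' with
    | rr a' b' h' => exact absurd hx (hlr _ _ _)
    | rl i' => exact absurd hx (hlr _ _ _)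
    | lr i' => rw [(hl _ _ _ _ hx).1]
    | ll i' j _ =>
      obtain ⟨e, h2⟩ := hl _ _ _ _ hx
      rw [e] at h2
      exact absurd h2.symm (c1 _)
    | ll' i' j _ =>
      obtain ⟨e, h2⟩ := hl _ _ _ _ hx
      rw [e] at h2
      exact absurd h2 (c1 _)
  | ll i j h =>
    cases h' with
    | rr a' b' h' => exact absurd hx (hlr _ _ _)
    | rl i' => exact absurd hx (hlr _ _ _)
    | lr i' =>
      obtain ⟨e, h2⟩ := hl _ _ _ _ hx
      rw [e] at h2
      exact absurd h2 (c1 _)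
    | ll i' j' h' =>
      have e := (hl _ _ _ _ hx).1
      subst e
      have : j = j' := Fin.ext (by omega)
      rw [this]
    | ll' i' j' h' =>
      obtain ⟨e, h2⟩ := hl _ _ _ _ hx
      rw [e] at h2
      exact absurd h2 (c2 _)
  | ll' i j h =>
    cases h' with
    | rr a' b' h' => exact absurd hx (hlr _ _ _)
    | rl i' => exact absurd hx (hlr _ _ _)
    | lr i' =>
      obtain ⟨e, h2⟩ := hl _ _ _ _ hx
      rw [e] at h2
      exact absurd h2.symm (c1 _)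
    | ll i' j' h' =>
      obtain ⟨e, h2⟩ := hl _ _ _ _ hx
      rw [e] at h2
      exact absurd h2.symm (c2 _)
    | ll' i' j' h' =>
      have e := (hl _ _ _ _ hx).1
      subst e
      have : i = i' := Fin.ext (by omega)
      rw [this]

/-! ### Exposed ends -/

section ex

variable {C : Type*} [DecidableEq A] [DecidableEq O] [DecidableEq C] [DecidableEq Q]
  [DecidableEq Ω] [Fintype Q] {w w' : A} {E : Q → ι × Dir}
  {ex : Q → Nm A (O × Dir) C (Q ⊕ Ω)}

include gp in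
/-- the partner of an end which is not exposed -/
theorem W0.tot (cls : ∀ x, (∃ y, gA (er x) = er y) ∨ (∃ i, x = pL i) ∨ ∃ i, x = pO i)
    (HE : OExps pL pO fL fO w w' J s E ex) {x : ι × Dir} (hx : ∀ q, x ≠ E q) :
    ∃ y, W0 gA er pL J s x y := by
  rcases j_cases J x with ⟨x', rfl⟩ | ⟨x', rfl⟩ | ⟨i, d, rfl⟩
  · rcases cls x' with ⟨y, hy⟩ | ⟨i, rfl⟩ | ⟨i, rfl⟩
    · exact ⟨_, W0.rr x' y hy⟩
    · exact ⟨_, W0.rl i⟩
    · obtain ⟨q, hq⟩ := HE.sO i
      exact absurd hq.symm (hx q)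
  · obtain ⟨q, hq⟩ := HE.so x'
    exact absurd hq.symm (hx q)
  · rcases dir_cases (s i) d with rfl | rfl | rfl | rfl
    · rcases Nat.eq_zero_or_pos (i : ℕ) with hi | hi
      · obtain ⟨q, hq⟩ := HE.sw' i hi
        exact absurd hq.symm (hx q)
      · have hj : (i : ℕ) - 1 < n := by have := i.2; omega
        exact ⟨_, W0.ll' ⟨(i : ℕ) - 1, hj⟩ i (by simp only; omega)⟩
    · exact ⟨_, W0.lr i⟩
    · by_cases hi : (i : ℕ) + 1 = n
      · obtain ⟨q, hq⟩ := HE.sw i hi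
        exact absurd hq.symm (hx q)
      · have hj : (i : ℕ) + 1 < n := by have := i.2; omega
        exact ⟨_, W0.ll i ⟨(i : ℕ) + 1, hj⟩ rfl⟩
    · obtain ⟨q, hq⟩ := HE.sL i
      exact absurd hq.symm (hx q)

include gp in
/-- the wires of the region and of the line do not meet exposed ends -/
theorem W0.nexp (erO : ∀ x i, er x ≠ fO i) (erL : ∀ x i, er x ≠ fL i) (gp' : ∀ i, gA (er (pO i)) = fO i)
    (ff : ∀ i j, fO i ≠ fL j)
    (HE : OExps pL pO fL fO w w' J s E ex) {x y : ι × Dir} (h : W0 gA er pL J s x y) (q : Q) :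
    x ≠ E q := by
  obtain ⟨hl, hr, ho, hlr, hlo, hro⟩ := Rgn.J_facts J
  have c1 := fun d : Dir => (Rgn.rc_ne d).1
  have c2 := fun d : Dir => (Rgn.rc_ne d).2.1
  have c3 := fun d : Dir => (Rgn.rc_ne d).2.2
  intro hq
  cases h with
  | rr a b h =>
    rcases HE.cases q with ⟨i, h1, -⟩ | ⟨i, h1, -⟩ | ⟨z, h1, -⟩ | ⟨i, -, h1, -⟩ | ⟨i, -, h1, -⟩ <;>
      rw [h1] at hq
    · exact hlr _ _ _ hq.symm
    · rw [hr _ _ hq, gp'] at h
      exact erO _ _ h.symm
    · exact hro _ _ hq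
    · exact hlr _ _ _ hq.symm
    · exact hlr _ _ _ hq.symm
  | rl j =>
    rcases HE.cases q with ⟨i, h1, -⟩ | ⟨i, h1, -⟩ | ⟨z, h1, -⟩ | ⟨i, -, h1, -⟩ | ⟨i, -, h1, -⟩ <;>
      rw [h1] at hq
    · exact hlr _ _ _ hq.symm
    · have h2 := congrArg (fun z => gA (er z)) (hr _ _ hq)
      simp only [gp, gp'] at h2
      exact ff _ _ h2.symm
    · exact hro _ _ hq
    · exact hlr _ _ _ hq.symm
    · exact hlr _ _ _ hq.symm
  | lr j =>
    rcases HE.cases q with ⟨i, h1, -⟩ | ⟨i, h1, -⟩ | ⟨z, h1, -⟩ | ⟨i, -, h1, -⟩ | ⟨i, -, h1, -⟩ <;>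
      rw [h1] at hq
    · obtain ⟨e, h2⟩ := hl _ _ _ _ hq
      rw [e] at h2
      exact c2 _ h2.symm
    · exact hlr _ _ _ hq
    · exact hlo _ _ _ hq
    · obtain ⟨e, h2⟩ := hl _ _ _ _ hq
      rw [e] at h2
      exact c1 _ h2.symm
    · obtain ⟨e, h2⟩ := hl _ _ _ _ hq
      rw [e] at h2
      exact c1 _ h2
  | ll i' j h =>
    rcases HE.cases q with ⟨i, h1, -⟩ | ⟨i, h1, -⟩ | ⟨z, h1, -⟩ | ⟨i, hi, h1, -⟩ | ⟨i, -, h1, -⟩ <;>
      rw [h1] at hq
    · obtain ⟨e, h2⟩ := hl _ _ _ _ hq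
      rw [e] at h2
      exact c1 _ h2.symm
    · exact hlr _ _ _ hq
    · exact hlo _ _ _ hq
    · obtain ⟨e, h2⟩ := hl _ _ _ _ hq
      subst e
      have := j.2
      omega
    · obtain ⟨e, h2⟩ := hl _ _ _ _ hq
      rw [e] at h2
      exact c2 _ h2
  | ll' i' j h =>
    rcases HE.cases q with ⟨i, h1, -⟩ | ⟨i, h1, -⟩ | ⟨z, h1, -⟩ | ⟨i, -, h1, -⟩ | ⟨i, hi, h1, -⟩ <;>
      rw [h1] at hq
    · obtain ⟨e, h2⟩ := hl _ _ _ _ hq
      rw [e] at h2
      exact c3 _ h2.symm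
    · exact hlr _ _ _ hq
    · exact hlo _ _ _ hq
    · obtain ⟨e, h2⟩ := hl _ _ _ _ hq
      rw [e] at h2
      exact c2 _ h2.symm
    · obtain ⟨e, h2⟩ := hl _ _ _ _ hq
      subst e
      omega

include gp in
/-- **The outer wiring of a network with a line.** -/
theorem exists_rho (cls : ∀ x, (∃ y, gA (er x) = er y) ∨ (∃ i, x = pL i) ∨ ∃ i, x = pO i)
    (erO : ∀ x i, er x ≠ fO i) (erL : ∀ x i, er x ≠ fL i) (gp' : ∀ i, gA (er (pO i)) = fO i)
    (ff : ∀ i j, fO i ≠ fL j)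
    (HE : OExps pL pO fL fO w w' J s E ex) (hE : Function.Injective E) {N : ONet ι Ω}
    (H : OLine gA er pL J s N) :
    ∃ ρ : LP (Q ⊕ Ω), ∀ x, N.π (Sum.map E id x) = Sum.map E id (ρ x) := by
  have hE' : Function.Injective (Sum.map E id : Q ⊕ Ω → (ι × Dir) ⊕ Ω) :=
    Function.Injective.sumMap hE Function.injective_id
  have hex : ∀ x : Q ⊕ Ω, ∃ y, N.π (Sum.map E id x) = Sum.map E id y := by
    intro x
    rcases h1 : N.π (Sum.map E id x) with z | o
    · by_cases hz : ∃ q, z = E q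
      · obtain ⟨q, rfl⟩ := hz
        exact ⟨.inl q, rfl⟩
      · push Not at hz
        obtain ⟨z', hz'⟩ := W0.tot gp cls HE hz
        have h2 := H.w0 hz'
        rw [← h1, N.inv] at h2
        rcases x with q | o
        · simp only [Sum.map_inl, Sum.inl.injEq] at h2
          exact absurd h2.symm (W0.nexp gp erO erL gp' ff HE hz'.symm q)
        · simp at h2
    · exact ⟨.inr o, rfl⟩
  choose f hf using hex
  refine ⟨lpOf f (fun x => ?_) (fun x h => ?_), hf⟩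
  · apply hE'
    rw [← hf, ← hf, N.inv]
  · have := hf x
    rw [h] at this
    exact N.ne _ this

include her hfL gp in
/-- **A network with a line and a given outer wiring.** -/
theorem exists_net (cls : ∀ x, (∃ y, gA (er x) = er y) ∨ (∃ i, x = pL i) ∨ ∃ i, x = pO i)
    (erO : ∀ x i, er x ≠ fO i) (erL : ∀ x i, er x ≠ fL i) (gp' : ∀ i, gA (er (pO i)) = fO i)
    (ff : ∀ i j, fO i ≠ fL j)
    (HE : OExps pL pO fL fO w w' J s E ex) (hE : Function.Injective E) (ρ : LP (Q ⊕ Ω)) :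
    ∃ N : ONet ι Ω, OLine gA er pL J s N ∧
      ∀ x, N.π (Sum.map E id x) = Sum.map E id (ρ x) := by
  have hE' : Function.Injective (Sum.map E id : Q ⊕ Ω → (ι × Dir) ⊕ Ω) :=
    Function.Injective.sumMap hE Function.injective_id
  have nx : ∀ {x y : ι × Dir}, W0 gA er pL J s x y → ∀ q, x ≠ E q := fun h q =>
    W0.nexp gp erO erL gp' ff HE h q
  obtain ⟨π, h1, h2, h3⟩ := exists_invol (A := (ι × Dir) ⊕ Ω)
    (fun x y => (∃ a b, x = .inl a ∧ y = .inl b ∧ W0 gA er pL J s a b) ∨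
      ∃ z, x = Sum.map E id z ∧ y = Sum.map E id (ρ z)) (by
      rintro (x | o)
      · by_cases hz : ∃ q, x = E q
        · obtain ⟨q, rfl⟩ := hz
          exact ⟨_, Or.inr ⟨.inl q, rfl, rfl⟩⟩
        · push Not at hz
          obtain ⟨y, hy⟩ := W0.tot gp cls HE hz
          exact ⟨_, Or.inl ⟨_, _, rfl, rfl, hy⟩⟩
      · exact ⟨_, Or.inr ⟨.inr o, rfl, rfl⟩⟩) (by
      rintro x y (⟨a, b, rfl, rfl, h⟩ | ⟨z, rfl, rfl⟩)
      · exact Or.inl ⟨_, _, rfl, rfl, h.symm⟩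
      · exact Or.inr ⟨ρ z, rfl, by rw [ρ.invol]⟩) (by
      rintro x y y' (⟨a, b, rfl, rfl, h⟩ | ⟨z, rfl, rfl⟩) (⟨a', b', h4, rfl, h'⟩ | ⟨z', h4, rfl⟩)
      · have := Sum.inl.inj h4
        subst this
        rw [W0.fn her hfL gp erL h h']
      · rcases z' with q | o
        · exact absurd (Sum.inl.inj h4) (nx h q)
        · exact absurd h4 (by simp)
      · rcases z with q | o
        · exact absurd (Sum.inl.inj h4).symm (nx h' q)
        · exact absurd h4 (by simp)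
      · rw [hE' h4]) (by
      rintro x (⟨a, b, h4, h5, h⟩ | ⟨z, h4, h5⟩)
      · rw [h4] at h5
        exact h.ne (Sum.inl.inj h5)
      · rw [h4] at h5
        exact ρ.ne2 _ (hE' h5))
  refine ⟨⟨π, h1, h2⟩, ⟨fun x y h => h3 _ _ (Or.inl ⟨_, _, rfl, rfl, W0.rr x y h⟩),
    fun i => h3 _ _ (Or.inl ⟨_, _, rfl, rfl, W0.rl i⟩),
    fun i j h => h3 _ _ (Or.inl ⟨_, _, rfl, rfl, W0.ll i j h⟩)⟩, fun x => h3 _ _ (Or.inr ⟨x, rfl, rfl⟩)⟩

end ex

end wires

section main

variable {R A O ι1 ι2 Ω : Type*} [DecidableEq A] [DecidableEq O] [DecidableEq Ω] [Fintype O]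
  {n1 n2 : ℕ}

/-- **The second network.** -/
theorem ONet.exists_second (X : Rgw R A n1 n2) (h1 : 0 < n1) (h2 : 0 < n2) {N1 : ONet ι1 Ω}
    (J1 : R ⊕ O ⊕ Fin n1 ≃ ι1) (J2 : R ⊕ O ⊕ Fin n2 ≃ ι2)
    (s1 : Fin n1 → Dir) (s2 : Fin n2 → Dir) (H1 : OLine X.g X.er X.p1 J1 s1 N1) :
    ∃ (N2 : ONet ι2 Ω) (ρ : LP (Ex O n1 n2 ⊕ Ω)), OLine X.g X.er X.p2 J2 s2 N2 ∧
      (∀ x, N1.π (Sum.map (X.E1 h1 J1 s1) id x) = Sum.map (X.E1 h1 J1 s1) id (ρ x)) ∧
      ∀ x, N2.π (Sum.map (X.E2 h2 J2 s2) id x) = Sum.map (X.E2 h2 J2 s2) id (ρ x) := by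
  obtain ⟨ρ, hρ⟩ := exists_rho X.gp1 X.cls (fun x => (X.erf x).2.2.2) (fun x => (X.erf x).2.2.1)
    X.gp2 (fun i j => (X.f1_ne_f2 j i).symm) (oexps1 (Ω := Ω) X h1 J1 s1) (X.E1_inj h1 J1 s1) H1
  obtain ⟨N2, H2, hρ2⟩ := exists_net X.er_inj X.f2_inj X.gp2
    (fun x => (X.cls x).imp id Or.symm) (fun x => (X.erf x).2.2.1) (fun x => (X.erf x).2.2.2)
    X.gp1 (fun i j => X.f1_ne_f2 i j) (oexps2 (Ω := Ω) X h2 J2 s2) (X.E2_inj h2 J2 s2) ρ
  exact ⟨N2, ρ, H2, hρ, hρ2⟩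

end main

end Pool.Agent.H11.W
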