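import Pool.Agent.H80.W.PatZ
import Pool.Agent.H81.G1.Bridge
import Pool.Agent.H74.R45.TilesJ
import Pool.Agent.H11.W.ONet1

/-!
# Plane networks: the open network of a set of tiles

`PN P` : the open network of a finite set `P` of positions of tiles. The wires join neighbouring tiles, the outer
ends `Bd P` are the ends of tiles of `P` whose neighbour is not in `P`. `PN.rel_iff`: its link pattern in the
state of the labels `w` is the link pattern `Pat` of the zone `P.image lt` (80). `PN.Z_eq`: the mean of an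
arbitrary function of the link pattern `EPat` is `ONet.Z` of the plane network. Tiles in a fixed state have
weights `0`, `1`.
-/

set_option autoImplicit false

namespace Pool.Agent.H11.W

open Pool.Agent.H75.Perc Pool.Agent.H75.TwoArm Pool.Agent.Q1 Pool.Agent.H81.G1 Pool.Agent.H33.Q1
open Pool.Agent.H74.R45 (ve he ve_inj he_inj lab_ve_E lab_ve_W lab_he_S lab_he_N nxC_ve_E
  nxC_ve_W nxC_he_S nxC_he_N ce inq)
open H80.W Finset

/-! ### Neighbours -/

/-- the neighbour of a tile at an end -/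
def nb (q : ℤ × ℤ) : Dir → ℤ × ℤ
  | .W => (q.1 - 1, q.2)
  | .E => (q.1 + 1, q.2)
  | .N => (q.1, q.2 + 1)
  | .S => (q.1, q.2 - 1)

/-- the opposite end -/
def op : Dir → Dir
  | .W => .E
  | .E => .W
  | .N => .S
  | .S => .N

@[simp] theorem op_op (d : Dir) : op (op d) = d := by cases d <;> rfl

@[simp] theorem nb_nb (q : ℤ × ℤ) (d : Dir) : nb (nb q d) (op d) = q := by
  cases d <;> simp [nb, op]

@[simp] theorem ce_nb (q : ℤ × ℤ) (d : Dir) : ce (nb q d) (op d) = ce q d := by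
  cases d <;> simp [nb, op, ce]

theorem par_nb (q : ℤ × ℤ) (d : Dir) :
    decide (((nb q d).1 + (nb q d).2) % 2 = 1) = !decide ((q.1 + q.2) % 2 = 1) := by
  have h : ((nb q d).1 + (nb q d).2) % 2 = 1 ↔ ¬ (q.1 + q.2) % 2 = 1 := by
    cases d <;> simp only [nb] <;> omega
  by_cases h1 : (q.1 + q.2) % 2 = 1
  · simp only [h1, h, not_true_eq_false, decide_false, decide_true, Bool.not_true]
  · simp only [h1, h, not_false_eq_true, decide_false, decide_true, Bool.not_false]

theorem inq_nb (q : ℤ × ℤ) (d : Dir) : inq (nb q d) (op d) = !inq q d := by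
  unfold inq
  rw [par_nb]
  cases decide ((q.1 + q.2) % 2 = 1) <;> cases d <;> rfl

theorem ce_eq {q q' : ℤ × ℤ} {d d' : Dir} (h : ce q d = ce q' d') :
    (q' = q ∧ d' = d) ∨ (q' = nb q d ∧ d' = op d) := by
  obtain ⟨x, y⟩ := q
  obtain ⟨x', y'⟩ := q'
  cases d <;> cases d' <;> simp only [ce, ve, he, Prod.mk.injEq] at h <;> first
    | (refine Or.inl ⟨?_, rfl⟩; rw [Prod.mk.injEq]; omega)
    | (refine Or.inr ⟨?_, rfl⟩; simp only [nb, Prod.mk.injEq]; omega)
    | (exfalso; omega)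

theorem nb_ne (q : ℤ × ℤ) (d : Dir) : nb q d ≠ q := by
  obtain ⟨x, y⟩ := q
  cases d <;> simp [nb]

/-- an incoming end is given by its corner -/
theorem ce_inj_in {q q' : ℤ × ℤ} {d d' : Dir} (h : ce q d = ce q' d') (hi : inq q d = inq q' d') :
    q' = q ∧ d' = d := by
  rcases ce_eq h with h1 | ⟨h1, h2⟩
  · exact h1
  · rw [h1, h2, inq_nb] at hi
    cases h3 : inq q d <;> rw [h3] at hi <;> simp at hi

/-- every corner is at an incoming end of exactly one tile -/
theorem exists_ce (c : ℤ × ℤ) : ∃ q d, inq q d = true ∧ ce q d = c := by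
  have key : ∀ q d, ce q d = c → ∃ q d, inq q d = true ∧ ce q d = c := by
    intro q d h
    cases h1 : inq q d
    · exact ⟨nb q d, op d, by rw [inq_nb, h1]; rfl, by rw [ce_nb, h]⟩
    · exact ⟨q, d, h1, h⟩
  obtain ⟨a, b⟩ := c
  rcases Int.emod_two_eq_zero_or_one (a + b) with h | h
  · refine key ((a + b - 2) / 2, (b - a) / 2) .S ?_
    simp only [ce, he, Prod.mk.injEq]
    constructor <;> omega
  · refine key ((a + b - 1) / 2, (b - a - 1) / 2) .W ?_
    simp only [ce, ve, Prod.mk.injEq]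
    constructor <;> omega

/-! ### Labels of the corners -/

theorem lab_ce {q : ℤ × ℤ} {d : Dir} (h : inq q d = true) : lab (ce q d) = lt q := by
  obtain ⟨x, y⟩ := q
  unfold inq at h
  rcases Int.emod_two_eq_zero_or_one (x + y) with h1 | h1
  · simp only [h1] at h
    cases d <;> simp [Dir.v] at h
    · show lab (he (x, y + 1)) = _
      rw [lab_he_S (by omega), add_sub_cancel_right]
    · exact lab_he_N h1
  · simp only [h1] at h
    cases d <;> simp [Dir.v] at h
    · exact lab_ve_E h1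
    · show lab (ve (x + 1, y)) = _
      rw [lab_ve_W (by omega), add_sub_cancel_right]

/-- the state of the tiles -/
def sq (w : Finset (ℤ × ℤ)) (q : ℤ × ℤ) : Bool :=
  decide (lt q ∈ w) == decide ((q.1 + q.2) % 2 = 1)

/-- passage through a tile -/
theorem nx_ce (w : Finset (ℤ × ℤ)) {q : ℤ × ℤ} {d : Dir} (h : inq q d = true) :
    nx w (ce q d) = ce q (d.mate (sq w q)) := by
  have hl := lab_ce h
  have ho := lt_odd q
  unfold nx
  rw [hl]
  have hpair : ∀ d', inq q d' = true → d' ≠ d → nxO (ce q d) = nxC (ce q d') := by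
    intro d' h' hd
    refine nxO_pair ho hl (lab_ce h') fun h2 => hd ?_
    exact (ce_inj_in h2 (h.trans h'.symm)).2
  obtain ⟨x, y⟩ := q
  have cl : nxC (ce (x, y) d) = ce (x, y) (d.mate (!decide ((x + y) % 2 = 1))) := by
    unfold inq at h
    rcases Int.emod_two_eq_zero_or_one (x + y) with h1 | h1
    · simp only [h1] at h
      cases d <;> simp [Dir.v] at h
      · show nxC (he (x, y + 1)) = _
        rw [nxC_he_S (by omega), add_sub_cancel_right]
        simp [h1, Dir.mate, ce]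
      · show nxC (he (x, y)) = _
        rw [nxC_he_N h1]
        simp [h1, Dir.mate, ce]
    · simp only [h1] at h
      cases d <;> simp [Dir.v] at h
      · show nxC (ve (x, y)) = _
        rw [nxC_ve_E h1]
        simp [h1, Dir.mate, ce]
      · show nxC (ve (x + 1, y)) = _
        rw [nxC_ve_W (by omega), add_sub_cancel_right]
        simp [h1, Dir.mate, ce]
  unfold sq
  by_cases hw : lt (x, y) ∈ w
  · rw [if_pos hw]
    simp only [hw, decide_true]
    have e1 : (true == decide ((x + y) % 2 = 1)) = decide ((x + y) % 2 = 1) := by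
      cases decide ((x + y) % 2 = 1) <;> rfl
    rw [e1]
    -- the other incoming end
    have h2 : inq (x, y) (op d) = true := by
      unfold inq at h ⊢
      cases d <;> exact h
    rw [hpair (op d) h2 (by cases d <;> simp [op])]
    have cl2 : nxC (ce (x, y) (op d)) =
        ce (x, y) ((op d).mate (!decide ((x + y) % 2 = 1))) := by
      unfold inq at h
      rcases Int.emod_two_eq_zero_or_one (x + y) with h1 | h1
      · simp only [h1] at h
        cases d <;> simp [Dir.v] at h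
        · show nxC (he (x, y)) = _
          rw [nxC_he_N h1]
          simp [h1, Dir.mate, ce, op]
        · show nxC (he (x, y + 1)) = _
          rw [nxC_he_S (by omega), add_sub_cancel_right]
          simp [h1, Dir.mate, ce, op]
      · simp only [h1] at h
        cases d <;> simp [Dir.v] at h
        · show nxC (ve (x + 1, y)) = _
          rw [nxC_ve_W (by omega), add_sub_cancel_right]
          simp [h1, Dir.mate, ce, op]
        · show nxC (ve (x, y)) = _
          rw [nxC_ve_E h1]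
          simp [h1, Dir.mate, ce, op]
    rw [cl2]
    cases decide ((x + y) % 2 = 1) <;> cases d <;> rfl
  · rw [if_neg hw]
    simp only [hw, decide_false]
    have e1 : (false == decide ((x + y) % 2 = 1)) = !decide ((x + y) % 2 = 1) := by
      cases decide ((x + y) % 2 = 1) <;> rfl
    rw [e1, cl]

theorem plab_ce {q : ℤ × ℤ} {d : Dir} (h : inq q d = false) : plab (ce q d) = lt q := by
  have h1 : inq q (d.mate false) = true := by
    unfold inq at h ⊢
    cases d <;> cases h2 : decide ((q.1 + q.2) % 2 = 1) <;> simp_all [Dir.mate, Dir.v]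
  have key : ∃ w : Finset (ℤ × ℤ), sq w q = false := by
    cases h2 : decide ((q.1 + q.2) % 2 = 1)
    · exact ⟨{lt q}, by unfold sq; rw [h2]; simp⟩
    · exact ⟨∅, by unfold sq; rw [h2]; simp⟩
  obtain ⟨w, hw⟩ := key
  have h2 := nx_ce w h1
  rw [hw, ONet.mate_mate] at h2
  rw [← h2, plab_nx, lab_ce h1]

/-! ### Entries -/

theorem entry_iff {Z : Finset (ℤ × ℤ)} {c : ℤ × ℤ} : Entry Z c ↔ plab c ∉ Z := by
  constructor
  · intro h h1
    exact nx_ne_of_entry h ∅ (pv ∅ c) (by rw [lab_pv]; exact h1) (nx_pv ∅ c)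
  · intro h x hx
    refine ⟨fun h1 => h ?_, fun h1 => h ?_⟩
    · have h2 : nx {lab x} x = nxO x := by unfold nx; rw [if_pos (mem_singleton_self _)]
      rw [← h1, ← h2, plab_nx]; exact hx
    · have h2 : nx ∅ x = nxC x := by unfold nx; rw [if_neg (notMem_empty _)]
      rw [← h1, ← h2, plab_nx]; exact hx

/-- the link pattern of the zone `Z`: the strand which enters at the entry `c` leaves at `d` -/
def EPat (Z w : Finset (ℤ × ℤ)) (c d : ℤ × ℤ) : Prop := Entry Z c ∧ lab c ∈ Z ∧ Pat Z w c d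

/-! ### The network of a set of tiles -/

section net

variable (P : Finset (ℤ × ℤ))

/-- the tiles -/
abbrev Tz : Type := {q : ℤ × ℤ // q ∈ P}

/-- the outer ends: ends of tiles of `P` whose neighbour is not in `P` -/
abbrev Bd : Type := {z : Tz P × Dir // nb z.1.1 z.2 ∉ P}

/-- the partner of an end of a tile -/
def pnw (z : Tz P × Dir) : (Tz P × Dir) ⊕ Bd P :=
  if h : nb z.1.1 z.2 ∈ P then .inl (⟨nb z.1.1 z.2, h⟩, op z.2) else .inr ⟨z, h⟩

variable {P}

theorem pnw_in {z : Tz P × Dir} (h : nb z.1.1 z.2 ∈ P) :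
    pnw P z = .inl (⟨nb z.1.1 z.2, h⟩, op z.2) := dif_pos h

theorem pnw_out {z : Tz P × Dir} (h : nb z.1.1 z.2 ∉ P) : pnw P z = .inr ⟨z, h⟩ := dif_neg h

variable (P)

/-- **The plane network of a set of tiles.** -/
def PN : ONet (Tz P) (Bd P) where
  π := Sum.elim (pnw P) (fun z => .inl z.1)
  inv := by
    rintro (⟨⟨q, hq⟩, d⟩ | ⟨z, hz⟩)
    · by_cases h : nb q d ∈ P
      · have h2 : nb (nb q d) (op d) ∈ P := by rw [nb_nb]; exact hq
        simp only [Sum.elim_inl]
        rw [pnw_in (z := (⟨q, hq⟩, d)) h, Sum.elim_inl, pnw_in h2]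
        simp
      · simp only [Sum.elim_inl]
        rw [pnw_out (z := (⟨q, hq⟩, d)) h, Sum.elim_inr]
    · simp only [Sum.elim_inr, Sum.elim_inl]
      exact pnw_out hz
  ne := by
    rintro (⟨⟨q, hq⟩, d⟩ | ⟨z, hz⟩)
    · by_cases h : nb q d ∈ P
      · simp only [Sum.elim_inl]
        rw [pnw_in (z := (⟨q, hq⟩, d)) h]
        intro h1
        have h2 := congrArg (fun z : Tz P × Dir => z.1.1) (Sum.inl.inj h1)
        exact nb_ne q d h2
      · simp only [Sum.elim_inl]
        rw [pnw_out (z := (⟨q, hq⟩, d)) h]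
        simp
    · simp

variable {P}

/-- the corner of an outer end -/
def bc (o : Bd P) : ℤ × ℤ := ce o.1.1.1 o.1.2

/-- the outer end is an entry -/
def bi (o : Bd P) : Bool := inq o.1.1.1 o.1.2

theorem bc_inj : Function.Injective (bc : Bd P → ℤ × ℤ) := by
  rintro ⟨⟨⟨q, hq⟩, d⟩, h⟩ ⟨⟨⟨q', hq'⟩, d'⟩, h'⟩ he
  rcases ce_eq (show ce q d = ce q' d' from he) with ⟨rfl, rfl⟩ | ⟨h1, h2⟩
  · rfl
  · exfalso
    apply h
    show nb q d ∈ P
    rw [← h1]; exact hq'

theorem mem_lt {q : ℤ × ℤ} : lt q ∈ P.image lt ↔ q ∈ P := by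
  rw [mem_image]
  exact ⟨fun ⟨q', h1, h2⟩ => lt_inj h2 ▸ h1, fun h => ⟨q, h, rfl⟩⟩

/-- the state of the tiles -/
def sP (P : Finset (ℤ × ℤ)) (w : Finset (ℤ × ℤ)) (i : Tz P) : Bool := sq w i.1

/-- the corner of an end -/
def cK : (Tz P × Dir) ⊕ Bd P → ℤ × ℤ := Sum.elim (fun z => ce z.1.1 z.2) bc

/-- the orientation of an end: incoming ends of tiles and exits -/
def iK : (Tz P × Dir) ⊕ Bd P → Bool := Sum.elim (fun z => inq z.1.1 z.2) (fun o => !bi o)

theorem PN_π_K {z : Tz P × Dir} : cK ((PN P).π (.inl z)) = ce z.1.1 z.2 ∧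
    iK ((PN P).π (.inl z)) = !inq z.1.1 z.2 := by
  by_cases h : nb z.1.1 z.2 ∈ P
  · have e : (PN P).π (.inl z) = .inl (⟨nb z.1.1 z.2, h⟩, op z.2) := pnw_in h
    rw [e]
    exact ⟨ce_nb _ _, inq_nb _ _⟩
  · have e : (PN P).π (.inl z) = .inr ⟨z, h⟩ := pnw_out h
    rw [e]
    exact ⟨rfl, rfl⟩

theorem inq_mate (q : ℤ × ℤ) (b : Bool) (d : Dir) : inq q (d.mate b) = !inq q d := by
  unfold inq
  cases b <;> cases d <;> cases decide ((q.1 + q.2) % 2 = 1) <;> rfl

theorem PN.arr {w : Finset (ℤ × ℤ)} {o : Bd P} (ho : bi o = true) {x : (Tz P × Dir) ⊕ Bd P}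
    (h : (PN P).Arr (sP P w) o x) : iK x = true ∧
      ∃ n, (nx w)^[n] (bc o) = cK x ∧ ∀ k < n, lab ((nx w)^[k] (bc o)) ∈ P.image lt := by
  induction h with
  | start => exact ⟨ho, 0, rfl, fun k hk => absurd hk (Nat.not_lt_zero k)⟩
  | @step i d h ih =>
    obtain ⟨h1, n, h2, h3⟩ := ih
    have h4 := PN_π_K (P := P) (z := (i, d.mate (sP P w i)))
    refine ⟨?_, n + 1, ?_, ?_⟩
    · rw [h4.2]
      have h5 : inq i.1 d = true := h1
      show (!inq i.1 (d.mate _)) = true
      rw [inq_mate, h5]; rfl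
    · rw [Function.iterate_succ_apply', h2, h4.1]
      exact nx_ce w h1
    · intro k hk
      rcases Nat.lt_or_ge k n with h5 | h5
      · exact h3 k h5
      · have : k = n := by omega
        subst this
        rw [h2]
        show lab (ce i.1 d) ∈ _
        rw [lab_ce h1]
        exact mem_lt.2 i.2

/-- **The link pattern of a plane network.** -/
theorem PN.rel_iff {w : Finset (ℤ × ℤ)} {o o' : Bd P} (ho : bi o = true) :
    (PN P).rel (sP P w) o o' ↔ Pat (P.image lt) w (bc o) (bc o') := by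
  have fw : ∀ o', (PN P).rel (sP P w) o o' → Pat (P.image lt) w (bc o) (bc o') := by
    intro o' h
    obtain ⟨h1, n, h2, h3⟩ := PN.arr ho h
    refine ⟨n, h2, ?_, h3⟩
    have h4 : bi o' = false := by
      have : (!bi o') = true := h1
      cases h5 : bi o' <;> simp_all
    -- the label in front of an exit is not in the zone
    have h5 : inq (nb o'.1.1.1 o'.1.2) (op o'.1.2) = true := by
      rw [inq_nb]; unfold bi at h4; rw [h4]; rfl
    have h6 := lab_ce h5
    rw [ce_nb] at h6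
    show lab (ce o'.1.1.1 o'.1.2) ∉ _
    rw [h6, mem_lt]
    exact o'.2
  refine ⟨fw o', fun h => ?_⟩
  obtain ⟨o'', h1⟩ := (PN P).exists_rel (sP P w) o
  have h2 := fw o'' h1
  have h3 := bc_inj (Ex.det h2 h)
  rw [← h3]
  exact h1

/-- a relation between outer ends as a relation between corners -/
def extR (R : Bd P → Bd P → Prop) (c d : ℤ × ℤ) : Prop :=
  ∃ o o', bi o = true ∧ bc o = c ∧ bc o' = d ∧ R o o'

theorem EPat_eq (w : Finset (ℤ × ℤ)) : EPat (P.image lt) w = extR ((PN P).rel (sP P w)) := by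
  funext c d
  apply propext
  constructor
  · rintro ⟨h1, h2, h3⟩
    obtain ⟨q, e, h4, rfl⟩ := exists_ce c
    rw [lab_ce h4, mem_lt] at h2
    rw [entry_iff] at h1
    have h5 : inq (nb q e) (op e) = false := by rw [inq_nb, h4]; rfl
    have h6 := plab_ce h5
    rw [ce_nb] at h6
    rw [h6, mem_lt] at h1
    obtain ⟨o', ho'⟩ := (PN P).exists_rel (sP P w) ⟨(⟨q, h2⟩, e), h1⟩
    have h7 := (PN.rel_iff (o := ⟨(⟨q, h2⟩, e), h1⟩) h4).1 ho'
    exact ⟨⟨(⟨q, h2⟩, e), h1⟩, o', h4, rfl, Ex.det h7 h3, ho'⟩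
  · rintro ⟨o, o', h1, rfl, rfl, h2⟩
    refine ⟨?_, ?_, (PN.rel_iff h1).1 h2⟩
    · have h5 : inq (nb o.1.1.1 o.1.2) (op o.1.2) = false := by
        rw [inq_nb]; unfold bi at h1; rw [h1]; rfl
      have h6 := plab_ce h5
      rw [ce_nb] at h6
      rw [entry_iff]
      show plab (ce o.1.1.1 o.1.2) ∉ _
      rw [h6, mem_lt]
      exact o.2
    · show lab (ce o.1.1.1 o.1.2) ∈ _
      rw [lab_ce h1, mem_lt]
      exact o.1.1.2

/-! ### Means -/

/-- the labels of a state -/
def oP (P : Finset (ℤ × ℤ)) (s : Tz P → Bool) : Finset (ℤ × ℤ) :=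
  (univ.filter fun i : Tz P => s i = decide ((i.1.1 + i.1.2) % 2 = 1)).image fun i => lt i.1

theorem mem_oP {s : Tz P → Bool} {i : Tz P} :
    lt i.1 ∈ oP P s ↔ s i = decide ((i.1.1 + i.1.2) % 2 = 1) := by
  unfold oP
  rw [mem_image]
  constructor
  · rintro ⟨j, hj, h⟩
    rw [← Subtype.ext (lt_inj h)]
    exact (mem_filter.1 hj).2
  · intro h
    exact ⟨i, mem_filter.2 ⟨mem_univ _, h⟩, rfl⟩

theorem oP_sub (s : Tz P → Bool) : oP P s ⊆ P.image lt := by
  intro e he
  unfold oP at he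
  obtain ⟨i, -, rfl⟩ := mem_image.1 he
  exact mem_lt.2 i.2

theorem sP_oP (s : Tz P → Bool) : sP P (oP P s) = s := by
  funext i
  unfold sP sq
  by_cases h : lt i.1 ∈ oP P s
  · rw [mem_oP.1 h]
    simp [h]
  · have h2 : s i ≠ decide ((i.1.1 + i.1.2) % 2 = 1) := fun h3 => h (mem_oP.2 h3)
    simp only [h, decide_false]
    cases h3 : s i <;> cases h4 : decide ((i.1.1 + i.1.2) % 2 = 1) <;> simp_all

theorem oP_sP {ω : Finset (ℤ × ℤ)} (hω : ω ⊆ P.image lt) : oP P (sP P ω) = ω := by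
  ext e
  have key : ∀ i : Tz P, lt i.1 ∈ oP P (sP P ω) ↔ lt i.1 ∈ ω := by
    intro i
    rw [mem_oP]
    unfold sP sq
    by_cases h : lt i.1 ∈ ω <;> cases decide ((i.1.1 + i.1.2) % 2 = 1) <;> simp [h]
  constructor
  · intro h
    obtain ⟨q, hq, rfl⟩ := mem_image.1 (oP_sub _ h)
    exact (key ⟨q, hq⟩).1 h
  · intro h
    obtain ⟨q, hq, rfl⟩ := mem_image.1 (hω h)
    exact (key ⟨q, hq⟩).2 h

/-- weight of the state `false` of a tile with open weight `q` -/
noncomputable def pa (q : ℤ × ℤ → ℂ) (i : Tz P) : ℂ :=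
  if decide ((i.1.1 + i.1.2) % 2 = 1) then 1 - q (lt i.1) else q (lt i.1)

/-- weight of the state `true` of a tile with open weight `q` -/
noncomputable def pb (q : ℤ × ℤ → ℂ) (i : Tz P) : ℂ :=
  if decide ((i.1.1 + i.1.2) % 2 = 1) then q (lt i.1) else 1 - q (lt i.1)

theorem pa_add_pb (q : ℤ × ℤ → ℂ) (i : Tz P) : pa q i + pb q i = 1 := by
  unfold pa pb
  cases decide ((i.1.1 + i.1.2) % 2 = 1) <;> simp

theorem wtc_eq (q : ℤ × ℤ → ℂ) {ω : Finset (ℤ × ℤ)} (hω : ω ⊆ P.image lt) :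
    wtc q (P.image lt) ω = ∏ i : Tz P, (if sP P ω i then pb q i else pa q i) := by
  unfold wtc
  have e1 : ω = (P.image lt).filter (fun e => e ∈ ω) := by
    ext e; rw [mem_filter]; exact ⟨fun h => ⟨hω h, h⟩, fun h => h.2⟩
  have e2 : P.image lt \ ω = (P.image lt).filter (fun e => ¬ e ∈ ω) := by
    ext e; rw [mem_filter, mem_sdiff]
  have e3 : (∏ e ∈ ω, q e) * ∏ e ∈ P.image lt \ ω, (1 - q e) =
      ∏ e ∈ P.image lt, (if e ∈ ω then q e else 1 - q e) := by
    rw [Finset.prod_ite, ← e2, ← e1]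
  rw [e3, prod_image (fun a _ b _ h => lt_inj h), ← Finset.prod_coe_sort]
  refine Finset.prod_congr rfl fun i _ => ?_
  unfold sP sq pa pb
  by_cases h : lt i.1 ∈ ω <;> cases decide ((i.1.1 + i.1.2) % 2 = 1) <;> simp [h]

/-- **The mean over the labels is the mean over the states.** -/
theorem Ec_states (q : ℤ × ℤ → ℂ) (F : Finset (ℤ × ℤ) → ℂ) :
    Ec q (P.image lt) F =
      ∑ s : Tz P → Bool, (∏ i, if s i then pb q i else pa q i) * F (oP P s) := by
  unfold Ec
  refine Finset.sum_bij' (i := fun ω _ => sP P ω) (j := fun s _ => oP P s) ?_ ?_ ?_ ?_ ?_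
  · intro ω _; exact mem_univ _
  · intro s _; exact mem_powerset.2 (oP_sub s)
  · intro ω hω; exact oP_sP (mem_powerset.1 hω)
  · intro s _; exact sP_oP s
  · intro ω hω
    rw [wtc_eq q (mem_powerset.1 hω), oP_sP (mem_powerset.1 hω)]

/-- **The mean of a function of the link pattern of a zone is the mean of its plane network.** -/
theorem Ec_EPat (q : ℤ × ℤ → ℂ) (Ψ : (ℤ × ℤ → ℤ × ℤ → Prop) → ℂ) :
    Ec q (P.image lt) (fun ω => Ψ (EPat (P.image lt) ω)) =
      (PN P).Z (pa q) (pb q) (fun R => Ψ (extR R)) := by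
  rw [Ec_states]
  unfold ONet.Z
  refine Finset.sum_congr rfl fun s _ => ?_
  rw [EPat_eq, sP_oP]

/-- labels with the weight `0` or `1` are in a fixed state -/
theorem Ec_fixed {q : ℤ × ℤ → ℂ} {Z E W : Finset (ℤ × ℤ)} (hE : E ⊆ Z) (hW : W ⊆ Z)
    (hd : Disjoint E W) (h1 : ∀ e ∈ W, q e = 1) (h0 : ∀ e ∈ Z, e ∉ E → e ∉ W → q e = 0)
    (F : Finset (ℤ × ℤ) → ℂ) : Ec q Z F = Ec q E (fun ω => F (ω ∪ W)) := by
  have e1 : Z = E ∪ (Z \ E) := (union_sdiff_of_subset hE).symm
  rw [e1, Ec_union q disjoint_sdiff]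
  apply Ec_congr
  intro ω _
  have hW' : W ⊆ Z \ E := fun e he =>
    mem_sdiff.2 ⟨hW he, fun h => disjoint_left.1 hd h he⟩
  unfold Ec
  rw [Finset.sum_eq_single W]
  · unfold wtc
    rw [Finset.prod_eq_one (fun e he => h1 e he), Finset.prod_eq_one, one_mul, one_mul]
    intro e he
    obtain ⟨h2, h3⟩ := mem_sdiff.1 he
    obtain ⟨h4, h5⟩ := mem_sdiff.1 h2
    rw [h0 e h4 h5 h3, sub_zero]
  · intro ω' hω' hne
    have hω' := mem_powerset.1 hω'
    have : wtc q (Z \ E) ω' = 0 := by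
      unfold wtc
      by_cases h2 : ω' ⊆ W
      · have h3 : ∃ e ∈ W, e ∉ ω' := by
          by_contra hcon
          push Not at hcon
          exact hne (h2.antisymm hcon)
        obtain ⟨e, he, he'⟩ := h3
        rw [Finset.prod_eq_zero (s := (Z \ E) \ ω') (i := e), mul_zero]
        · exact mem_sdiff.2 ⟨hW' he, he'⟩
        · rw [h1 e he, sub_self]
      · obtain ⟨e, he, he'⟩ := not_subset.1 h2
        rw [Finset.prod_eq_zero (s := ω') (i := e) he, zero_mul]
        obtain ⟨h3, h4⟩ := mem_sdiff.1 (hω' he)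
        exact h0 e h3 h4 he'
    rw [this, zero_mul]
  · intro h
    exact absurd (mem_powerset.2 hW') h

end net

end Pool.Agent.H11.W
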