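import Pool.Agent.H11.W.Frz5
import Pool.Agent.H11.W.PNet
import Pool.Agent.H11.W.ONet4

/-!
# A rectangle as a region for a frozen line

`rectW a r m n` : the rectangle with the columns `a .. a + m` and the rows `r + 1 .. r + 1 + n`, tiles of
arbitrary weights, and a frozen line. Front: the partners of the ends `S` of the first row (part `f1`), then
the partners of the ends `E`, `N`, `W` of the other three sides (part `f2`).
-/

set_option autoImplicit false

namespace Pool.Agent.H11.W

open Pool.Agent.H64.Q1 Pool.Agent.H64.Q1.LP Pool.Agent.H81.G1 Pool.Agent.H13.Q1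
open Pool.Agent.H93.W

/-! ### Growth -/

section grow

variable {D : Type*} [DecidableEq D]

/-- a part of a frozen front, descending -/
def ds (ζ : ℂ) (c : ℕ → D) (k : ℤ) : ℕ → List (Fe D)
  | 0 => []
  | n + 1 => (c n, k, ζ) :: ds ζ c k n

/-- a part of a frozen front, ascending -/
def as (ζ : ℂ) (c : ℕ → D) (k : ℤ) (n : ℕ) : List (Fe D) := (List.range n).map fun i => (c i, k, ζ)

omit [DecidableEq D] in
theorem as_succ (ζ : ℂ) (c : ℕ → D) (k : ℤ) (n : ℕ) :
    as ζ c k (n + 1) = as ζ c k n ++ [(c n, k, ζ)] := by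
  unfold as
  rw [List.range_succ, List.map_append]; rfl

omit [DecidableEq D] in
theorem ds_eq (ζ : ℂ) (c : ℕ → D) (k : ℤ) (n : ℕ) : ds ζ c k n = (as ζ c k n).reverse := by
  induction n with
  | zero => rfl
  | succ n ih => rw [as_succ, List.reverse_append, ← ih]; rfl

/-- arcs inside one another -/
theorem Bw.nest {ζ : ℂ} (hζ : Fz ζ) {g : LP D} {u v : D} {k : ℤ} (c : ℕ → D) (n : ℕ) :
    ∀ (T : Set D) (l : List (Tl D)) (F1 F2 : List (Fe D)), Bw g u v T l (F1 ++ F2) →
    (∀ i < n, c i ∉ T) → (∀ i < n, ∀ j < n, i ≠ j → c i ≠ c j ∧ c i ≠ g (c j)) →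
    (∀ i < n, g.d (c i) = 0) →
    Bw g u v {y | y ∈ T ∨ ∃ i < n, y = c i ∨ y = g (c i)} l
      (F1 ++ ds ζ c k n ++ (as ζ (fun i => g (c i)) (k + 2) n ++ F2)) := by
  induction n with
  | zero =>
    intro T l F1 F2 h _ _ _
    refine h.congr ?_ rfl (by simp [ds, as])
    intro y
    simp
  | succ n ih =>
    intro T l F1 F2 h hT hne hd
    have h1 := Bw.edge F1 F2 (c n) k ζ ζ h (hT n (by omega)) hζ.ne_zero hζ
    rw [hd n (by omega), add_zero] at h1
    have h2 := ih {y | y ∈ T ∨ y = c n ∨ y = g (c n)} l (F1 ++ [(c n, k, ζ)])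
      ((g (c n), k + 2, ζ) :: F2) (by simpa using h1) ?_
      (fun i hi j hj hij => hne i (by omega) j (by omega) hij) (fun i hi => hd i (by omega))
    · refine h2.congr ?_ rfl ?_
      · intro y
        simp only [Set.mem_ofPred_eq]
        constructor
        · rintro (h3 | ⟨i, hi, h3⟩)
          · exact Or.inl (Or.inl h3)
          · rcases Nat.lt_or_ge i n with h4 | h4
            · exact Or.inr ⟨i, h4, h3⟩
            · have : i = n := by omega
              subst this
              exact Or.inl (Or.inr h3)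
        · rintro ((h3 | h3) | ⟨i, hi, h3⟩)
          · exact Or.inl h3
          · exact Or.inr ⟨n, by omega, h3⟩
          · exact Or.inr ⟨i, by omega, h3⟩
      · rw [as_succ]
        simp [ds]
    · intro i hi
      rintro (h3 | h3 | h3)
      · exact hT i (by omega) h3
      · exact (hne i (by omega) n (by omega) (by omega)).1 h3
      · exact (hne i (by omega) n (by omega) (by omega)).2 h3

/-- rotation of a part of the front -/
theorem Bw.rotL {ζ : ℂ} (hζ : Fz ζ) {g : LP D} {u v : D} {T : Set D} {l : List (Tl D)}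
    (L : List (D × ℤ)) : ∀ F : List (Fe D), Bw g u v T l (fz ζ L ++ F) →
    Bw g u v T l (F ++ fz ζ (L.map fun c => (c.1, c.2 + 4))) := by
  induction L with
  | nil =>
    intro F h
    simpa [fz] using h
  | cons c L ih =>
    intro F h
    rw [fz_cons] at h
    have h1 := Bw.rot (fz ζ L ++ F) c.1 c.2 ζ h hζ.ne_one
    rw [hζ.rot, List.append_assoc] at h1
    have h2 := ih _ h1
    rw [List.append_assoc] at h2
    simpa [fz] using h2

omit [DecidableEq D] in
theorem ds_fz (ζ : ℂ) (c : ℕ → D) (k : ℤ) (n : ℕ) :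
    ∃ L : List (D × ℤ), ds ζ c k n = fz ζ L ∧
      fz ζ (L.map fun c => (c.1, c.2 + 4)) = ds ζ c (k + 4) n := by
  induction n with
  | zero => exact ⟨[], rfl, rfl⟩
  | succ n ih =>
    obtain ⟨L, h1, h2⟩ := ih
    refine ⟨(c n, k) :: L, ?_, ?_⟩
    · rw [fz_cons, ← h1]; rfl
    · rw [List.map_cons, fz_cons, h2]; rfl

end grow

/-! ### The rectangle -/

/-- names: the ends of the tiles of the plane and the two ends of the line -/
abbrev PA : Type := ((ℤ × ℤ) × Dir) ⊕ Bool

/-- the wires of the plane -/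
def pg : LP PA := lpOf (Sum.elim (fun z => .inl (nb z.1 z.2, op z.2)) (fun b => .inr (!b)))
  (by rintro (⟨q, d⟩ | b) <;> simp)
  (by
    rintro (⟨q, d⟩ | b)
    · intro h
      simp only [Sum.elim_inl, Sum.inl.injEq, Prod.mk.injEq] at h
      exact nb_ne _ _ h.1
    · cases b <;> simp)

theorem pg_inl (q : ℤ × ℤ) (d : Dir) : pg (.inl (q, d)) = .inl (nb q d, op d) := rfl

theorem pg_inr (b : Bool) : pg (.inr b) = .inr (!b) := rfl

theorem pg_d (x : PA) : pg.d x = 0 := rfl

section rect

variable (a r : ℤ) (m n : ℕ)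

/-- the tiles of the rectangle: row, column -/
abbrev RT : Type := Fin (n + 1) × Fin (m + 1)

variable {m n}

/-- position of a tile -/
def rpos (z : RT m n) : ℤ × ℤ := (a + (z.2 : ℕ), r + 1 + (z.1 : ℕ))

/-- the name of an end -/
def rer (z : RT m n × Dir) : PA := .inl (rpos a r z.1, z.2)

variable (m n)

/-- the ports on the lower side -/
def prt1 (i : Fin (m + 1)) : RT m n × Dir := ((0, i), .S)

/-- the ports on the right side -/
def LpE : List (RT m n × Dir) := (List.finRange (n + 1)).map fun j => ((j, Fin.last m), .E)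

/-- the ports on the upper side -/
def LpN : List (RT m n × Dir) := ((List.finRange (m + 1)).map fun i => ((Fin.last n, i), .N)).reverse

/-- the ports on the left side -/
def LpW : List (RT m n × Dir) := ((List.finRange (n + 1)).map fun j => ((j, 0), .W)).reverse

/-- the ports on the other sides -/
def Lp2 : List (RT m n × Dir) := LpE m n ++ (LpN m n ++ LpW m n)

/-- directions -/
def kfn : PA → ℤ
  | .inl (_, .N) => 0
  | .inl (_, .W) => 1
  | .inl (_, .S) => 2
  | .inl (_, .E) => 3
  | .inr _ => 0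

variable {m n}

/-- the front at a port -/
def Gz (ζ : ℂ) (z : RT m n × Dir) : Fe PA := (pg (rer a r z), kfn (pg (rer a r z)), ζ)

/-- weights as a function of the column and the row -/
noncomputable def wf (wt : RT m n → ℂ) (i j : ℕ) : ℂ :=
  if h : j < n + 1 ∧ i < m + 1 then wt (⟨j, h.1⟩, ⟨i, h.2⟩) else 0

/-- the names of the ends of the tile in the column `i`, the row `j` -/
def nm (d : Dir) (i j : ℕ) : PA := .inl ((a + (i : ℤ), r + 1 + (j : ℤ)), d)

theorem rer_mem {z : RT m n} {d : Dir} : rer a r (z, d) = nm a r d z.2 z.1 := rfl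

variable (m n)

theorem map_range_fin {α : Type*} (f : ℕ → α) (k : ℕ) :
    (List.range k).map f = (List.finRange k).map (fun i : Fin k => f i) := by
  rw [← List.map_coe_finRange_eq_range, List.map_map]; rfl

theorem nm_ne {d d' : Dir} {i j i' j' : ℕ} (h : d ≠ d' ∨ (i, j) ≠ (i', j')) :
    nm a r d i j ≠ nm a r d' i' j' := by
  unfold nm
  intro h1
  simp only [Sum.inl.injEq, Prod.mk.injEq] at h1
  rcases h with h | h
  · exact h h1.2
  · apply h
    rw [Prod.mk.injEq]
    omega

theorem blk_rect (T : Set PA) (hT : ∀ i ≤ m, ∀ j ≤ n, nm a r .W i j ∉ T ∧ nm a r .S i j ∉ T) :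
    Blk pg T (nm a r .W) (nm a r .N) (nm a r .E) (nm a r .S) m n where
  hor := by
    intro i _ j _
    refine ⟨?_, rfl⟩
    unfold nm
    rw [pg_inl]
    simp only [nb, op, Nat.cast_add, Nat.cast_one, Sum.inl.injEq, Prod.mk.injEq, true_and, and_true]
    ring
  ver := by
    intro i _ j _
    refine ⟨?_, rfl⟩
    unfold nm
    rw [pg_inl]
    simp only [nb, op, Nat.cast_add, Nat.cast_one, Sum.inl.injEq, Prod.mk.injEq, true_and, and_true]
    ring
  fr := hT
  d03 := by
    intro i _ j _ i' _ j' _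
    refine ⟨nm_ne a r (Or.inl (by simp)), ?_⟩
    unfold nm
    rw [pg_inl]
    simp [op]
  d00 := by
    intro i _ j _ i' _ j' _
    unfold nm
    rw [pg_inl, pg_inl]
    simp [op]
  inj := by
    intro i _ j _ i' _ j' _ h
    exact ⟨nm_ne a r (Or.inr h), nm_ne a r (Or.inr h)⟩

theorem rt_ds (ζ : ℂ) (z : ℕ → ℕ → PA) (k : ℤ) (p : ℕ) :
    rt z m k (fun _ => ζ) p = ds ζ (z m) (k - 2) p := by
  induction p with
  | zero => rfl
  | succ p ih => rw [rt, ih]; rfl

theorem lf_ds (ζ : ℂ) (z : ℕ → ℕ → PA) (k : ℤ) (p : ℕ) :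
    lf pg z k (fun _ => ζ) p = ds ζ (fun j => pg (z 0 j)) (k - 2) p := by
  induction p with
  | zero => rfl
  | succ p ih => rw [lf, ih, pg_d, add_zero]; rfl

theorem dn_as (ζ : ℂ) (z : ℕ → PA) (k : ℤ) (p : ℕ) :
    dn pg z k (fun _ => ζ) p = as ζ (fun i => pg (z i)) (k - 1) p := by
  unfold dn as
  simp only [pg_d, add_zero]

theorem up_as (ζ : ℂ) (z : ℕ → PA) (k : ℤ) (p : ℕ) :
    up z k (fun _ => ζ) p = as ζ z (k - 1) p := rfl

/-- **The growth of the rectangle.** -/
theorem rect_growth {ζ : ℂ} (hζ : Fz ζ) (w : ℕ → ℕ → ℂ) :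
    ∃ T, Bw pg (.inr false) (.inr true) T
      (blkT (nm a r .W) (nm a r .N) (nm a r .E) (nm a r .S) w m (n + 1))
      (as ζ (fun i => pg (nm a r .S i 0)) 0 (m + 1) ++
        (as ζ (fun j => pg (nm a r .E m j)) 1 (n + 1) ++
        (ds ζ (fun i => pg (nm a r .N i n)) 2 (m + 1) ++
          ds ζ (fun j => pg (nm a r .W 0 j)) 3 (n + 1)))) := by
  have h0 : Bw pg (.inr false) (.inr true) {x | x = .inr false ∨ x = .inr true} [] [] :=
    Bw.nil (pg_inr false)
  -- the arcs on the right side
  have h1 := Bw.nest hζ (k := -1) (nm a r .E m) (n + 1) _ [] [] [] h0 (by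
    intro j _
    simp [nm]) (by
    intro i _ j _ hij
    refine ⟨nm_ne a r (Or.inr (by simp [hij])), ?_⟩
    unfold nm
    rw [pg_inl]
    simp [op]) (fun _ _ => rfl)
  -- the arcs on the upper side
  have h2 := Bw.nest hζ (k := -2) (fun i => pg (nm a r .N i n)) (m + 1) _ [] []
    (ds ζ (nm a r .E m) (-1) (n + 1) ++ (as ζ (fun i => pg (nm a r .E m i)) (-1 + 2) (n + 1) ++ []))
    (by simpa using h1) (by
    intro i hi
    rintro ((h | h) | ⟨j, hj, h | h⟩)
    · simp [nm, pg_inl] at h
    · simp [nm, pg_inl] at h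
    · simp [nm, pg_inl, op] at h
    · simp [nm, pg_inl, op] at h) (by
    intro i _ j _ hij
    refine ⟨?_, ?_⟩
    · intro h
      exact nm_ne a r (Or.inr (by simp [hij])) (pg.p.injective h)
    · rw [pg.invol]
      simp [nm, pg_inl, op]) (fun _ _ => rfl)
  simp only [pg.invol] at h2
  -- the tiles
  have h3 := Bw.rect (g := pg) (u := .inr false) (v := .inr true) (z0 := nm a r .W)
    (z1 := nm a r .N) (z2 := nm a r .E) (z3 := nm a r .S) (w := w) (α := fun _ => ζ)
    (ε := fun _ => ζ) (k := 1) (fun _ => hζ.ne_one) (fun _ => hζ.ne_one) m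
    (as ζ (fun i => pg (nm a r .E m i)) 1 (n + 1)) n _ []
    (ds ζ (fun i => pg (nm a r .N i n)) (-2) (m + 1)) (by
      rw [rt_ds, up_as]
      have e1 : (1 : ℤ) - 2 = -1 := by norm_num
      have e2 : (1 : ℤ) - 1 = -2 + 2 := by norm_num
      rw [e1, e2]
      simpa using h2) (blk_rect a r m n _ (by
      intro i hi j hj
      refine ⟨?_, ?_⟩
      · rintro (((h | h) | ⟨p, hp, h | h⟩) | ⟨p, hp, h | h⟩)
        · simp [nm] at h
        · simp [nm] at h
        · simp [nm] at h
        · simp only [nm, pg_inl, nb, op, Sum.inl.injEq, Prod.mk.injEq] at h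
          omega
        · simp [nm, pg_inl, op] at h
        · simp [nm] at h
      · rintro (((h | h) | ⟨p, hp, h | h⟩) | ⟨p, hp, h | h⟩)
        · simp [nm] at h
        · simp [nm] at h
        · simp [nm] at h
        · simp [nm, pg_inl, op] at h
        · simp only [nm, pg_inl, nb, op, Sum.inl.injEq, Prod.mk.injEq] at h
          omega
        · simp [nm] at h)) (by
      intro i _ j _
      rw [← hζ.inv, inv_inv]
      exact hζ.yb _)
  rw [List.append_nil, lf_ds, dn_as] at h3
  have e1 : (1 : ℤ) - 2 = -1 := by norm_num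
  have e2 : (1 : ℤ) - 1 = 0 := by norm_num
  rw [e1, e2] at h3
  -- rotations
  obtain ⟨L1, l1, l1'⟩ := ds_fz ζ (fun i => pg (nm a r .N i n)) (-2) (m + 1)
  obtain ⟨L2, l2, l2'⟩ := ds_fz ζ (fun j => pg (nm a r .W 0 j)) (-1) (n + 1)
  rw [l1] at h3
  have h4 := Bw.rotL hζ L1 _ h3
  rw [l1', l2, List.append_assoc] at h4
  have h5 := Bw.rotL hζ L2 _ h4
  rw [l2'] at h5
  refine ⟨_, h5.congr (fun _ => Iff.rfl) rfl ?_⟩
  have e3 : (-2 : ℤ) + 4 = 2 := by norm_num
  have e4 : (-1 : ℤ) + 4 = 3 := by norm_num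
  rw [e3, e4]
  simp [List.append_assoc]

/-! ### The region -/

variable {m n}

theorem rer_inj : Function.Injective (rer a r : RT m n × Dir → PA) := by
  rintro ⟨⟨j, i⟩, d⟩ ⟨⟨j', i'⟩, d'⟩ h
  simp only [rer, rpos, Sum.inl.injEq, Prod.mk.injEq] at h
  obtain ⟨⟨h1, h2⟩, rfl⟩ := h
  have e1 : i = i' := Fin.ext (by omega)
  have e2 : j = j' := Fin.ext (by omega)
  rw [e1, e2]

/-- every end is wired inside the rectangle or is a port -/
theorem rect_cls (x : RT m n × Dir) : (∃ y : RT m n × Dir, pg (rer a r x) = rer a r y) ∨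
    (∃ i, x = prt1 m n i) ∨ x ∈ Lp2 m n := by
  obtain ⟨⟨j, i⟩, d⟩ := x
  cases d
  · rcases Nat.eq_zero_or_pos (i : ℕ) with h | h
    · right; right
      have : i = 0 := Fin.ext h
      subst this
      simp [Lp2, LpE, LpN, LpW]
    · left
      refine ⟨((j, ⟨i - 1, by omega⟩), .E), ?_⟩
      simp only [rer, rpos, pg_inl, nb, op, Sum.inl.injEq, Prod.mk.injEq, and_true, true_and]
      omega
  · by_cases h : (j : ℕ) = n
    · right; right
      have : j = Fin.last n := Fin.ext h
      subst this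
      simp [Lp2, LpE, LpN, LpW]
    · left
      refine ⟨((⟨j + 1, by omega⟩, i), .S), ?_⟩
      simp only [rer, rpos, pg_inl, nb, op, Sum.inl.injEq, Prod.mk.injEq, and_true, true_and]
      omega
  · by_cases h : (i : ℕ) = m
    · right; right
      have : i = Fin.last m := Fin.ext h
      subst this
      simp [Lp2, LpE, LpN, LpW]
    · left
      refine ⟨((j, ⟨i + 1, by omega⟩), .W), ?_⟩
      simp only [rer, rpos, pg_inl, nb, op, Sum.inl.injEq, Prod.mk.injEq, and_true, true_and]
      omega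
  · rcases Nat.eq_zero_or_pos (j : ℕ) with h | h
    · right; left
      have : j = 0 := Fin.ext h
      subst this
      exact ⟨i, rfl⟩
    · left
      refine ⟨((⟨j - 1, by omega⟩, i), .N), ?_⟩
      simp only [rer, rpos, pg_inl, nb, op, Sum.inl.injEq, Prod.mk.injEq, and_true, true_and]
      omega

/-- a port is wired to a name outside the rectangle -/
theorem port_out {z : RT m n × Dir} (hz : (∃ i, z = prt1 m n i) ∨ z ∈ Lp2 m n)
    (x : RT m n × Dir) : rer a r x ≠ pg (rer a r z) := by
  obtain ⟨⟨j', i'⟩, d'⟩ := x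
  rcases hz with ⟨i, rfl⟩ | hz
  · intro h
    simp only [rer, rpos, prt1, pg_inl, nb, op, Sum.inl.injEq, Prod.mk.injEq, Fin.val_zero] at h
    omega
  · simp only [Lp2, LpE, LpN, LpW, List.mem_append, List.mem_map, List.mem_reverse,
      List.mem_finRange, true_and] at hz
    rcases hz with ⟨j, rfl⟩ | ⟨i, rfl⟩ | ⟨j, rfl⟩ <;> intro h <;>
      simp only [rer, rpos, pg_inl, nb, op, Sum.inl.injEq, Prod.mk.injEq, Fin.val_zero,
        Fin.val_last] at h <;> omega

theorem wf_eq (wt : RT m n → ℂ) (j : Fin (n + 1)) (i : Fin (m + 1)) : wf wt i j = wt (j, i) := by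
  unfold wf
  rw [dif_pos ⟨j.2, i.2⟩]

theorem blkT_eq (wt : RT m n → ℂ) :
    ((List.finRange (n + 1)).product (List.finRange (m + 1))).map
      (rgT (rer a r) (fun _ => .W) wt) =
      blkT (nm a r .W) (nm a r .N) (nm a r .E) (nm a r .S) (wf wt) m (n + 1) := by
  have key : ∀ (w : ℕ → ℕ → ℂ) (p : ℕ),
      blkT (nm a r .W) (nm a r .N) (nm a r .E) (nm a r .S) w m p =
      (List.range p).flatMap fun j => (List.finRange (m + 1)).map fun i : Fin (m + 1) =>
        (⟨nm a r .W i j, nm a r .N i j, nm a r .E i j, nm a r .S i j, w i j⟩ : Tl PA) := by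
    intro w p
    induction p with
    | zero => rfl
    | succ p ih =>
      rw [blkT, ih, List.range_succ, List.flatMap_append]
      congr 1
      unfold rowT
      rw [map_range_fin]
      simp
  rw [key, ← List.map_coe_finRange_eq_range, List.flatMap_map]
  unfold List.product
  rw [List.map_flatMap]
  congr 1
  funext j
  rw [List.map_map]
  apply List.map_congr_left
  intro i _
  simp only [Function.comp_apply, rgT, rer_mem, rc, wf_eq]

theorem Gz_list (ζ : ℂ) : (Lp2 m n).map (Gz a r ζ) =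
    as ζ (fun j => pg (nm a r .E m j)) 1 (n + 1) ++
        (ds ζ (fun i => pg (nm a r .N i n)) 2 (m + 1) ++
          ds ζ (fun j => pg (nm a r .W 0 j)) 3 (n + 1)) := by
  unfold Lp2 LpE LpN LpW
  rw [List.map_append, List.map_append, List.map_reverse, List.map_reverse, List.map_map,
    List.map_map, List.map_map, ds_eq, ds_eq]
  unfold as
  rw [map_range_fin, map_range_fin, map_range_fin]
  rfl

theorem front1 (ζ : ℂ) : List.ofFn (fun i : Fin (m + 1) =>
    (pg (rer a r (prt1 m n i)), kfn (pg (rer a r (prt1 m n i))), ζ)) =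
      as ζ (fun i => pg (nm a r .S i 0)) 0 (m + 1) := by
  unfold as
  rw [map_range_fin, List.ofFn_eq_map]
  rfl

theorem front2 (ζ : ℂ) : List.ofFn (fun i : Fin (Lp2 m n).length =>
    (pg (rer a r ((Lp2 m n).get i)), kfn (pg (rer a r ((Lp2 m n).get i))), ζ)) =
      (Lp2 m n).map (Gz a r ζ) := by
  have h := List.map_ofFn (n := (Lp2 m n).length) (f := (Lp2 m n).get) (g := Gz a r ζ)
  rw [List.ofFn_get] at h
  rw [h]
  rfl

/-- **The rectangle as a region for a frozen line.** -/
noncomputable def rectW {ζ : ℂ} (hζ : Fz ζ) (wt : RT m n → ℂ) :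
    Rgw (RT m n) PA (m + 1) (Lp2 m n).length where
  g := pg
  u := .inr false
  v := .inr true
  er := rer a r
  f1 := fun i => pg (rer a r (prt1 m n i))
  f2 := fun i => pg (rer a r ((Lp2 m n).get i))
  kf := kfn
  t1 := fun _ => ζ
  t2 := fun _ => ζ
  p1 := prt1 m n
  p2 := (Lp2 m n).get
  st := fun _ => .W
  I := (List.finRange (n + 1)).product (List.finRange (m + 1))
  wt := wt
  nd := (List.nodup_finRange _).product (List.nodup_finRange _)
  all := fun z => List.mem_product.2 ⟨List.mem_finRange _, List.mem_finRange _⟩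
  er_inj := rer_inj a r
  kuv := ⟨rfl, rfl⟩
  erf := fun x => ⟨by simp [rer], by simp [rer], fun i => port_out a r (Or.inl ⟨i, rfl⟩) x,
    fun i => port_out a r (Or.inr (List.get_mem _ _)) x⟩
  gp1 := fun _ => rfl
  gp2 := fun _ => rfl
  cls := fun x => (rect_cls a r x).imp id (Or.imp id fun h => by
    obtain ⟨i, hi⟩ := List.mem_iff_get.1 h
    exact ⟨i, hi.symm⟩)
  bt := by
    obtain ⟨T, hT⟩ := rect_growth a r m n hζ (wf wt)
    refine ⟨T, ?_⟩
    rw [blkT_eq, front1, front2, Gz_list]
    exact hT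

end rect

end Pool.Agent.H11.W
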